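import Mathlib

/-!
Finite combinations of indicator functions of residue classes and their discrepancy on
intervals of natural numbers.
-/

set_option autoImplicit false

namespace Pool.Agent.Lib.MP_d610d0_nt

open Finset

/-- The indicator function of the residue class `a mod D`. -/
noncomputable def ind (D a t : ℕ) : ℝ := if t % D = a then 1 else 0

/-- `f` is a finite combination of residue class indicators with total weight at most `W`. -/
def APW (f : ℕ → ℝ) (W : ℝ) : Prop :=
  ∃ (ι : Type) (_ : Fintype ι) (c : ι → ℝ) (D a : ι → ℕ),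
    (∀ i, a i < D i) ∧ (∀ t, f t = ∑ i, c i * ind (D i) (a i) t) ∧ ∑ i, |c i| ≤ W

lemma APW.mono {f : ℕ → ℝ} {W V : ℝ} (h : APW f W) (hWV : W ≤ V) : APW f V := by
  obtain ⟨ι, hι, c, D, a, h1, h2, h3⟩ := h
  exact ⟨ι, hι, c, D, a, h1, h2, h3.trans hWV⟩

lemma APW.congr {f g : ℕ → ℝ} {W : ℝ} (h : APW f W) (hfg : ∀ t, f t = g t) : APW g W := by
  have : f = g := funext hfg
  rwa [← this]

lemma APW.nonneg {f : ℕ → ℝ} {W : ℝ} (h : APW f W) : 0 ≤ W := by
  obtain ⟨ι, hι, c, D, a, h1, h2, h3⟩ := h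
  exact (Finset.sum_nonneg (fun i _ => abs_nonneg _)).trans h3

lemma APW.const (c : ℝ) : APW (fun _ => c) |c| := by
  refine ⟨Unit, inferInstance, fun _ => c, fun _ => 1, fun _ => 0, fun _ => by norm_num, ?_, ?_⟩
  · intro t; simp [ind, Nat.mod_one]
  · simp

lemma APW.indicator {D a : ℕ} (h : a < D) : APW (fun t => ind D a t) 1 := by
  refine ⟨Unit, inferInstance, fun _ => 1, fun _ => D, fun _ => a, fun _ => h, ?_, ?_⟩
  · intro t; simp
  · simp

lemma APW.add {f g : ℕ → ℝ} {W V : ℝ} (hf : APW f W) (hg : APW g V) :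
    APW (fun t => f t + g t) (W + V) := by
  obtain ⟨ι, hι, c, D, a, h1, h2, h3⟩ := hf
  obtain ⟨κ, hκ, c', D', a', h1', h2', h3'⟩ := hg
  refine ⟨ι ⊕ κ, inferInstance, Sum.elim c c', Sum.elim D D', Sum.elim a a', ?_, ?_, ?_⟩
  · rintro (i | i)
    · exact h1 i
    · exact h1' i
  · intro t
    show f t + g t = _
    rw [Fintype.sum_sum_type]
    simp only [Sum.elim_inl, Sum.elim_inr]
    rw [h2, h2']
  · rw [Fintype.sum_sum_type]
    simp only [Sum.elim_inl, Sum.elim_inr]
    exact add_le_add h3 h3'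

lemma APW.smul {f : ℕ → ℝ} {W : ℝ} (k : ℝ) (hf : APW f W) :
    APW (fun t => k * f t) (|k| * W) := by
  obtain ⟨ι, hι, c, D, a, h1, h2, h3⟩ := hf
  refine ⟨ι, hι, fun i => k * c i, D, a, h1, ?_, ?_⟩
  · intro t
    show k * f t = _
    rw [h2, Finset.mul_sum]
    exact Finset.sum_congr rfl (fun i _ => by ring)
  · have : ∑ i, |k * c i| = |k| * ∑ i, |c i| := by
      rw [Finset.mul_sum]
      exact Finset.sum_congr rfl (fun i _ => abs_mul _ _)
    rw [this]
    exact mul_le_mul_of_nonneg_left h3 (abs_nonneg _)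

/-- The product of two class indicators is zero or a class indicator. -/
lemma ind_mul_ind (D a D' a' : ℕ) (h : a < D) (h' : a' < D') :
    ∃ (c : ℝ) (E b : ℕ), |c| ≤ 1 ∧ b < E ∧ ∀ t, ind D a t * ind D' a' t = c * ind E b t := by
  by_cases hex : ∃ t, t % D = a ∧ t % D' = a'
  · obtain ⟨t0, h0, h0'⟩ := hex
    have hD : 0 < D := by omega
    have hD' : 0 < D' := by omega
    have hl : 0 < Nat.lcm D D' := Nat.lcm_pos hD hD'
    refine ⟨1, Nat.lcm D D', t0 % Nat.lcm D D', by simp, Nat.mod_lt _ hl, ?_⟩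
    intro t
    have key : (t % D = a ∧ t % D' = a') ↔ t % Nat.lcm D D' = t0 % Nat.lcm D D' := by
      constructor
      · rintro ⟨h1, h2⟩
        have e1 : t ≡ t0 [MOD D] := by unfold Nat.ModEq; rw [h1, h0]
        have e2 : t ≡ t0 [MOD D'] := by unfold Nat.ModEq; rw [h2, h0']
        exact Nat.mod_lcm e1 e2
      · intro h1
        have e : t ≡ t0 [MOD Nat.lcm D D'] := h1
        have e1 : t ≡ t0 [MOD D] := e.of_dvd (Nat.dvd_lcm_left D D')
        have e2 : t ≡ t0 [MOD D'] := e.of_dvd (Nat.dvd_lcm_right D D')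
        exact ⟨by rw [← h0]; exact e1, by rw [← h0']; exact e2⟩
    unfold ind
    by_cases hk : t % Nat.lcm D D' = t0 % Nat.lcm D D'
    · have := key.mpr hk
      simp [hk, this.1, this.2]
    · have hn : ¬ (t % D = a ∧ t % D' = a') := fun hh => hk (key.mp hh)
      rw [if_neg hk]
      by_cases h1 : t % D = a
      · have h2 : ¬ t % D' = a' := fun hh => hn ⟨h1, hh⟩
        simp [h2]
      · simp [h1]
  · refine ⟨0, 1, 0, by simp, by norm_num, ?_⟩
    intro t
    unfold ind
    by_cases h1 : t % D = a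
    · have h2 : ¬ t % D' = a' := fun hh => hex ⟨t, h1, hh⟩
      simp [h2]
    · simp [h1]

lemma APW.mul {f g : ℕ → ℝ} {W V : ℝ} (hf : APW f W) (hg : APW g V) :
    APW (fun t => f t * g t) (W * V) := by
  obtain ⟨ι, hι, c, D, a, h1, h2, h3⟩ := hf
  obtain ⟨κ, hκ, c', D', a', h1', h2', h3'⟩ := hg
  have hch := fun (x : ι × κ) => ind_mul_ind (D x.1) (a x.1) (D' x.2) (a' x.2) (h1 x.1) (h1' x.2)
  choose e E b he hb hmul using hch
  refine ⟨ι × κ, inferInstance, fun x => c x.1 * c' x.2 * e x, E, b, hb, ?_, ?_⟩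
  · intro t
    show f t * g t = _
    rw [h2, h2', Finset.sum_mul_sum, Fintype.sum_prod_type]
    refine Finset.sum_congr rfl (fun i _ => Finset.sum_congr rfl (fun j _ => ?_))
    have := hmul (i, j) t
    simp only at this
    calc c i * ind (D i) (a i) t * (c' j * ind (D' j) (a' j) t)
        = c i * c' j * (ind (D i) (a i) t * ind (D' j) (a' j) t) := by ring
      _ = c i * c' j * (e (i, j) * ind (E (i, j)) (b (i, j)) t) := by rw [this]
      _ = _ := by ring
  · calc ∑ x : ι × κ, |c x.1 * c' x.2 * e x|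
        ≤ ∑ x : ι × κ, |c x.1| * |c' x.2| := by
          refine Finset.sum_le_sum (fun x _ => ?_)
          rw [abs_mul, abs_mul]
          have := he x
          have h0 : 0 ≤ |c x.1| * |c' x.2| := by positivity
          calc |c x.1| * |c' x.2| * |e x| ≤ |c x.1| * |c' x.2| * 1 :=
                mul_le_mul_of_nonneg_left this h0
            _ = _ := by ring
      _ = (∑ i, |c i|) * (∑ j, |c' j|) := by
          rw [Finset.sum_mul_sum, Fintype.sum_prod_type]
      _ ≤ W * V := by
          apply mul_le_mul h3 h3'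
          · exact Finset.sum_nonneg (fun i _ => abs_nonneg _)
          · exact (Finset.sum_nonneg (fun i _ => abs_nonneg _)).trans h3

lemma APW.sum {α : Type*} (s : Finset α) (f : α → ℕ → ℝ) (W : α → ℝ)
    (h : ∀ i ∈ s, APW (f i) (W i)) : APW (fun t => ∑ i ∈ s, f i t) (∑ i ∈ s, W i) := by
  classical
  induction s using Finset.induction_on with
  | empty =>
    simp only [Finset.sum_empty]
    have := APW.const 0
    simpa using this
  | insert i s hi ih =>
    have h1 := h i (Finset.mem_insert_self i s)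
    have h2 := ih (fun j hj => h j (Finset.mem_insert_of_mem hj))
    have h3 := h1.add h2
    rw [Finset.sum_insert hi]
    refine h3.congr (fun t => ?_)
    rw [Finset.sum_insert hi]

lemma APW.prod {α : Type*} (s : Finset α) (f : α → ℕ → ℝ) (W : α → ℝ)
    (h : ∀ i ∈ s, APW (f i) (W i)) : APW (fun t => ∏ i ∈ s, f i t) (∏ i ∈ s, W i) := by
  classical
  induction s using Finset.induction_on with
  | empty =>
    simp only [Finset.prod_empty]
    have := APW.const 1
    simpa using this
  | insert i s hi ih =>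
    have h1 := h i (Finset.mem_insert_self i s)
    have h2 := ih (fun j hj => h j (Finset.mem_insert_of_mem hj))
    have h3 := h1.mul h2
    rw [Finset.prod_insert hi]
    refine h3.congr (fun t => ?_)
    rw [Finset.prod_insert hi]

lemma div_aux (D q r : ℕ) (h : r < D) : (D * q + r) / D = q := by
  rw [Nat.mul_add_div (by omega), Nat.div_eq_of_lt h, Nat.add_zero]

/-- Counting a residue class in an initial segment. -/
lemma sum_range_ind (D a N : ℕ) (h : a < D) :
    |(∑ t ∈ range N, ind D a t) - (N : ℝ) / D| ≤ 1 ∧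
    (∑ t ∈ range N, ind D a t) = (((N + (D - 1 - a)) / D : ℕ) : ℝ) := by
  have hD : 0 < D := by omega
  have key : ∀ N : ℕ, (∑ t ∈ range N, ind D a t) = (((N + (D - 1 - a)) / D : ℕ) : ℝ) := by
    intro N
    induction N with
    | zero =>
      simp only [Finset.range_zero, Finset.sum_empty, Nat.zero_add]
      rw [Nat.div_eq_of_lt (by omega)]
      simp
    | succ N ih =>
      rw [Finset.sum_range_succ, ih]
      unfold ind
      have hmd := Nat.div_add_mod N D
      have hlt := Nat.mod_lt N hD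
      split_ifs with hc
      · have : (N + 1 + (D - 1 - a)) / D = (N + (D - 1 - a)) / D + 1 := by
          have e1 : N + 1 + (D - 1 - a) = D * (N / D + 1) + 0 := by
            rw [Nat.mul_add]; omega
          have e2 : N + (D - 1 - a) = D * (N / D) + (D - 1) := by omega
          rw [e1, e2, div_aux _ _ _ hD, div_aux _ _ _ (by omega)]
        rw [this]; push_cast; ring
      · have : (N + 1 + (D - 1 - a)) / D = (N + (D - 1 - a)) / D := by
          rcases lt_or_gt_of_ne hc with hl | hg
          · have e1 : N + 1 + (D - 1 - a) = D * (N / D) + (N % D + 1 + (D - 1 - a)) := by omega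
            have e2 : N + (D - 1 - a) = D * (N / D) + (N % D + (D - 1 - a)) := by omega
            rw [e1, e2, div_aux _ _ _ (by omega), div_aux _ _ _ (by omega)]
          · have e1 : N + 1 + (D - 1 - a) = D * (N / D + 1) + (N % D - a) := by
              rw [Nat.mul_add]; omega
            have e2 : N + (D - 1 - a) = D * (N / D + 1) + (N % D - a - 1) := by
              rw [Nat.mul_add]; omega
            rw [e1, e2, div_aux _ _ _ (by omega), div_aux _ _ _ (by omega)]
        rw [this]; simp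
  refine ⟨?_, key N⟩
  rw [key N]
  have hDr : (0 : ℝ) < D := by exact_mod_cast hD
  have h1 := Nat.div_mul_le_self (N + (D - 1 - a)) D
  have h2 := Nat.lt_div_mul_add (a := N + (D - 1 - a)) hD
  set q := (N + (D - 1 - a)) / D with hq
  have h1' : (q : ℝ) * D ≤ N + (D - 1 - a) := by
    have : q * D ≤ N + (D - 1 - a) := h1
    have h3 : ((q * D : ℕ) : ℝ) ≤ ((N + (D - 1 - a) : ℕ) : ℝ) := by exact_mod_cast this
    push_cast at h3
    rw [Nat.cast_sub (by omega), Nat.cast_sub (by omega)] at h3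
    simpa using h3
  have h2' : (N : ℝ) + (D - 1 - a) < q * D + D := by
    have : N + (D - 1 - a) < q * D + D := h2
    have h3 : ((N + (D - 1 - a) : ℕ) : ℝ) < ((q * D + D : ℕ) : ℝ) := by exact_mod_cast this
    push_cast at h3
    rw [Nat.cast_sub (by omega), Nat.cast_sub (by omega)] at h3
    simpa using h3
  have ha0 : (0 : ℝ) ≤ a := Nat.cast_nonneg a
  have haD : (a : ℝ) + 1 ≤ D := by exact_mod_cast h
  rw [abs_le]
  constructor
  · rw [neg_le_sub_iff_le_add, div_le_iff₀ hDr]
    nlinarith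
  · rw [sub_le_iff_le_add, ← sub_le_iff_le_add', le_div_iff₀ hDr]
    nlinarith

/-- Counting a residue class in an interval. -/
lemma sum_Ico_ind (D a s N : ℕ) (h : a < D) :
    |(∑ t ∈ Ico s (s + N), ind D a t) - (N : ℝ) / D| ≤ 1 := by
  have hD : 0 < D := by omega
  have hDr : (0 : ℝ) < D := by exact_mod_cast hD
  have h1 : ∑ t ∈ Ico s (s + N), ind D a t
      = (∑ t ∈ range (s + N), ind D a t) - ∑ t ∈ range s, ind D a t := by
    rw [Finset.sum_Ico_eq_sub _ (by omega)]
  rw [h1, (sum_range_ind D a (s + N) h).2, (sum_range_ind D a s h).2]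
  set x := s + (D - 1 - a) with hx
  have hx2 : s + N + (D - 1 - a) = x + N := by omega
  rw [hx2]
  have a1 := Nat.div_add_mod x D
  have a2 := Nat.div_add_mod (x + N) D
  have b1 := Nat.mod_lt x hD
  have b2 := Nat.mod_lt (x + N) hD
  set q1 := x / D
  set q2 := (x + N) / D
  set r1 := x % D
  set r2 := (x + N) % D
  have e1 : (D : ℝ) * q1 + r1 = x := by exact_mod_cast a1
  have e2 : (D : ℝ) * q2 + r2 = x + N := by exact_mod_cast a2
  have c1 : (r1 : ℝ) < D := by exact_mod_cast b1
  have c2 : (r2 : ℝ) < D := by exact_mod_cast b2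
  have d1 : (0 : ℝ) ≤ r1 := Nat.cast_nonneg _
  have d2 : (0 : ℝ) ≤ r2 := Nat.cast_nonneg _
  rw [abs_le]
  constructor
  · rw [neg_le_sub_iff_le_add, div_le_iff₀ hDr]
    nlinarith
  · rw [sub_le_iff_le_add, ← sub_le_iff_le_add', le_div_iff₀ hDr]
    nlinarith

lemma APW.disc {f : ℕ → ℝ} {W : ℝ} (hf : APW f W) :
    ∃ μ : ℝ, ∀ s N : ℕ, |(∑ t ∈ Ico s (s + N), f t) - μ * N| ≤ W := by
  obtain ⟨ι, hι, c, D, a, h1, h2, h3⟩ := hf
  refine ⟨∑ i, c i / D i, fun s N => ?_⟩
  have e1 : ∑ t ∈ Ico s (s + N), f t = ∑ i, c i * ∑ t ∈ Ico s (s + N), ind (D i) (a i) t := by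
    simp_rw [h2, Finset.mul_sum]
    rw [Finset.sum_comm]
  rw [e1, Finset.sum_mul, ← Finset.sum_sub_distrib]
  calc |∑ i, (c i * ∑ t ∈ Ico s (s + N), ind (D i) (a i) t - c i / D i * N)|
      ≤ ∑ i, |c i * ∑ t ∈ Ico s (s + N), ind (D i) (a i) t - c i / D i * N| :=
        Finset.abs_sum_le_sum_abs _ _
    _ ≤ ∑ i, |c i| := by
        refine Finset.sum_le_sum (fun i _ => ?_)
        have e2 : c i * ∑ t ∈ Ico s (s + N), ind (D i) (a i) t - c i / D i * N
            = c i * (∑ t ∈ Ico s (s + N), ind (D i) (a i) t - (N : ℝ) / D i) := by ring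
        rw [e2, abs_mul]
        have := sum_Ico_ind (D i) (a i) s N (h1 i)
        calc |c i| * _ ≤ |c i| * 1 := mul_le_mul_of_nonneg_left this (abs_nonneg _)
          _ = |c i| := mul_one _
    _ ≤ W := h3

/-- Average over one period. -/
noncomputable def avg (Q : ℕ) (f : ℕ → ℝ) : ℝ := (∑ t ∈ range Q, f t) / Q

lemma sum_range_mul_period (Q : ℕ) (f : ℕ → ℝ) (hf : ∀ t, f (t + Q) = f t) (k : ℕ) :
    ∑ t ∈ range (k * Q), f t = k * ∑ t ∈ range Q, f t := by
  induction k with
  | zero => simp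
  | succ k ih =>
    have hk : ∀ k t, f (k * Q + t) = f t := by
      intro k
      induction k with
      | zero => intro t; simp
      | succ k ih2 =>
        intro t
        rw [show (k + 1) * Q + t = (k * Q + t) + Q by ring, hf, ih2]
    rw [Nat.succ_mul, Finset.sum_range_add, ih]
    simp_rw [hk]
    push_cast; ring

lemma APW.disc_avg {f : ℕ → ℝ} {W : ℝ} (hf : APW f W) {Q : ℕ} (hQ : 0 < Q)
    (hper : ∀ t, f (t + Q) = f t) (s N : ℕ) :
    |(∑ t ∈ Ico s (s + N), f t) - N * avg Q f| ≤ W := by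
  obtain ⟨μ, hμ⟩ := hf.disc
  have hQr : (0 : ℝ) < Q := by exact_mod_cast hQ
  have key : μ = avg Q f := by
    have h1 : ∀ k : ℕ, (k : ℝ) * |(∑ t ∈ range Q, f t) - μ * Q| ≤ W := by
      intro k
      have h2 := hμ 0 (k * Q)
      have h3 : Ico 0 (0 + k * Q) = range (k * Q) := by
        rw [Nat.zero_add, Finset.range_eq_Ico]
      rw [h3, sum_range_mul_period Q f hper k] at h2
      push_cast at h2
      have h4 : (k : ℝ) * ∑ t ∈ range Q, f t - μ * (k * Q)
          = k * ((∑ t ∈ range Q, f t) - μ * Q) := by ring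
      rw [h4, abs_mul, abs_of_nonneg (Nat.cast_nonneg k)] at h2
      exact h2
    have h5 : |(∑ t ∈ range Q, f t) - μ * Q| = 0 := by
      by_contra hne
      have hpos : 0 < |(∑ t ∈ range Q, f t) - μ * Q| :=
        lt_of_le_of_ne (abs_nonneg _) (Ne.symm hne)
      obtain ⟨k, hk⟩ := exists_nat_gt (W / |(∑ t ∈ range Q, f t) - μ * Q|)
      have := h1 k
      rw [div_lt_iff₀ hpos] at hk
      linarith
    have h6 : (∑ t ∈ range Q, f t) - μ * Q = 0 := abs_eq_zero.mp h5
    unfold avg
    rw [eq_div_iff hQr.ne']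
    linarith
  have := hμ s N
  rw [key] at this
  rwa [mul_comm] at this

end Pool.Agent.Lib.MP_d610d0_nt
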