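import Mathlib
import Pool.Agent.Lib.MP_d610d0_nt.AP

/-!
Averages of periodic functions: independence for coprime periods, and the local densities of
`F t = (6 t + 5) (6 t + 7)`.
-/

set_option autoImplicit false

namespace Pool.Agent.Lib.MP_d610d0_nt

open Finset

/-- `f` has period `Q`. -/
def Per (Q : ℕ) (f : ℕ → ℝ) : Prop := ∀ t, f (t + Q) = f t

lemma Per.mul_left {Q : ℕ} {f : ℕ → ℝ} (h : Per Q f) (k : ℕ) : Per (k * Q) f := by
  intro t
  induction k with
  | zero => simp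
  | succ k ih =>
    rw [show t + (k + 1) * Q = (t + k * Q) + Q by ring, h, ih]

lemma Per.of_dvd {Q Q' : ℕ} {f : ℕ → ℝ} (h : Per Q f) (hd : Q ∣ Q') : Per Q' f := by
  obtain ⟨k, rfl⟩ := hd
  rw [mul_comm]
  exact h.mul_left k

lemma Per.mod {Q : ℕ} {f : ℕ → ℝ} (h : Per Q f) (t : ℕ) : f (t % Q) = f t := by
  conv_rhs => rw [← Nat.mod_add_div t Q]
  have := h.mul_left (t / Q) (t % Q)
  rw [mul_comm] at this
  exact this.symm

lemma Per.mul {Q : ℕ} {f g : ℕ → ℝ} (hf : Per Q f) (hg : Per Q g) :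
    Per Q (fun t => f t * g t) := by
  intro t
  show f (t + Q) * g (t + Q) = f t * g t
  rw [hf, hg]

lemma Per.const (Q : ℕ) (c : ℝ) : Per Q (fun _ => c) := fun _ => rfl

lemma avg_dvd {Q Q' : ℕ} {f : ℕ → ℝ} (h : Per Q f) (hQ : 0 < Q') (hd : Q ∣ Q') :
    avg Q' f = avg Q f := by
  obtain ⟨k, rfl⟩ := hd
  have hQ1 : 0 < Q := Nat.pos_of_mul_pos_right hQ |> fun h => by
    rcases Nat.eq_zero_or_pos Q with h0 | h0
    · simp [h0] at hQ
    · exact h0
  have hk : 0 < k := by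
    rcases Nat.eq_zero_or_pos k with h0 | h0
    · simp [h0] at hQ
    · exact h0
  unfold avg
  rw [mul_comm, sum_range_mul_period Q f h k]
  have h1 : (Q : ℝ) ≠ 0 := by positivity
  have h2 : (k : ℝ) ≠ 0 := by positivity
  push_cast
  field_simp

/-- Independence for coprime periods. -/
lemma avg_mul_coprime {a b : ℕ} (ha : 0 < a) (hb : 0 < b) (hab : Nat.Coprime a b)
    {f g : ℕ → ℝ} (hf : Per a f) (hg : Per b g) :
    avg (a * b) (fun t => f t * g t) = avg a f * avg b g := by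
  have key : ∑ t ∈ range (a * b), f t * g t = (∑ i ∈ range a, f i) * ∑ j ∈ range b, g j := by
    rw [Finset.sum_mul_sum, ← Finset.sum_product']
    refine Finset.sum_bij' (fun t _ => (t % a, t % b))
      (fun x _ => (Nat.chineseRemainder hab x.1 x.2 : ℕ)) ?_ ?_ ?_ ?_ ?_
    · intro t _
      simp only [Finset.mem_product, Finset.mem_range]
      exact ⟨Nat.mod_lt _ ha, Nat.mod_lt _ hb⟩
    · intro x _
      simp only [Finset.mem_range]
      exact Nat.chineseRemainder_lt_mul hab _ _ ha.ne' hb.ne'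
    · intro t ht
      simp only [Finset.mem_range] at ht
      have h := (Nat.chineseRemainder hab (t % a) (t % b)).2
      have h1 : ((Nat.chineseRemainder hab (t % a) (t % b) : ℕ)) ≡ t [MOD a] :=
        h.1.trans (Nat.mod_modEq t a)
      have h2 : ((Nat.chineseRemainder hab (t % a) (t % b) : ℕ)) ≡ t [MOD b] :=
        h.2.trans (Nat.mod_modEq t b)
      have h3 := (Nat.modEq_and_modEq_iff_modEq_mul hab).mp ⟨h1, h2⟩
      have h4 := Nat.chineseRemainder_lt_mul hab (t % a) (t % b) ha.ne' hb.ne'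
      exact Nat.ModEq.eq_of_lt_of_lt h3 h4 ht
    · intro x hx
      simp only [Finset.mem_product, Finset.mem_range] at hx
      have h := (Nat.chineseRemainder hab x.1 x.2).2
      have h1 : (Nat.chineseRemainder hab x.1 x.2 : ℕ) % a = x.1 := by
        rw [h.1]; exact Nat.mod_eq_of_lt hx.1
      have h2 : (Nat.chineseRemainder hab x.1 x.2 : ℕ) % b = x.2 := by
        rw [h.2]; exact Nat.mod_eq_of_lt hx.2
      exact Prod.ext h1 h2
    · intro t _
      simp only
      rw [hf.mod, hg.mod]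
  unfold avg
  rw [key]
  push_cast
  rw [div_mul_div_comm]

/-- The product of the two linear forms. -/
def F (t : ℕ) : ℕ := (6 * t + 5) * (6 * t + 7)

lemma F_pos (t : ℕ) : 0 < F t := by unfold F; positivity

lemma F_ne_zero (t : ℕ) : F t ≠ 0 := (F_pos t).ne'

/-- For `p` prime, `p ≥ 5`, a prime power divides `F t` iff it divides one of the factors. -/
lemma dvd_F_iff {p k : ℕ} (hp : p.Prime) (h5 : 5 ≤ p) (t : ℕ) :
    p ^ k ∣ F t ↔ (p ^ k ∣ 6 * t + 5 ∨ p ^ k ∣ 6 * t + 7) := by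
  constructor
  · intro h
    unfold F at h
    by_cases h1 : p ∣ 6 * t + 5
    · left
      have h2 : ¬ p ∣ 6 * t + 7 := by
        intro h2
        have : p ∣ (6 * t + 7) - (6 * t + 5) := Nat.dvd_sub h2 h1
        have e : (6 * t + 7) - (6 * t + 5) = 2 := by omega
        rw [e] at this
        have := Nat.le_of_dvd (by norm_num) this
        omega
      have hc : Nat.Coprime (p ^ k) (6 * t + 7) :=
        Nat.Coprime.pow_left k ((Nat.Prime.coprime_iff_not_dvd hp).mpr h2)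
      exact hc.dvd_of_dvd_mul_right h
    · right
      have hc : Nat.Coprime (p ^ k) (6 * t + 5) :=
        Nat.Coprime.pow_left k ((Nat.Prime.coprime_iff_not_dvd hp).mpr h1)
      exact hc.dvd_of_dvd_mul_left h
  · rintro (h | h)
    · exact Dvd.dvd.mul_right h _
    · exact Dvd.dvd.mul_left h _

lemma exists_root {q c : ℕ} (hq : 0 < q) (h6 : Nat.Coprime 6 q) :
    ∃ a < q, ∀ t, q ∣ 6 * t + c ↔ t % q = a := by
  -- there is t0 with q ∣ 6 t0 + c
  obtain ⟨u, hu⟩ : ∃ u, (6 * u) ≡ 1 [MOD q] := by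
    rcases Nat.lt_or_ge 1 q with h1 | h1
    · obtain ⟨m, hm, hm2⟩ := Nat.exists_mul_mod_eq_one_of_coprime h6 h1
      refine ⟨m, ?_⟩
      unfold Nat.ModEq
      rw [hm2, Nat.mod_eq_of_lt h1]
    · have : q = 1 := by omega
      subst this
      exact ⟨0, Nat.modEq_one⟩
  obtain ⟨t0, ht0⟩ : ∃ t0, q ∣ 6 * t0 + c := by
    refine ⟨u * (c * (q - 1)), ?_⟩
    have h1 : 6 * (u * (c * (q - 1))) + c ≡ 1 * (c * (q - 1)) + c [MOD q] := by
      apply Nat.ModEq.add_right
      rw [← mul_assoc]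
      exact hu.mul_right _
    have h2 : 1 * (c * (q - 1)) + c = c * q := by
      obtain ⟨q', rfl⟩ : ∃ q', q = q' + 1 := ⟨q - 1, by omega⟩
      simp; ring
    rw [h2] at h1
    have h3 : c * q ≡ 0 [MOD q] := by
      rw [Nat.modEq_zero_iff_dvd]; exact Dvd.intro_left c rfl
    exact (Nat.modEq_zero_iff_dvd).mp (h1.trans h3)
  refine ⟨t0 % q, Nat.mod_lt _ hq, fun t => ?_⟩
  constructor
  · intro h
    have h1 : 6 * t + c ≡ 6 * t0 + c [MOD q] :=
      ((Nat.modEq_zero_iff_dvd).mpr h).trans ((Nat.modEq_zero_iff_dvd).mpr ht0).symm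
    have h2 : 6 * t ≡ 6 * t0 [MOD q] := Nat.ModEq.add_right_cancel' c h1
    have h3 : t ≡ t0 [MOD q] :=
      Nat.ModEq.cancel_left_of_coprime (by rwa [Nat.coprime_comm] at h6) h2
    exact h3
  · intro h
    have h3 : t ≡ t0 [MOD q] := h
    have h1 : 6 * t + c ≡ 6 * t0 + c [MOD q] := (h3.mul_left 6).add_right c
    exact (Nat.modEq_zero_iff_dvd).mp (h1.trans ((Nat.modEq_zero_iff_dvd).mpr ht0))

lemma coprime_six_pow {p k : ℕ} (hp : p.Prime) (h5 : 5 ≤ p) : Nat.Coprime 6 (p ^ k) := by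
  apply Nat.Coprime.pow_right
  rw [Nat.coprime_comm, Nat.Prime.coprime_iff_not_dvd hp]
  intro h
  have h6 := Nat.le_of_dvd (by norm_num) h
  interval_cases p
  · omega
  · exact absurd hp (by norm_num)

/-- indicator of `q ∣ F t`. -/
noncomputable def indF (q t : ℕ) : ℝ := if q ∣ F t then 1 else 0

lemma indF_eq {p k : ℕ} (hp : p.Prime) (h5 : 5 ≤ p) (hk : 1 ≤ k) :
    ∃ a b : ℕ, a < p ^ k ∧ b < p ^ k ∧
      ∀ t, indF (p ^ k) t = ind (p ^ k) a t + ind (p ^ k) b t := by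
  have hq : 0 < p ^ k := pow_pos hp.pos k
  obtain ⟨a, ha, ha'⟩ := exists_root (c := 5) hq (coprime_six_pow hp h5)
  obtain ⟨b, hb, hb'⟩ := exists_root (c := 7) hq (coprime_six_pow hp h5)
  refine ⟨a, b, ha, hb, fun t => ?_⟩
  unfold indF ind
  have h1 := dvd_F_iff (k := k) hp h5 t
  have hnot : ¬ (p ^ k ∣ 6 * t + 5 ∧ p ^ k ∣ 6 * t + 7) := by
    rintro ⟨h2, h3⟩
    have : p ^ k ∣ (6 * t + 7) - (6 * t + 5) := Nat.dvd_sub h3 h2
    have e : (6 * t + 7) - (6 * t + 5) = 2 := by omega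
    rw [e] at this
    have h4 : p ∣ 2 := (dvd_pow_self p (by omega)).trans this
    have := Nat.le_of_dvd (by norm_num) h4
    omega
  by_cases c1 : p ^ k ∣ 6 * t + 5
  · have c2 : ¬ p ^ k ∣ 6 * t + 7 := fun h => hnot ⟨c1, h⟩
    have d1 : t % p ^ k = a := (ha' t).mp c1
    have d2 : ¬ t % p ^ k = b := fun h => c2 ((hb' t).mpr h)
    rw [if_pos (h1.mpr (Or.inl c1)), if_pos d1, if_neg d2]; norm_num
  · by_cases c2 : p ^ k ∣ 6 * t + 7
    · have d1 : ¬ t % p ^ k = a := fun h => c1 ((ha' t).mpr h)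
      have d2 : t % p ^ k = b := (hb' t).mp c2
      rw [if_pos (h1.mpr (Or.inr c2)), if_neg d1, if_pos d2]; norm_num
    · have d1 : ¬ t % p ^ k = a := fun h => c1 ((ha' t).mpr h)
      have d2 : ¬ t % p ^ k = b := fun h => c2 ((hb' t).mpr h)
      have d0 : ¬ p ^ k ∣ F t := fun h => by
        rcases h1.mp h with h | h
        · exact c1 h
        · exact c2 h
      rw [if_neg d0, if_neg d1, if_neg d2]; norm_num

lemma indF_APW {p k : ℕ} (hp : p.Prime) (h5 : 5 ≤ p) (hk : 1 ≤ k) :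
    APW (indF (p ^ k)) 2 := by
  obtain ⟨a, b, ha, hb, h⟩ := indF_eq hp h5 hk
  have := (APW.indicator ha).add (APW.indicator hb)
  norm_num at this
  exact this.congr (fun t => (h t).symm)

lemma F_add (t q : ℕ) : F (t + q) = F t + q * (36 * q + 72 * t + 72) := by
  unfold F; ring

lemma dvd_F_add (q t : ℕ) : q ∣ F (t + q) ↔ q ∣ F t := by
  rw [F_add]
  exact (Nat.dvd_add_iff_left (Dvd.intro _ rfl)).symm

lemma indF_per (q : ℕ) : Per q (indF q) := by
  intro t
  unfold indF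
  simp only [dvd_F_add]

lemma avg_ind {D a : ℕ} (h : a < D) : avg D (ind D a) = 1 / D := by
  unfold avg
  congr 1
  rw [(sum_range_ind D a D h).2]
  have : (D + (D - 1 - a)) / D = 1 := by
    have := div_aux D 1 (D - 1 - a) (by omega)
    rwa [Nat.mul_one] at this
  rw [this]; simp

lemma avg_indF {p k : ℕ} (hp : p.Prime) (h5 : 5 ≤ p) (hk : 1 ≤ k) :
    avg (p ^ k) (indF (p ^ k)) = 2 / (p ^ k : ℕ) := by
  obtain ⟨a, b, ha, hb, h⟩ := indF_eq hp h5 hk
  have h1 : avg (p ^ k) (indF (p ^ k)) = avg (p ^ k) (ind (p ^ k) a) + avg (p ^ k) (ind (p ^ k) b) := by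
    unfold avg
    simp_rw [h]
    rw [Finset.sum_add_distrib, add_div]
  rw [h1, avg_ind ha, avg_ind hb]
  ring

end Pool.Agent.Lib.MP_d610d0_nt
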