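import Mathlib
import Pool.Agent.Lib.MP_d610d0_nt.Avg

/-!
The orthogonal functions `psiR r` and the quadratic form estimate.
-/

set_option autoImplicit false

namespace Pool.Agent.Lib.MP_d610d0_nt

open Finset

/-- `h p = 2 / (p - 2)`. -/
noncomputable def hp (p : ℕ) : ℝ := 2 / ((p : ℝ) - 2)

/-- `psi p t` is `-1` if `p ∣ F t` and `h p` otherwise. -/
noncomputable def psi (p t : ℕ) : ℝ := if p ∣ F t then -1 else hp p

noncomputable def hR (r : ℕ) : ℝ := ∏ p ∈ r.primeFactors, hp p
noncomputable def WR (r : ℕ) : ℝ := ∏ p ∈ r.primeFactors, (hp p * ((p : ℝ) + 1))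
noncomputable def psiR (r t : ℕ) : ℝ := ∏ p ∈ r.primeFactors, psi p t

/-- Squarefree and coprime to 6. -/
def Good (r : ℕ) : Prop := Squarefree r ∧ Nat.Coprime r 6

instance (r : ℕ) : Decidable (Good r) := inferInstanceAs (Decidable (_ ∧ _))

lemma Good.five_le {r p : ℕ} (hr : Good r) (hpr : p ∈ r.primeFactors) : 5 ≤ p := by
  have hp := Nat.prime_of_mem_primeFactors hpr
  have hd := Nat.dvd_of_mem_primeFactors hpr
  have hc : Nat.Coprime p 6 := hr.2.coprime_dvd_left hd
  by_contra hlt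
  have h2 := hp.two_le
  interval_cases p
  · norm_num at hc
  · norm_num at hc
  · exact absurd hp (by norm_num)

lemma Good.pos {r : ℕ} (hr : Good r) : 0 < r := Nat.pos_of_ne_zero hr.1.ne_zero

lemma good_one : Good 1 := ⟨squarefree_one, by norm_num⟩

lemma hp_pos {p : ℕ} (h5 : 5 ≤ p) : 0 < hp p := by
  unfold hp
  have : (5 : ℝ) ≤ p := by exact_mod_cast h5
  apply div_pos <;> linarith

lemma hp_le {p : ℕ} (h5 : 5 ≤ p) : hp p ≤ 2 / 3 := by
  unfold hp
  have : (5 : ℝ) ≤ p := by exact_mod_cast h5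
  apply div_le_div_of_nonneg_left <;> linarith

lemma hR_pos {r : ℕ} (hr : Good r) : 0 < hR r :=
  Finset.prod_pos (fun _ hp => hp_pos (hr.five_le hp))

lemma WR_pos {r : ℕ} (hr : Good r) : 0 < WR r :=
  Finset.prod_pos (fun p hp => mul_pos (hp_pos (hr.five_le hp)) (by positivity))

@[simp] lemma hR_one : hR 1 = 1 := by simp [hR]
@[simp] lemma WR_one : WR 1 = 1 := by simp [WR]
@[simp] lemma psiR_one (t : ℕ) : psiR 1 t = 1 := by simp [psiR]

lemma psi_eq (p t : ℕ) : psi p t = hp p - (1 + hp p) * indF p t := by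
  unfold psi indF
  split_ifs <;> ring

lemma psi_APW {p : ℕ} (hpp : p.Prime) (h5 : 5 ≤ p) : APW (psi p) (hp p * ((p : ℝ) + 1)) := by
  have h1 := APW.const (hp p)
  have h2 := (indF_APW hpp h5 (le_refl 1)).smul (-(1 + hp p))
  have h3 := h1.add h2
  have hpos := hp_pos h5
  rw [pow_one] at h3
  have h4 := h3.congr (g := psi p) (fun t => by rw [psi_eq]; ring)
  refine h4.mono (le_of_eq ?_)
  rw [abs_of_pos hpos, abs_neg, abs_of_pos (by linarith)]
  unfold hp
  have : (5 : ℝ) ≤ p := by exact_mod_cast h5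
  have h6 : (p : ℝ) - 2 ≠ 0 := by linarith
  field_simp
  ring

lemma psi_per (p : ℕ) : Per p (psi p) := by
  intro t
  rw [psi_eq, psi_eq, indF_per p t]

lemma avg_const {Q : ℕ} (hQ : 0 < Q) (c : ℝ) : avg Q (fun _ => c) = c := by
  unfold avg
  have : (Q : ℝ) ≠ 0 := by positivity
  simp
  field_simp

lemma avg_psi {p : ℕ} (hpp : p.Prime) (h5 : 5 ≤ p) : avg p (psi p) = 0 := by
  have h1 : avg p (psi p) = hp p - (1 + hp p) * avg p (indF p) := by
    unfold avg
    simp_rw [psi_eq]
    rw [Finset.sum_sub_distrib, ← Finset.mul_sum]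
    have : (p : ℝ) ≠ 0 := by have := hpp.pos; positivity
    simp
    field_simp
  have h2 := avg_indF hpp h5 (le_refl 1)
  rw [pow_one] at h2
  rw [h1, h2]
  unfold hp
  have : (5 : ℝ) ≤ p := by exact_mod_cast h5
  have h6 : (p : ℝ) - 2 ≠ 0 := by linarith
  have h7 : (p : ℝ) ≠ 0 := by linarith
  field_simp
  ring

lemma indF_sq (q t : ℕ) : indF q t * indF q t = indF q t := by
  unfold indF; split_ifs <;> norm_num

lemma avg_psi_sq {p : ℕ} (hpp : p.Prime) (h5 : 5 ≤ p) :
    avg p (fun t => psi p t * psi p t) = hp p := by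
  have h1 : avg p (fun t => psi p t * psi p t)
      = hp p ^ 2 + (1 - hp p ^ 2) * avg p (indF p) := by
    unfold avg
    have e : ∀ t, psi p t * psi p t = hp p ^ 2 + (1 - hp p ^ 2) * indF p t := by
      intro t
      rw [psi_eq]
      have := indF_sq p t
      linear_combination (1 + hp p) ^ 2 * this
    simp_rw [e]
    rw [Finset.sum_add_distrib, ← Finset.mul_sum]
    have : (p : ℝ) ≠ 0 := by have := hpp.pos; positivity
    simp
    field_simp
  have h2 := avg_indF hpp h5 (le_refl 1)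
  rw [pow_one] at h2
  rw [h1, h2]
  unfold hp
  have : (5 : ℝ) ≤ p := by exact_mod_cast h5
  have h6 : (p : ℝ) - 2 ≠ 0 := by linarith
  have h7 : (p : ℝ) ≠ 0 := by linarith
  field_simp
  ring

lemma psiR_APW {r : ℕ} (hr : Good r) : APW (psiR r) (WR r) :=
  APW.prod _ _ _ (fun _ hp => psi_APW (Nat.prime_of_mem_primeFactors hp) (hr.five_le hp))

lemma Per.prod {α : Type*} (s : Finset α) (Q : ℕ) (f : α → ℕ → ℝ) (h : ∀ i ∈ s, Per Q (f i)) :
    Per Q (fun t => ∏ i ∈ s, f i t) := by
  intro t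
  exact Finset.prod_congr rfl (fun i hi => h i hi t)

lemma psiR_per (r : ℕ) : Per r (psiR r) :=
  Per.prod _ _ _ (fun p hp => (psi_per p).of_dvd (Nat.dvd_of_mem_primeFactors hp))

lemma primeFactors_mul_prime {p r : ℕ} (hp : p.Prime) (hr : r ≠ 0) :
    (p * r).primeFactors = insert p r.primeFactors := by
  rw [Nat.primeFactors_mul hp.ne_zero hr, Nat.Prime.primeFactors hp]
  rfl

lemma psiR_mul_prime {p r : ℕ} (hpp : p.Prime) (hr : r ≠ 0) (hpr : ¬ p ∣ r) (t : ℕ) :
    psiR (p * r) t = psi p t * psiR r t := by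
  unfold psiR
  rw [primeFactors_mul_prime hpp hr, Finset.prod_insert]
  intro h
  exact hpr (Nat.dvd_of_mem_primeFactors h)

lemma hR_mul_prime {p r : ℕ} (hpp : p.Prime) (hr : r ≠ 0) (hpr : ¬ p ∣ r) :
    hR (p * r) = hp p * hR r := by
  unfold hR
  rw [primeFactors_mul_prime hpp hr, Finset.prod_insert]
  intro h
  exact hpr (Nat.dvd_of_mem_primeFactors h)

lemma WR_mul_prime {p r : ℕ} (hpp : p.Prime) (hr : r ≠ 0) (hpr : ¬ p ∣ r) :
    WR (p * r) = hp p * ((p : ℝ) + 1) * WR r := by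
  unfold WR
  rw [primeFactors_mul_prime hpp hr, Finset.prod_insert]
  intro h
  exact hpr (Nat.dvd_of_mem_primeFactors h)

/-- A squarefree number divisible by the prime `p` splits. -/
lemma Good.split {p r : ℕ} (hr : Good r) (hpp : p.Prime) (hpr : p ∣ r) :
    ∃ r', r = p * r' ∧ Good r' ∧ ¬ p ∣ r' := by
  obtain ⟨r', rfl⟩ := hpr
  refine ⟨r', rfl, ⟨?_, ?_⟩, ?_⟩
  · exact hr.1.squarefree_of_dvd (Dvd.intro_left p rfl)
  · exact hr.2.coprime_dvd_left (Dvd.intro_left p rfl)
  · intro h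
    have h1 : p * p ∣ p * r' := Nat.mul_dvd_mul_left p h
    have h2 := hr.1 p h1
    have := Nat.isUnit_iff.mp h2
    exact hpp.one_lt.ne' this

lemma Good.mul_prime {p r : ℕ} (hr : Good r) (hpp : p.Prime) (h5 : 5 ≤ p) (hpr : ¬ p ∣ r) :
    Good (p * r) := by
  have hc : Nat.Coprime p r := (Nat.Prime.coprime_iff_not_dvd hpp).mpr hpr
  refine ⟨?_, ?_⟩
  · rw [Nat.squarefree_mul hc]
    exact ⟨hpp.squarefree, hr.1⟩
  · refine Nat.Coprime.mul_left ?_ hr.2
    have := coprime_six_pow (k := 1) hpp h5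
    rw [pow_one] at this
    exact this.symm

lemma avg_psiR_sq {r : ℕ} (hr : Good r) : avg r (fun t => psiR r t * psiR r t) = hR r := by
  induction r using Nat.strong_induction_on with
  | _ r ih =>
    by_cases h1 : r = 1
    · subst h1
      simp only [psiR_one, hR_one, mul_one]
      exact avg_const (by norm_num) 1
    · obtain ⟨p, hpp, hpr⟩ := Nat.exists_prime_and_dvd h1
      have h5 : 5 ≤ p := hr.five_le (Nat.mem_primeFactors.mpr ⟨hpp, hpr, hr.pos.ne'⟩)
      obtain ⟨r', rfl, hr', hn⟩ := hr.split hpp hpr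
      have hr'0 := hr'.pos
      have hlt : r' < p * r' := by
        have := hpp.two_le
        nlinarith
      have e : (fun t => psiR (p * r') t * psiR (p * r') t)
          = fun t => (fun t => psi p t * psi p t) t * (fun t => psiR r' t * psiR r' t) t := by
        funext t
        simp only
        rw [psiR_mul_prime hpp hr'0.ne' hn]; ring
      rw [e, avg_mul_coprime hpp.pos hr'0 ((Nat.Prime.coprime_iff_not_dvd hpp).mpr hn)
        ((psi_per p).mul (psi_per p)) ((psiR_per r').mul (psiR_per r')),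
        avg_psi_sq hpp h5, ih r' hlt hr', hR_mul_prime hpp hr'0.ne' hn]

lemma avg_ortho_aux {r s q p : ℕ} (hr : Good r) (hs : Good s) (hq : 0 < q)
    (hqr : Nat.Coprime q r) {g : ℕ → ℝ} (hg : Per q g)
    (hpp : p.Prime) (hpr : p ∣ r) (hps : ¬ p ∣ s) :
    avg (r * s * q) (fun t => psiR r t * psiR s t * g t) = 0 := by
  have h5 : 5 ≤ p := hr.five_le (Nat.mem_primeFactors.mpr ⟨hpp, hpr, hr.pos.ne'⟩)
  have hpq : Nat.Coprime p q := (hqr.coprime_dvd_right hpr).symm
  obtain ⟨r', rfl, hr', hn⟩ := hr.split hpp hpr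
  have e : (fun t => psiR (p * r') t * psiR s t * g t)
      = fun t => psi p t * (fun t => psiR r' t * psiR s t * g t) t := by
    funext t
    simp only
    rw [psiR_mul_prime hpp hr'.pos.ne' hn]; ring
  have e2 : p * r' * s * q = p * (r' * s * q) := by ring
  have hper : Per (r' * s * q) (fun t => psiR r' t * psiR s t * g t) := by
    apply Per.mul
    · apply Per.mul
      · exact (psiR_per r').of_dvd ⟨s * q, by ring⟩
      · exact (psiR_per s).of_dvd ⟨r' * q, by ring⟩
    · exact hg.of_dvd ⟨r' * s, by ring⟩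
  have hcop : Nat.Coprime p (r' * s * q) := by
    refine Nat.Coprime.mul_right (Nat.Coprime.mul_right ?_ ?_) hpq
    · exact (Nat.Prime.coprime_iff_not_dvd hpp).mpr hn
    · exact (Nat.Prime.coprime_iff_not_dvd hpp).mpr hps
  rw [e, e2, avg_mul_coprime hpp.pos (by have := hr'.pos; have := hs.pos; positivity) hcop
    (psi_per p) hper, avg_psi hpp h5, zero_mul]

lemma avg_ortho {r s q : ℕ} (hr : Good r) (hs : Good s) (hq : 0 < q)
    (hqr : Nat.Coprime q r) (hqs : Nat.Coprime q s) {g : ℕ → ℝ} (hg : Per q g) :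
    avg (r * s * q) (fun t => psiR r t * psiR s t * g t)
      = if r = s then hR r * avg q g else 0 := by
  split_ifs with hrs
  · subst hrs
    have hper : Per (r * q) (fun t => psiR r t * psiR r t * g t) := by
      apply Per.mul
      · exact ((psiR_per r).mul (psiR_per r)).of_dvd ⟨q, by ring⟩
      · exact hg.of_dvd ⟨r, by ring⟩
    have hr0 := hr.pos
    rw [avg_dvd hper (by positivity) ⟨r, by ring⟩]
    have := avg_mul_coprime hr0 hq hqr.symm ((psiR_per r).mul (psiR_per r)) hg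
    rw [this, avg_psiR_sq hr]
  · have hne : r.primeFactors ≠ s.primeFactors := by
      intro h
      apply hrs
      rw [← Nat.prod_primeFactors_of_squarefree hr.1, ← Nat.prod_primeFactors_of_squarefree hs.1, h]
    have hex : (∃ p, p ∈ r.primeFactors ∧ p ∉ s.primeFactors) ∨
        (∃ p, p ∈ s.primeFactors ∧ p ∉ r.primeFactors) := by
      by_contra hcon
      push Not at hcon
      exact hne (Finset.Subset.antisymm (fun p hp => hcon.1 p hp) (fun p hp => hcon.2 p hp))
    rcases hex with ⟨p, h1, h2⟩ | ⟨p, h1, h2⟩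
    · have hpp := Nat.prime_of_mem_primeFactors h1
      have hd := Nat.dvd_of_mem_primeFactors h1
      have hnd : ¬ p ∣ s := fun h => h2 (Nat.mem_primeFactors.mpr ⟨hpp, h, hs.pos.ne'⟩)
      exact avg_ortho_aux hr hs hq hqr hg hpp hd hnd
    · have hpp := Nat.prime_of_mem_primeFactors h1
      have hd := Nat.dvd_of_mem_primeFactors h1
      have hnd : ¬ p ∣ r := fun h => h2 (Nat.mem_primeFactors.mpr ⟨hpp, h, hr.pos.ne'⟩)
      have := avg_ortho_aux hs hr hq hqs hg hpp hd hnd
      rw [mul_comm s r] at this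
      rw [← this]
      congr 1
      funext t; ring

/-- The quadratic form estimate. -/
lemma quad_form (S : Finset ℕ) (hS : ∀ r ∈ S, Good r) (Y : ℕ → ℝ) {q : ℕ} (hq : 0 < q)
    (hqS : ∀ r ∈ S, Nat.Coprime q r) {g : ℕ → ℝ} (hg : Per q g) {V : ℝ} (hV : APW g V)
    (s N : ℕ) :
    |(∑ t ∈ Ico s (s + N), g t * (∑ r ∈ S, Y r * psiR r t) ^ 2)
      - N * (avg q g * ∑ r ∈ S, hR r * Y r ^ 2)| ≤ V * (∑ r ∈ S, |Y r| * WR r) ^ 2 := by
  classical
  have hpair : ∀ r ∈ S, ∀ u ∈ S,
      |(∑ t ∈ Ico s (s + N), psiR r t * psiR u t * g t)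
        - N * (if r = u then hR r * avg q g else 0)| ≤ WR r * WR u * V := by
    intro r hr u hu
    have h1 := (((psiR_APW (hS r hr)).mul (psiR_APW (hS u hu))).mul hV)
    have hper : Per (r * u * q) (fun t => psiR r t * psiR u t * g t) := by
      apply Per.mul
      · apply Per.mul
        · exact (psiR_per r).of_dvd ⟨u * q, by ring⟩
        · exact (psiR_per u).of_dvd ⟨r * q, by ring⟩
      · exact hg.of_dvd ⟨r * u, by ring⟩
    have h2 := h1.disc_avg (Q := r * u * q)
      (by have := (hS r hr).pos; have := (hS u hu).pos; positivity) hper s N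
    rw [avg_ortho (hS r hr) (hS u hu) hq (hqS r hr) (hqS u hu) hg] at h2
    exact h2
  have e1 : ∑ t ∈ Ico s (s + N), g t * (∑ r ∈ S, Y r * psiR r t) ^ 2
      = ∑ r ∈ S, ∑ u ∈ S, Y r * Y u * ∑ t ∈ Ico s (s + N), psiR r t * psiR u t * g t := by
    simp_rw [sq, Finset.sum_mul_sum, Finset.mul_sum]
    rw [Finset.sum_comm]
    refine Finset.sum_congr rfl (fun r _ => ?_)
    rw [Finset.sum_comm]
    refine Finset.sum_congr rfl (fun u _ => ?_)
    refine Finset.sum_congr rfl (fun t _ => ?_)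
    ring
  have e2 : (N : ℝ) * (avg q g * ∑ r ∈ S, hR r * Y r ^ 2)
      = ∑ r ∈ S, ∑ u ∈ S, Y r * Y u * (N * (if r = u then hR r * avg q g else 0)) := by
    rw [Finset.mul_sum, Finset.mul_sum]
    refine Finset.sum_congr rfl (fun r hr => ?_)
    have : ∀ u ∈ S, Y r * Y u * (N * (if r = u then hR r * avg q g else 0))
        = if r = u then Y r * Y r * (N * (hR r * avg q g)) else 0 := by
      intro u _
      split_ifs with h
      · subst h; rfl
      · ring
    rw [Finset.sum_congr rfl this, Finset.sum_ite_eq, if_pos hr]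
    ring
  rw [e1, e2, ← Finset.sum_sub_distrib]
  calc |∑ r ∈ S, (∑ u ∈ S, Y r * Y u * ∑ t ∈ Ico s (s + N), psiR r t * psiR u t * g t
        - ∑ u ∈ S, Y r * Y u * (N * (if r = u then hR r * avg q g else 0)))|
      ≤ ∑ r ∈ S, |∑ u ∈ S, Y r * Y u * ∑ t ∈ Ico s (s + N), psiR r t * psiR u t * g t
        - ∑ u ∈ S, Y r * Y u * (N * (if r = u then hR r * avg q g else 0))| :=
        Finset.abs_sum_le_sum_abs _ _
    _ ≤ ∑ r ∈ S, ∑ u ∈ S, (|Y r| * WR r) * (|Y u| * WR u) * V := by
        refine Finset.sum_le_sum (fun r hr => ?_)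
        rw [← Finset.sum_sub_distrib]
        refine (Finset.abs_sum_le_sum_abs _ _).trans (Finset.sum_le_sum (fun u hu => ?_))
        rw [← mul_sub, abs_mul, abs_mul]
        calc |Y r| * |Y u| * _ ≤ |Y r| * |Y u| * (WR r * WR u * V) :=
              mul_le_mul_of_nonneg_left (hpair r hr u hu) (by positivity)
          _ = _ := by ring
    _ = V * (∑ r ∈ S, |Y r| * WR r) ^ 2 := by
        rw [sq, Finset.sum_mul_sum, Finset.mul_sum]
        refine Finset.sum_congr rfl (fun r _ => ?_)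
        rw [Finset.mul_sum]
        refine Finset.sum_congr rfl (fun u _ => ?_)
        ring

end Pool.Agent.Lib.MP_d610d0_nt
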