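import Mathlib
import Pool.Agent.Lib.MP_d610d0_nt.Psi

/-!
The logarithmic weights: from a positive weighted sum to almost primes.
-/

set_option autoImplicit false

namespace Pool.Agent.Lib.MP_d610d0_nt

open Finset
open scoped ArithmeticFunction.Omega

/-- primes `5 ≤ p` with `log p < η`. -/
noncomputable def Pr (η : ℝ) : Finset ℕ :=
  (Finset.range (⌈Real.exp η⌉₊ + 1)).filter (fun p => p.Prime ∧ 5 ≤ p ∧ Real.log p < η)

lemma mem_Pr {η : ℝ} {p : ℕ} : p ∈ Pr η ↔ p.Prime ∧ 5 ≤ p ∧ Real.log p < η := by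
  unfold Pr
  rw [Finset.mem_filter, Finset.mem_range]
  constructor
  · exact fun h => h.2
  · intro h
    refine ⟨?_, h⟩
    have hp : (0 : ℝ) < p := by have := h.1.pos; exact_mod_cast this
    have h1 : (p : ℝ) < Real.exp η := by
      rw [← Real.exp_log hp]; exact Real.exp_lt_exp.mpr h.2.2
    have h2 : (p : ℝ) ≤ ⌈Real.exp η⌉₊ := h1.le.trans (Nat.le_ceil _)
    have h3 : p ≤ ⌈Real.exp η⌉₊ := by exact_mod_cast h2
    omega

/-- the weight `1 - log p / η`. -/
noncomputable def wt (η : ℝ) (p : ℕ) : ℝ := 1 - Real.log p / η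

lemma wt_nonneg {η : ℝ} (hη : 0 < η) {p : ℕ} (hp : p ∈ Pr η) : 0 ≤ wt η p := by
  unfold wt
  have := (mem_Pr.mp hp).2.2
  rw [sub_nonneg, div_le_one hη]
  exact this.le

lemma wt_le_one {η : ℝ} (hη : 0 < η) {p : ℕ} (hp : p ∈ Pr η) : wt η p ≤ 1 := by
  unfold wt
  have h5 := (mem_Pr.mp hp).2.1
  have : 0 ≤ Real.log p := Real.log_natCast_nonneg p
  have h2 : 0 ≤ Real.log p / η := by positivity
  linarith

lemma five_le_of_dvd_F {p t : ℕ} (hp : p.Prime) (hd : p ∣ F t) : 5 ≤ p := by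
  have h1 : ¬ 2 ∣ F t := by
    unfold F
    rw [Nat.Prime.dvd_mul Nat.prime_two]
    omega
  have h2 : ¬ 3 ∣ F t := by
    unfold F
    rw [Nat.Prime.dvd_mul Nat.prime_three]
    omega
  by_contra hlt
  have h3 := hp.two_le
  interval_cases p
  · exact h1 hd
  · exact h2 hd
  · exact absurd hp (by norm_num)

/-- `Ω` as a real sum of valuations. -/
lemma Omega_eq (n : ℕ) : ((Ω n : ℕ) : ℝ) = ∑ p ∈ n.primeFactors, (n.factorization p : ℝ) := by
  rw [ArithmeticFunction.cardFactors_eq_sum_factorization]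
  rw [Finsupp.sum, Nat.support_factorization]
  push_cast
  rfl

lemma log_eq_sum {n : ℕ} (hn : n ≠ 0) :
    Real.log n = ∑ p ∈ n.primeFactors, (n.factorization p : ℝ) * Real.log p := by
  conv_lhs => rw [← Nat.prod_factorization_pow_eq_self hn]
  rw [Finsupp.prod, Nat.support_factorization]
  push_cast
  rw [Real.log_prod]
  · exact Finset.sum_congr rfl (fun p _ => Real.log_pow _ _)
  · intro p hp
    have := (Nat.prime_of_mem_primeFactors hp).pos
    positivity

/-- If `F t` has more than `k` prime factors then the weighted sum is large. -/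
lemma weight_lower {η B l : ℝ} (hη : 0 < η) {k t : ℕ} (hl : Real.log (F t) ≤ l)
    (hB : B ≤ (k : ℝ) + 1 - l / η) (hbad : k < Ω (F t)) :
    B ≤ ∑ p ∈ Pr η, wt η p * ((F t).factorization p : ℝ) := by
  have h1 : ((k : ℝ) + 1) ≤ ((Ω (F t) : ℕ) : ℝ) := by exact_mod_cast hbad
  have h2 : ((Ω (F t) : ℕ) : ℝ) - Real.log (F t) / η
      = ∑ p ∈ (F t).primeFactors, wt η p * ((F t).factorization p : ℝ) := by
    rw [Omega_eq, log_eq_sum (F_ne_zero t), Finset.sum_div, ← Finset.sum_sub_distrib]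
    refine Finset.sum_congr rfl (fun p _ => ?_)
    unfold wt; ring
  have h3 : ∑ p ∈ (F t).primeFactors, wt η p * ((F t).factorization p : ℝ)
      ≤ ∑ p ∈ (F t).primeFactors.filter (fun p : ℕ => Real.log (p : ℝ) < η),
          wt η p * ((F t).factorization p : ℝ) := by
    rw [Finset.sum_filter]
    refine Finset.sum_le_sum (fun p _ => ?_)
    split_ifs with hc
    · exact le_refl _
    · push Not at hc
      have : wt η p ≤ 0 := by
        unfold wt
        rw [sub_nonpos, le_div_iff₀ hη]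
        linarith
      exact mul_nonpos_of_nonpos_of_nonneg this (Nat.cast_nonneg _)
  have h4 : ∑ p ∈ (F t).primeFactors.filter (fun p : ℕ => Real.log (p : ℝ) < η),
          wt η p * ((F t).factorization p : ℝ)
      ≤ ∑ p ∈ Pr η, wt η p * ((F t).factorization p : ℝ) := by
    refine Finset.sum_le_sum_of_subset_of_nonneg ?_ ?_
    · intro p hp
      rw [Finset.mem_filter] at hp
      have hpp := Nat.prime_of_mem_primeFactors hp.1
      have hd := Nat.dvd_of_mem_primeFactors hp.1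
      exact mem_Pr.mpr ⟨hpp, five_le_of_dvd_F hpp hd, hp.2⟩
    · intro p hp _
      exact mul_nonneg (wt_nonneg hη hp) (Nat.cast_nonneg _)
  have h5 : Real.log (F t) / η ≤ l / η := by
    rw [div_le_div_iff_of_pos_right hη]; exact hl
  linarith

/-- valuation as a sum of indicator functions. -/
lemma factorization_eq_sum {p K t : ℕ} (hp : p.Prime) (hK : (F t).factorization p ≤ K) :
    ((F t).factorization p : ℝ) = ∑ k ∈ Icc 1 K, indF (p ^ k) t := by
  have h1 : ∀ k, indF (p ^ k) t = if k ≤ (F t).factorization p then 1 else 0 := by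
    intro k
    unfold indF
    have := Nat.Prime.pow_dvd_iff_le_factorization (k := k) hp (F_ne_zero t)
    simp only [this]
  simp_rw [h1]
  rw [← Finset.sum_filter]
  have h2 : (Icc 1 K).filter (fun k => k ≤ (F t).factorization p)
      = Icc 1 ((F t).factorization p) := by
    ext k
    simp only [Finset.mem_filter, Finset.mem_Icc]
    omega
  rw [h2]
  simp

lemma sum_inv_pow_le {p K : ℕ} (h5 : 5 ≤ p) :
    ∑ k ∈ Icc 1 K, (2 : ℝ) / (p ^ k : ℕ) ≤ 2 / ((p : ℝ) - 1) := by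
  have hp : (5 : ℝ) ≤ p := by exact_mod_cast h5
  have key : ∀ K : ℕ, ∑ k ∈ Icc 1 K, (2 : ℝ) / (p ^ k : ℕ)
      = 2 / ((p : ℝ) - 1) * (1 - 1 / (p : ℝ) ^ K) := by
    intro K
    induction K with
    | zero => simp
    | succ K ih =>
      rw [Finset.sum_Icc_succ_top (by omega), ih]
      have h1 : (p : ℝ) - 1 ≠ 0 := by linarith
      have h2 : (p : ℝ) ≠ 0 := by linarith
      push_cast
      field_simp
      ring
  rw [key]
  have h1 : 0 ≤ 2 / ((p : ℝ) - 1) := by
    apply div_nonneg <;> linarith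
  have h2 : (0 : ℝ) ≤ 1 / (p : ℝ) ^ K := by positivity
  nlinarith

/-- The abstract weighted lower bound. -/
lemma weighted_sum {η B N G E1 E2 : ℝ} (hη : 0 < η) (hB : 0 ≤ B) (I : Finset ℕ) (U : ℕ → ℝ)
    (Gp : ℕ → ℝ) (K : ℕ → ℕ) (hN : 0 ≤ N) (hGp : ∀ p ∈ Pr η, 0 ≤ Gp p)
    (hK : ∀ p ∈ Pr η, ∀ t ∈ I, (F t).factorization p ≤ K p)
    (H1 : N * G - E1 ≤ ∑ t ∈ I, U t)
    (H2 : ∀ p ∈ Pr η, ∀ k, 1 ≤ k → ∑ t ∈ I, indF (p ^ k) t * U t
      ≤ (2 / (p ^ k : ℕ)) * N * Gp p + E2) :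
    N * (B * G - ∑ p ∈ Pr η, wt η p * (2 / ((p : ℝ) - 1)) * Gp p)
      - (B * E1 + E2 * ∑ p ∈ Pr η, wt η p * K p)
    ≤ ∑ t ∈ I, (B - ∑ p ∈ Pr η, wt η p * ((F t).factorization p : ℝ)) * U t := by
  have e1 : ∑ t ∈ I, (B - ∑ p ∈ Pr η, wt η p * ((F t).factorization p : ℝ)) * U t
      = B * ∑ t ∈ I, U t - ∑ p ∈ Pr η, wt η p * ∑ t ∈ I, ((F t).factorization p : ℝ) * U t := by
    simp_rw [sub_mul, Finset.sum_sub_distrib]
    rw [← Finset.mul_sum]
    congr 1
    simp_rw [Finset.sum_mul, Finset.mul_sum]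
    rw [Finset.sum_comm]
    refine Finset.sum_congr rfl (fun p _ => Finset.sum_congr rfl (fun t _ => ?_))
    ring
  have e2 : ∀ p ∈ Pr η, ∑ t ∈ I, ((F t).factorization p : ℝ) * U t
      ≤ (2 / ((p : ℝ) - 1)) * N * Gp p + K p * E2 := by
    intro p hp
    obtain ⟨hpp, h5, _⟩ := mem_Pr.mp hp
    have h1 : ∑ t ∈ I, ((F t).factorization p : ℝ) * U t
        = ∑ k ∈ Icc 1 (K p), ∑ t ∈ I, indF (p ^ k) t * U t := by
      rw [Finset.sum_comm]
      refine Finset.sum_congr rfl (fun t ht => ?_)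
      rw [factorization_eq_sum hpp (hK p hp t ht), Finset.sum_mul]
    rw [h1]
    calc ∑ k ∈ Icc 1 (K p), ∑ t ∈ I, indF (p ^ k) t * U t
        ≤ ∑ k ∈ Icc 1 (K p), ((2 / (p ^ k : ℕ)) * N * Gp p + E2) :=
          Finset.sum_le_sum (fun k hk => H2 p hp k (Finset.mem_Icc.mp hk).1)
      _ = (∑ k ∈ Icc 1 (K p), (2 : ℝ) / (p ^ k : ℕ)) * (N * Gp p) + K p * E2 := by
          rw [Finset.sum_add_distrib, Finset.sum_mul]
          congr 1
          · exact Finset.sum_congr rfl (fun k _ => by ring)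
          · simp
      _ ≤ (2 / ((p : ℝ) - 1)) * (N * Gp p) + K p * E2 := by
          have := sum_inv_pow_le (K := K p) h5
          have h3 : 0 ≤ N * Gp p := mul_nonneg hN (hGp p hp)
          have := mul_le_mul_of_nonneg_right this h3
          linarith
      _ = _ := by ring
  rw [e1]
  have e3 : ∑ p ∈ Pr η, wt η p * ∑ t ∈ I, ((F t).factorization p : ℝ) * U t
      ≤ ∑ p ∈ Pr η, wt η p * ((2 / ((p : ℝ) - 1)) * N * Gp p + K p * E2) :=
    Finset.sum_le_sum (fun p hp => mul_le_mul_of_nonneg_left (e2 p hp) (wt_nonneg hη hp))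
  have e4 : ∑ p ∈ Pr η, wt η p * ((2 / ((p : ℝ) - 1)) * N * Gp p + K p * E2)
      = N * ∑ p ∈ Pr η, wt η p * (2 / ((p : ℝ) - 1)) * Gp p
        + E2 * ∑ p ∈ Pr η, wt η p * K p := by
    rw [Finset.mul_sum, Finset.mul_sum, ← Finset.sum_add_distrib]
    exact Finset.sum_congr rfl (fun p _ => by ring)
  have e5 : B * (N * G - E1) ≤ B * ∑ t ∈ I, U t := mul_le_mul_of_nonneg_left H1 hB
  linarith

end Pool.Agent.Lib.MP_d610d0_nt
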