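import Mathlib
import Pool.Agent.Lib.MP_d610d0_nt.Weight

/-!
An explicit Chebyshev upper bound `θ(m) ≤ 1.12 m`.
-/

set_option autoImplicit false

namespace Pool.Agent.Lib.MP_d610d0_nt

open Finset
open scoped Nat

/-- primes up to `m`. -/
def Pm (m : ℕ) : Finset ℕ := (Finset.range (m + 1)).filter Nat.Prime

noncomputable def th (m : ℕ) : ℝ := ∑ p ∈ Pm m, Real.log p

lemma mem_Pm {m p : ℕ} : p ∈ Pm m ↔ p ≤ m ∧ p.Prime := by
  unfold Pm
  rw [Finset.mem_filter, Finset.mem_range]
  constructor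
  · rintro ⟨h1, h2⟩; exact ⟨by omega, h2⟩
  · rintro ⟨h1, h2⟩; exact ⟨by omega, h2⟩

lemma Pm_subset {m n : ℕ} (h : m ≤ n) : Pm m ⊆ Pm n := by
  intro p hp
  rw [mem_Pm] at hp ⊢
  exact ⟨hp.1.trans h, hp.2⟩

lemma log_factorial_eq {n m : ℕ} (h : n ≤ m) :
    Real.log (n ! : ℕ) = ∑ p ∈ Pm m, ((∑ i ∈ Ico 1 (m + 1), n / p ^ i : ℕ) : ℝ) * Real.log p := by
  rw [log_eq_sum (Nat.factorial_ne_zero n)]
  have hsub : (n !).primeFactors ⊆ Pm m := by
    intro p hp
    have hpp := Nat.prime_of_mem_primeFactors hp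
    have hd := Nat.dvd_of_mem_primeFactors hp
    rw [mem_Pm]
    exact ⟨((Nat.Prime.dvd_factorial hpp).mp hd).trans h, hpp⟩
  rw [Finset.sum_subset hsub]
  · refine Finset.sum_congr rfl (fun p hp => ?_)
    obtain ⟨h1, h2⟩ := mem_Pm.mp hp
    rw [Nat.factorization_factorial h2 (b := m + 1)
      (lt_of_le_of_lt (Nat.log_le_self p n) (by omega))]
  · intro p hp hnp
    rw [Nat.factorization_eq_zero_of_not_dvd]
    · simp
    · intro hd
      exact hnp (Nat.mem_primeFactors.mpr ⟨(mem_Pm.mp hp).2, hd, Nat.factorial_ne_zero n⟩)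

lemma cheb_comb (j : ℕ) : j / 2 + j / 3 + j / 5 ≤ j + j / 30 := by omega

lemma cheb_comb_one {j : ℕ} (h1 : 1 ≤ j) (h5 : j ≤ 5) : j / 2 + j / 3 + j / 5 + 1 ≤ j + j / 30 := by
  omega

lemma div_div_pow (m a p i : ℕ) : m / a / p ^ i = m / p ^ i / a := by
  rw [Nat.div_div_eq_div_mul, Nat.div_div_eq_div_mul, mul_comm]

lemma cheb_main (m : ℕ) :
    th m - th (m / 6) ≤ Real.log (m ! : ℕ) + Real.log ((m / 30)! : ℕ)
      - Real.log ((m / 2)! : ℕ) - Real.log ((m / 3)! : ℕ) - Real.log ((m / 5)! : ℕ) := by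
  rw [log_factorial_eq (le_refl m), log_factorial_eq (Nat.div_le_self m 30),
    log_factorial_eq (Nat.div_le_self m 2), log_factorial_eq (Nat.div_le_self m 3),
    log_factorial_eq (Nat.div_le_self m 5)]
  rw [← Finset.sum_add_distrib, ← Finset.sum_sub_distrib, ← Finset.sum_sub_distrib,
    ← Finset.sum_sub_distrib]
  have h1 : th m - th (m / 6) = ∑ p ∈ Pm m, (if m / 6 < p then Real.log p else 0) := by
    unfold th
    rw [← Finset.sum_filter]
    have h2 : Pm m = (Pm m).filter (fun p => m / 6 < p) ∪ Pm (m / 6) := by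
      ext p
      rw [Finset.mem_union, Finset.mem_filter, mem_Pm, mem_Pm]
      constructor
      · intro hp
        rcases Nat.lt_or_ge (m / 6) p with h | h
        · exact Or.inl ⟨hp, h⟩
        · exact Or.inr ⟨h, hp.2⟩
      · rintro (h | h)
        · exact h.1
        · exact ⟨h.1.trans (Nat.div_le_self m 6), h.2⟩
    have h3 : Disjoint ((Pm m).filter (fun p => m / 6 < p)) (Pm (m / 6)) := by
      rw [Finset.disjoint_left]
      intro p hp hp2
      rw [Finset.mem_filter] at hp
      have := (mem_Pm.mp hp2).1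
      omega
    conv_lhs => rw [h2]
    rw [Finset.sum_union h3]
    ring
  rw [h1]
  refine Finset.sum_le_sum (fun p hp => ?_)
  obtain ⟨hpm, hpp⟩ := mem_Pm.mp hp
  have hlog : 0 ≤ Real.log p := Real.log_natCast_nonneg p
  have e : ∀ a : ℕ, (∑ i ∈ Ico 1 (m + 1), m / a / p ^ i) = ∑ i ∈ Ico 1 (m + 1), m / p ^ i / a :=
    fun a => Finset.sum_congr rfl (fun i _ => div_div_pow m a p i)
  rw [e 30, e 2, e 3, e 5]
  have key : (∑ i ∈ Ico 1 (m + 1), m / p ^ i / 2) + (∑ i ∈ Ico 1 (m + 1), m / p ^ i / 3)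
      + (∑ i ∈ Ico 1 (m + 1), m / p ^ i / 5) + (if m / 6 < p then 1 else 0)
      ≤ (∑ i ∈ Ico 1 (m + 1), m / p ^ i) + (∑ i ∈ Ico 1 (m + 1), m / p ^ i / 30) := by
    have hm1 : 1 ≤ m := hpp.one_le.trans hpm
    have hsplit : ∀ f : ℕ → ℕ, ∑ i ∈ Ico 1 (m + 1), f i = f 1 + ∑ i ∈ Ico 2 (m + 1), f i := by
      intro f
      rw [Finset.sum_eq_sum_Ico_succ_bot (by omega)]
    have hrest : (∑ i ∈ Ico 2 (m + 1), m / p ^ i / 2) + (∑ i ∈ Ico 2 (m + 1), m / p ^ i / 3)
      + (∑ i ∈ Ico 2 (m + 1), m / p ^ i / 5)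
      ≤ (∑ i ∈ Ico 2 (m + 1), m / p ^ i) + (∑ i ∈ Ico 2 (m + 1), m / p ^ i / 30) := by
      rw [← Finset.sum_add_distrib, ← Finset.sum_add_distrib, ← Finset.sum_add_distrib]
      exact Finset.sum_le_sum (fun i _ => cheb_comb _)
    rw [hsplit, hsplit, hsplit, hsplit, hsplit]
    rw [pow_one]
    split_ifs with hc
    · have h1 : 1 ≤ m / p := (Nat.one_le_div_iff hpp.pos).mpr hpm
      have h5 : m / p ≤ 5 := by
        have : m / p < 6 := by
          rw [Nat.div_lt_iff_lt_mul hpp.pos]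
          omega
        omega
      have := cheb_comb_one h1 h5
      omega
    · have := cheb_comb (m / p)
      omega
  have key2 : ((∑ i ∈ Ico 1 (m + 1), m / p ^ i / 2 : ℕ) : ℝ)
      + ((∑ i ∈ Ico 1 (m + 1), m / p ^ i / 3 : ℕ) : ℝ)
      + ((∑ i ∈ Ico 1 (m + 1), m / p ^ i / 5 : ℕ) : ℝ) + (if m / 6 < p then 1 else 0)
      ≤ ((∑ i ∈ Ico 1 (m + 1), m / p ^ i : ℕ) : ℝ)
        + ((∑ i ∈ Ico 1 (m + 1), m / p ^ i / 30 : ℕ) : ℝ) := by
    exact_mod_cast key
  split_ifs at key2 ⊢ with hc
  · nlinarith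
  · nlinarith

/-- Stirling type bounds. -/
lemma log_factorial_bounds (n : ℕ) (hn : 1 ≤ n) :
    (n : ℝ) * Real.log n - n + 1 ≤ Real.log (n ! : ℕ) ∧
    Real.log (n ! : ℕ) ≤ (n : ℝ) * Real.log n - n + 1 + Real.log n := by
  induction n, hn using Nat.le_induction with
  | base => simp
  | succ n hn ih =>
    have hn0 : (0 : ℝ) < n := by exact_mod_cast hn
    have e : Real.log ((n + 1)! : ℕ) = Real.log (n + 1) + Real.log (n ! : ℕ) := by
      rw [Nat.factorial_succ]
      push_cast
      rw [Real.log_mul (by positivity) (by positivity)]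
    have h1 : Real.log (n + 1) - Real.log n ≤ 1 / n := by
      rw [← Real.log_div (by positivity) (by positivity)]
      have := Real.log_le_sub_one_of_pos (x := ((n : ℝ) + 1) / n) (by positivity)
      have h2 : ((n : ℝ) + 1) / n - 1 = 1 / n := by field_simp; ring
      linarith
    have h2 : 1 / ((n : ℝ) + 1) ≤ Real.log (n + 1) - Real.log n := by
      rw [← Real.log_div (by positivity) (by positivity)]
      have := Real.one_sub_inv_le_log_of_pos (x := ((n : ℝ) + 1) / n) (by positivity)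
      have h3 : 1 - (((n : ℝ) + 1) / n)⁻¹ = 1 / ((n : ℝ) + 1) := by field_simp; ring
      linarith
    rw [e]
    push_cast
    have h1' : n * (Real.log (n + 1) - Real.log n) ≤ 1 := by
      have := mul_le_mul_of_nonneg_left h1 hn0.le
      rwa [mul_one_div_cancel hn0.ne'] at this
    have h2' : 1 ≤ (n + 1) * (Real.log (n + 1) - Real.log n) := by
      have := mul_le_mul_of_nonneg_left h2 (by positivity : (0 : ℝ) ≤ n + 1)
      rwa [mul_one_div_cancel (by positivity)] at this
    constructor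
    · nlinarith [ih.1]
    · nlinarith [ih.2]

/-- real version for `⌊y⌋!`, where `k ≤ y < k + 1`. -/
lemma log_factorial_real {k : ℕ} {y : ℝ} (hk : 1 ≤ k) (h1 : (k : ℝ) ≤ y) (h2 : y ≤ k + 1) :
    y * Real.log y - y - Real.log y + 1 ≤ Real.log (k ! : ℕ) ∧
    Real.log (k ! : ℕ) ≤ y * Real.log y - y + 1 + Real.log y := by
  have hk0 : (1 : ℝ) ≤ k := by exact_mod_cast hk
  have hy0 : 0 < y := by linarith
  have hly : 0 ≤ Real.log y := Real.log_nonneg (by linarith)
  have hlk : 0 ≤ Real.log k := Real.log_nonneg hk0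
  have hle : Real.log k ≤ Real.log y := Real.log_le_log (by linarith) h1
  obtain ⟨b1, b2⟩ := log_factorial_bounds k hk
  -- f(y) - f(k) between 0 and log y
  have h3 : (k : ℝ) * Real.log y - k * Real.log k ≤ y - k := by
    have := Real.log_le_sub_one_of_pos (x := y / k) (by positivity)
    rw [Real.log_div (by positivity) (by positivity)] at this
    have h4 := mul_le_mul_of_nonneg_left this (by linarith : (0 : ℝ) ≤ k)
    have h5 : (k : ℝ) * (y / k - 1) = y - k := by field_simp
    linarith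
  have h4 : 0 ≤ (y - k) * Real.log y := mul_nonneg (by linarith) hly
  have h5 : (y - k) * Real.log y ≤ Real.log y := by nlinarith
  -- lower: y log y - y - log y + 1 ≤ k log k - k + 1
  constructor
  · nlinarith
  · -- k log k - k + 1 + log k ≤ y log y - y + 1 + log y
    have h6 : y - k ≤ y * Real.log y - k * Real.log k := by
      -- k (log y - log k) + (y-k) log y ≥ y - k ; use log(k/y) ≤ k/y - 1
      have := Real.log_le_sub_one_of_pos (x := k / y) (by positivity)
      rw [Real.log_div (by positivity) (by positivity)] at this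
      have h7 := mul_le_mul_of_nonneg_left this hy0.le
      have h8 : y * (k / y - 1) = k - y := by field_simp
      have h9 : 0 ≤ (y - k) * Real.log k := mul_nonneg (by linarith) hlk
      nlinarith
    linarith

lemma floor_bounds (m a : ℕ) (ha : 0 < a) :
    ((m / a : ℕ) : ℝ) ≤ (m : ℝ) / a ∧ (m : ℝ) / a ≤ ((m / a : ℕ) : ℝ) + 1 := by
  have ha' : (0 : ℝ) < a := by exact_mod_cast ha
  constructor
  · exact Nat.cast_div_le
  · rw [div_le_iff₀ ha']
    have := Nat.lt_div_mul_add (a := m) ha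
    have h2 : m ≤ (m / a + 1) * a := by
      rw [Nat.add_mul, Nat.one_mul]; exact this.le
    exact_mod_cast h2

/-- numeric constant -/
lemma cheb_const : Real.log 2 / 2 + Real.log 3 / 3 + Real.log 5 / 5 - Real.log 30 / 30
    ≤ 0.92130 := by
  have h30 : Real.log 30 = Real.log 2 + Real.log 3 + Real.log 5 := by
    rw [← Real.log_mul (by norm_num) (by norm_num), ← Real.log_mul (by norm_num) (by norm_num)]
    norm_num
  have h2 := Real.log_two_lt_d9
  have h3 := Real.log_three_lt_d9
  have h5 := Real.log_five_lt_d9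
  rw [h30]
  linarith

lemma th_step {m : ℕ} (hm : 30 ≤ m) :
    th m ≤ th (m / 6) + 0.92130 * m + 5 * Real.log m - 7.8 := by
  have h := cheb_main m
  have hm0 : (0 : ℝ) < m := by have : 0 < m := by omega
                               exact_mod_cast this
  obtain ⟨_, u1⟩ := log_factorial_bounds m (by omega)
  have e2 := floor_bounds m 2 (by norm_num)
  have e3 := floor_bounds m 3 (by norm_num)
  have e5 := floor_bounds m 5 (by norm_num)
  have e30 := floor_bounds m 30 (by norm_num)
  have k2 := (log_factorial_real (k := m / 2) (by omega) e2.1 e2.2).1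
  have k3 := (log_factorial_real (k := m / 3) (by omega) e3.1 e3.2).1
  have k5 := (log_factorial_real (k := m / 5) (by omega) e5.1 e5.2).1
  have k30 := (log_factorial_real (k := m / 30) (by omega) e30.1 e30.2).2
  have l2 : Real.log ((m : ℝ) / (2 : ℕ)) = Real.log m - Real.log 2 := by
    rw [Real.log_div hm0.ne' (by norm_num)]; norm_num
  have l3 : Real.log ((m : ℝ) / (3 : ℕ)) = Real.log m - Real.log 3 := by
    rw [Real.log_div hm0.ne' (by norm_num)]; norm_num
  have l5 : Real.log ((m : ℝ) / (5 : ℕ)) = Real.log m - Real.log 5 := by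
    rw [Real.log_div hm0.ne' (by norm_num)]; norm_num
  have l30 : Real.log ((m : ℝ) / (30 : ℕ)) = Real.log m - Real.log 30 := by
    rw [Real.log_div hm0.ne' (by norm_num)]; norm_num
  rw [l2] at k2
  rw [l3] at k3
  rw [l5] at k5
  rw [l30] at k30
  push_cast at k2 k3 k5 k30
  have h30 : Real.log 30 = Real.log 2 + Real.log 3 + Real.log 5 := by
    rw [← Real.log_mul (by norm_num) (by norm_num), ← Real.log_mul (by norm_num) (by norm_num)]
    norm_num
  have g2 := Real.log_two_gt_d9
  have g3 := Real.log_three_gt_d9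
  have g5 := Real.log_five_gt_d9
  have hc := cheb_const
  have hcm := mul_le_mul_of_nonneg_right hc hm0.le
  -- combine
  have tot : Real.log (m ! : ℕ) + Real.log ((m / 30)! : ℕ)
      - Real.log ((m / 2)! : ℕ) - Real.log ((m / 3)! : ℕ) - Real.log ((m / 5)! : ℕ)
      ≤ (Real.log 2 / 2 + Real.log 3 / 3 + Real.log 5 / 5 - Real.log 30 / 30) * m
        + 5 * Real.log m - 1 - 2 * Real.log 30 := by
    have : (m : ℝ) * Real.log m - m + 1 + Real.log m
        + ((m : ℝ) / 30 * (Real.log m - Real.log 30) - m / 30 + 1 + (Real.log m - Real.log 30))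
        - ((m : ℝ) / 2 * (Real.log m - Real.log 2) - m / 2 - (Real.log m - Real.log 2) + 1)
        - ((m : ℝ) / 3 * (Real.log m - Real.log 3) - m / 3 - (Real.log m - Real.log 3) + 1)
        - ((m : ℝ) / 5 * (Real.log m - Real.log 5) - m / 5 - (Real.log m - Real.log 5) + 1)
        = (Real.log 2 / 2 + Real.log 3 / 3 + Real.log 5 / 5 - Real.log 30 / 30) * m
        + 5 * Real.log m - 1 - Real.log 30 - (Real.log 2 + Real.log 3 + Real.log 5) := by ring
    rw [← h30] at this
    linarith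
  linarith

end Pool.Agent.Lib.MP_d610d0_nt
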