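import Mathlib
import Pool.Agent.Lib.MP_d610d0_nt.Cheb

/-!
`θ(m) ≤ 1.12 m` for all `m`.
-/

set_option autoImplicit false

namespace Pool.Agent.Lib.MP_d610d0_nt

open Finset

def P47 : ℕ := 614889782588491410

/-- A test passed by all primes. -/
def tst (n : ℕ) : Bool :=
  (Nat.beq (Nat.gcd n P47) 1) || [2,3,5,7,11,13,17,19,23,29,31,37,41,43,47].contains n

def inc (n : ℕ) : ℕ := cond (tst n) (Nat.log2 (n ^ 16) + 1) 0

def accT : ℕ → ℕ
  | 0 => 0
  | n + 1 => accT n + inc (n + 1)

def loopT : ℕ → ℕ → ℕ → Bool
  | 0, _, _ => true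
  | f + 1, n, a => cond (Nat.ble (1000 * (a + inc n)) (25850 * n)) (loopT f (n + 1) (a + inc n)) false

lemma tst_prime {n : ℕ} (hn : n.Prime) : tst n = true := by
  unfold tst
  by_cases hd : n ∣ P47
  · have h : n ∈ [2,3,5,7,11,13,17,19,23,29,31,37,41,43,47] := by
      have e : P47 = 2*3*5*7*11*13*17*19*23*29*31*37*41*43*47 := by norm_num [P47]
      rw [e] at hd
      simp only [Nat.Prime.dvd_mul hn] at hd
      have aux : ∀ q : ℕ, q.Prime → n ∣ q → n = q := fun q hq h =>
        (Nat.prime_dvd_prime_iff_eq hn hq).mp h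
      simp only [List.mem_cons, List.not_mem_nil, or_false]
      rcases hd with ((((((((((((((h | h) | h) | h) | h) | h) | h) | h) | h) | h) | h) | h) | h) | h) | h)
      · exact Or.inl (aux 2 (by norm_num) h)
      · exact Or.inr (Or.inl (aux 3 (by norm_num) h))
      · have := aux 5 (by norm_num) h; tauto
      · have := aux 7 (by norm_num) h; tauto
      · have := aux 11 (by norm_num) h; tauto
      · have := aux 13 (by norm_num) h; tauto
      · have := aux 17 (by norm_num) h; tauto
      · have := aux 19 (by norm_num) h; tauto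
      · have := aux 23 (by norm_num) h; tauto
      · have := aux 29 (by norm_num) h; tauto
      · have := aux 31 (by norm_num) h; tauto
      · have := aux 37 (by norm_num) h; tauto
      · have := aux 41 (by norm_num) h; tauto
      · have := aux 43 (by norm_num) h; tauto
      · have := aux 47 (by norm_num) h; tauto
    rw [Bool.or_eq_true]
    right
    exact List.contains_iff_mem.mpr h
  · have h : Nat.gcd n P47 = 1 := (Nat.Prime.coprime_iff_not_dvd hn).mpr hd
    rw [Bool.or_eq_true]
    left
    rw [h]
    rfl

lemma log_le_log2 {n : ℕ} (hn : 0 < n) :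
    Real.log n ≤ Real.log 2 / 16 * ((Nat.log2 (n ^ 16) + 1 : ℕ) : ℝ) := by
  have h : n ^ 16 < 2 ^ (Nat.log2 (n ^ 16) + 1) := Nat.lt_log2_self
  have h2 : ((n : ℝ)) ^ 16 ≤ 2 ^ (Nat.log2 (n ^ 16) + 1) := by exact_mod_cast h.le
  have hn' : (0 : ℝ) < n := by exact_mod_cast hn
  have h3 := Real.log_le_log (by positivity) h2
  rw [Real.log_pow, Real.log_pow] at h3
  push_cast at h3 ⊢
  linarith

lemma Pm_succ (n : ℕ) : th (n + 1) = th n + if (n + 1).Prime then Real.log ((n + 1 : ℕ) : ℝ) else 0 := by
  unfold th Pm
  rw [Finset.range_add_one (n := n + 1), Finset.filter_insert]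
  split_ifs with h
  · rw [Finset.sum_insert]
    · ring
    · simp
  · simp

lemma th_le_accT (n : ℕ) : th n ≤ Real.log 2 / 16 * accT n := by
  induction n with
  | zero =>
    have : th 0 = 0 := by
      unfold th Pm
      rw [Finset.sum_eq_zero]
      intro p hp
      rw [Finset.mem_filter] at hp
      have := hp.2.two_le
      have := Finset.mem_range.mp hp.1
      omega
    rw [this]; simp [accT]
  | succ n ih =>
    rw [Pm_succ]
    unfold accT
    push_cast
    rw [mul_add]
    apply add_le_add ih
    have hl2 : 0 ≤ Real.log 2 := Real.log_nonneg (by norm_num)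
    split_ifs with hp
    · have h1 := tst_prime hp
      have h2 := log_le_log2 (n := n + 1) (by omega)
      have h3 : inc (n + 1) = Nat.log2 ((n + 1) ^ 16) + 1 := by
        unfold inc; rw [h1]; rfl
      rw [h3]
      push_cast at h2 ⊢
      exact h2
    · positivity

lemma loopT_spec (f : ℕ) : ∀ n a : ℕ, 1 ≤ n → a = accT (n - 1) → loopT f n a = true →
    ∀ k, n ≤ k → k < n + f → 1000 * accT k ≤ 25850 * k := by
  induction f with
  | zero => intro n a _ _ _ k h1 h2; omega
  | succ f ih =>
    intro n a hn ha hl k h1 h2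
    have hacc : a + inc n = accT n := by
      obtain ⟨m, rfl⟩ : ∃ m, n = m + 1 := ⟨n - 1, by omega⟩
      rw [ha]; rfl
    have hle : Nat.ble (1000 * (a + inc n)) (25850 * n) = true := by
      by_contra hcon
      rw [Bool.not_eq_true] at hcon
      have : loopT (f + 1) n a = false := by
        show cond (Nat.ble (1000 * (a + inc n)) (25850 * n)) _ false = false
        rw [hcon]; rfl
      rw [this] at hl
      exact Bool.noConfusion hl
    have hnext : loopT f (n + 1) (a + inc n) = true := by
      have e : loopT (f + 1) n a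
        = cond (Nat.ble (1000 * (a + inc n)) (25850 * n)) (loopT f (n + 1) (a + inc n)) false := rfl
      rw [e, hle] at hl
      exact hl
    rcases Nat.eq_or_lt_of_le h1 with h3 | h3
    · subst h3
      rw [← hacc]
      exact Nat.le_of_ble_eq_true hle
    · exact ih (n + 1) (a + inc n) (by omega) (by simpa using hacc) hnext k (by omega) (by omega)

lemma loopT_check : loopT 2800 1 0 = true := by decide +kernel

lemma th_le_small {m : ℕ} (hm : m ≤ 2800) : th m ≤ 1.12 * m := by
  rcases Nat.eq_zero_or_pos m with h0 | h0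
  · subst h0
    have := th_le_accT 0
    simp [accT] at this ⊢
    exact this
  · have h1 := loopT_spec 2800 1 0 (le_refl 1) rfl loopT_check m h0 (by omega)
    have h2 : (1000 : ℝ) * accT m ≤ 25850 * m := by exact_mod_cast h1
    have h3 := th_le_accT m
    have h4 := Real.log_two_lt_d9
    have h5 : 0 ≤ Real.log 2 := Real.log_nonneg (by norm_num)
    have h6 : (accT m : ℝ) ≤ 25.85 * m := by linarith
    have h7 : (0 : ℝ) ≤ m := Nat.cast_nonneg m
    calc th m ≤ Real.log 2 / 16 * accT m := h3
      _ ≤ Real.log 2 / 16 * (25.85 * m) := mul_le_mul_of_nonneg_left h6 (by positivity)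
      _ ≤ 0.6931471808 / 16 * (25.85 * m) := by
          apply mul_le_mul_of_nonneg_right _ (by positivity)
          linarith
      _ ≤ 1.12 * m := by
          have : (0.6931471808 / 16 * 25.85 : ℝ) ≤ 1.12 := by norm_num
          nlinarith

/-- `5 log m - 7.8 ≤ 0.012 m` for `m ≥ 2750`. -/
lemma aux_log {m : ℝ} (hm : 2750 ≤ m) : 5 * Real.log m - 7.8 ≤ 0.012 * m := by
  have h1 : Real.log m ≤ Real.log 2750 + (m / 2750 - 1) := by
    have := Real.log_le_sub_one_of_pos (x := m / 2750) (by positivity)
    rw [Real.log_div (by positivity) (by norm_num)] at this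
    linarith
  have h2 : Real.log 2750 ≤ 7.925 := by
    have h3 : Real.log 2750 ≤ Real.log (2 ^ 9 * 3 ^ 3 / 5) :=
      Real.log_le_log (by norm_num) (by norm_num)
    rw [Real.log_div (by norm_num) (by norm_num), Real.log_mul (by norm_num) (by norm_num),
      Real.log_pow, Real.log_pow] at h3
    have := Real.log_two_lt_d9
    have := Real.log_three_lt_d9
    have := Real.log_five_gt_d9
    push_cast at h3
    linarith
  linarith

theorem th_le (m : ℕ) : th m ≤ 1.12 * m := by
  induction m using Nat.strong_induction_on with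
  | _ m ih =>
    rcases Nat.lt_or_ge m 2751 with h | h
    · exact th_le_small (by omega)
    · have h1 := th_step (m := m) (by omega)
      have h2 := ih (m / 6) (Nat.div_lt_self (by omega) (by norm_num))
      have h3 := (floor_bounds m 6 (by norm_num)).1
      have hm : (2750 : ℝ) ≤ m := by
        have : 2750 ≤ m := by omega
        exact_mod_cast this
      have h4 := aux_log hm
      push_cast at h3
      linarith

end Pool.Agent.Lib.MP_d610d0_nt
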