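import Mathlib
import Pool.Agent.Lib.MP_d610d0_nt.Theta

/-!
Explicit Mertens type bounds.
-/

set_option autoImplicit false

namespace Pool.Agent.Lib.MP_d610d0_nt

open Finset
open scoped Nat

/-- primes `a < p ≤ m`. -/
def Pab (a m : ℕ) : Finset ℕ := (Pm m).filter (fun p => a < p)

lemma mem_Pab {a m p : ℕ} : p ∈ Pab a m ↔ a < p ∧ p ≤ m ∧ p.Prime := by
  unfold Pab
  rw [Finset.mem_filter, mem_Pm]
  tauto

lemma sum_Pab_succ (a m : ℕ) (f : ℕ → ℝ) :
    ∑ p ∈ Pab a (m + 1), f p = ∑ p ∈ Pab a m, f p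
      + if ((m + 1).Prime ∧ a < m + 1) then f (m + 1) else 0 := by
  have h : Pab a (m + 1) = if ((m + 1).Prime ∧ a < m + 1) then insert (m + 1) (Pab a m)
      else Pab a m := by
    ext p
    split_ifs with hc
    · rw [Finset.mem_insert, mem_Pab, mem_Pab]
      constructor
      · rintro ⟨h1, h2, h3⟩
        rcases Nat.eq_or_lt_of_le h2 with h4 | h4
        · left; exact h4
        · right; exact ⟨h1, by omega, h3⟩
      · rintro (h4 | ⟨h1, h2, h3⟩)
        · subst h4; exact ⟨hc.2, le_refl _, hc.1⟩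
        · exact ⟨h1, by omega, h3⟩
    · rw [mem_Pab, mem_Pab]
      constructor
      · rintro ⟨h1, h2, h3⟩
        rcases Nat.eq_or_lt_of_le h2 with h4 | h4
        · subst h4; exact absurd ⟨h3, h1⟩ hc
        · exact ⟨h1, by omega, h3⟩
      · rintro ⟨h1, h2, h3⟩
        exact ⟨h1, by omega, h3⟩
  rw [h]
  split_ifs with hc
  · rw [Finset.sum_insert]
    · ring
    · intro hm
      have := (mem_Pab.mp hm).2.1
      omega
  · ring

lemma sum_Pab_self (a : ℕ) (f : ℕ → ℝ) : ∑ p ∈ Pab a a, f p = 0 := by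
  apply Finset.sum_eq_zero
  intro p hp
  have := mem_Pab.mp hp
  omega

/-- Discrete partial summation with `θ(m) ≤ 1.12 m`. -/
lemma abel_bound (a : ℕ) (f g : ℕ → ℝ) (hf0 : ∀ k, a < k → 0 ≤ f k)
    (hf : ∀ k, a < k → f (k + 1) ≤ f k) (hg : ∀ k, a < k → f (k + 1) ≤ g k - g (k + 1))
    (m : ℕ) (hm : a + 1 ≤ m) :
    ∑ p ∈ Pab a m, Real.log p * f p ≤ 1.12 * ((a + 1) * f (a + 1) + g (a + 1) - g m) := by
  have key : ∀ m, a + 1 ≤ m → ∑ p ∈ Pab a m, Real.log p * f p + (1.12 * m - th m) * f m
      ≤ 1.12 * ((a + 1) * f (a + 1) + g (a + 1) - g m) := by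
    intro m hm
    induction m, hm using Nat.le_induction with
    | base =>
      rw [sum_Pab_succ, sum_Pab_self]
      have h1 := Pm_succ a
      have h0 : 0 ≤ th a := Finset.sum_nonneg (fun p _ => Real.log_natCast_nonneg p)
      have hf1 := hf0 (a + 1) (by omega)
      push_cast
      split_ifs with hc
      · rw [h1, if_pos hc.1]
        push_cast
        nlinarith
      · have h2 : th a ≤ th (a + 1) := by
          rw [h1]
          split_ifs
          · have := Real.log_natCast_nonneg (a + 1)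
            linarith
          · linarith
        nlinarith
    | succ m hm ih =>
      rw [sum_Pab_succ]
      have h1 := Pm_succ m
      have h2 := th_le m
      have h3 := hf m (by omega)
      have h4 := hg m (by omega)
      have h5 := hf0 (m + 1) (by omega)
      have hne : (if (m + 1).Prime ∧ a < m + 1 then Real.log ((m + 1 : ℕ) : ℝ) * f (m + 1) else 0)
          = (if (m + 1).Prime then Real.log ((m + 1 : ℕ) : ℝ) else 0) * f (m + 1) := by
        by_cases hp : (m + 1).Prime
        · rw [if_pos ⟨hp, by omega⟩, if_pos hp]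
        · rw [if_neg (fun h => hp h.1), if_neg hp, zero_mul]
      rw [hne, h1]
      push_cast
      have h6 : (1.12 * m - th m) * f (m + 1) ≤ (1.12 * m - th m) * f m :=
        mul_le_mul_of_nonneg_left h3 (by linarith)
      nlinarith
  have h1 := key m hm
  have h2 : 0 ≤ (1.12 * m - th m) * f m :=
    mul_nonneg (by have := th_le m; linarith) (hf0 m (by omega))
  linarith

/-- `∑ log p / (p - 1)` over all primes up to `m`. -/
noncomputable def Asum (m : ℕ) : ℝ := ∑ p ∈ Pm m, Real.log p / ((p : ℝ) - 1)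

/-- `∑ 2 log p / (p - 1)` over primes `5 ≤ p ≤ m`. -/
noncomputable def aS (m : ℕ) : ℝ := ∑ p ∈ Pab 4 m, 2 * Real.log p / ((p : ℝ) - 1)

/-- `∑ 2 log p / (p - 2)` over primes `5 ≤ p ≤ m`. -/
noncomputable def hS (m : ℕ) : ℝ := ∑ p ∈ Pab 4 m, 2 * Real.log p / ((p : ℝ) - 2)

lemma log_factorial_Pm (m : ℕ) :
    Real.log (m ! : ℕ) = ∑ p ∈ Pm m, ((m !).factorization p : ℝ) * Real.log p := by
  rw [log_factorial_eq (le_refl m)]
  refine Finset.sum_congr rfl (fun p hp => ?_)
  rw [Nat.factorization_factorial (mem_Pm.mp hp).2 (b := m + 1)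
      (lt_of_le_of_lt (Nat.log_le_self p m) (by omega))]

/-- Lower bound. -/
lemma Asum_lower (m : ℕ) : Real.log (m + 1) - 1 ≤ Asum m := by
  have hA0 : 0 ≤ Asum m := by
    refine Finset.sum_nonneg (fun p hp => ?_)
    have h2 : (2 : ℝ) ≤ p := by exact_mod_cast (mem_Pm.mp hp).2.two_le
    exact div_nonneg (Real.log_natCast_nonneg p) (by linarith)
  rcases Nat.lt_or_ge m 2 with h | h
  · have : Real.log (m + 1) ≤ 1 := by
      have h1 : ((m : ℝ) + 1) ≤ 2 := by
        have : m + 1 ≤ 2 := by omega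
        exact_mod_cast this
      have h2 := Real.log_le_log (by positivity) h1
      have := Real.log_two_lt_d9
      linarith
    linarith
  · have hm1 : (1 : ℝ) < m := by exact_mod_cast h
    have h1 : Real.log (m ! : ℕ) ≤ ((m : ℝ) - 1) * Asum m := by
      rw [log_factorial_Pm]
      unfold Asum
      rw [Finset.mul_sum]
      refine Finset.sum_le_sum (fun p hp => ?_)
      obtain ⟨hpm, hpp⟩ := mem_Pm.mp hp
      have hlog : 0 ≤ Real.log p := Real.log_natCast_nonneg p
      have h2 : (2 : ℝ) ≤ p := by exact_mod_cast hpp.two_le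
      have h3 := Nat.sub_one_mul_factorization_factorial (n := m) hpp
      have h4 : 1 ≤ (p.digits m).sum := by
        by_contra hcon
        have h5 : (p.digits m).sum = 0 := by omega
        have h6 : ∀ d ∈ p.digits m, d = 0 := List.sum_eq_zero_iff.mp h5
        have hm0 : m ≠ 0 := by omega
        have h7 := Nat.getLast_digit_ne_zero p hm0
        exact h7 (h6 _ (List.getLast_mem _))
      have h5 : (p - 1) * (m !).factorization p ≤ m - 1 := by rw [h3]; omega
      have h6 : ((p : ℝ) - 1) * ((m !).factorization p : ℝ) ≤ (m : ℝ) - 1 := by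
        have : (((p - 1) * (m !).factorization p : ℕ) : ℝ) ≤ ((m - 1 : ℕ) : ℝ) := by
          exact_mod_cast h5
        rw [Nat.cast_mul, Nat.cast_sub hpp.one_le, Nat.cast_sub (by omega)] at this
        simpa using this
      have h7 : ((m !).factorization p : ℝ) ≤ ((m : ℝ) - 1) / ((p : ℝ) - 1) := by
        rw [le_div_iff₀ (by linarith)]
        linarith
      calc ((m !).factorization p : ℝ) * Real.log p
          ≤ ((m : ℝ) - 1) / ((p : ℝ) - 1) * Real.log p := mul_le_mul_of_nonneg_right h7 hlog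
        _ = _ := by ring
    have h2 := (log_factorial_bounds m (by omega)).1
    -- m log m - m + 1 ≤ (m-1) A ; want log (m+1) - 1 ≤ A
    have h3 : Real.log (m + 1) - Real.log m ≤ 1 / m := by
      rw [← Real.log_div (by positivity) (by positivity)]
      have := Real.log_le_sub_one_of_pos (x := ((m : ℝ) + 1) / m) (by positivity)
      have h2 : ((m : ℝ) + 1) / m - 1 = 1 / m := by field_simp; ring
      linarith
    have h4 : 1 - 1 / (m : ℝ) ≤ Real.log m := by
      have := Real.one_sub_inv_le_log_of_pos (x := (m : ℝ)) (by positivity)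
      rw [one_div]; exact this
    have h5 : ((m : ℝ) - 1) * (Real.log (m + 1) - 1) ≤ (m : ℝ) * Real.log m - m + 1 := by
      have h6 : ((m : ℝ) - 1) * (Real.log (m + 1) - Real.log m) ≤ ((m : ℝ) - 1) * (1 / m) :=
        mul_le_mul_of_nonneg_left h3 (by linarith)
      have h7 : ((m : ℝ) - 1) * (1 / m) = 1 - 1 / m := by field_simp
      nlinarith
    have h6 : ((m : ℝ) - 1) * (Real.log (m + 1) - 1) ≤ ((m : ℝ) - 1) * Asum m := by linarith
    exact le_of_mul_le_mul_left h6 (by linarith)

lemma Asum_le_aS (m : ℕ) : Asum m ≤ Real.log 2 + Real.log 3 / 2 + aS m / 2 := by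
  unfold Asum aS
  have hsub : Pm m ⊆ ({2, 3} : Finset ℕ) ∪ Pab 4 m := by
    intro p hp
    obtain ⟨h1, h2⟩ := mem_Pm.mp hp
    rw [Finset.mem_union, mem_Pab]
    by_cases h : 4 < p
    · right; exact ⟨h, h1, h2⟩
    · left
      have := h2.two_le
      interval_cases p
      · simp
      · simp
      · exact absurd h2 (by norm_num)
  have hdisj : Disjoint ({2, 3} : Finset ℕ) (Pab 4 m) := by
    rw [Finset.disjoint_left]
    intro p hp hp2
    have := (mem_Pab.mp hp2).1
    simp only [Finset.mem_insert, Finset.mem_singleton] at hp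
    omega
  have hnn : ∀ p ∈ ({2, 3} : Finset ℕ) ∪ Pab 4 m, p ∉ Pm m → 0 ≤ Real.log p / ((p : ℝ) - 1) := by
    intro p hp _
    have h2 : (2 : ℝ) ≤ p := by
      rw [Finset.mem_union] at hp
      rcases hp with hp | hp
      · simp only [Finset.mem_insert, Finset.mem_singleton] at hp
        rcases hp with rfl | rfl <;> norm_num
      · have := (mem_Pab.mp hp).1
        have h3 : 2 ≤ p := by omega
        exact_mod_cast h3
    exact div_nonneg (Real.log_natCast_nonneg p) (by linarith)
  refine (Finset.sum_le_sum_of_subset_of_nonneg hsub hnn).trans ?_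
  rw [Finset.sum_union hdisj]
  have e1 : ∑ p ∈ ({2, 3} : Finset ℕ), Real.log p / ((p : ℝ) - 1) = Real.log 2 + Real.log 3 / 2 := by
    rw [Finset.sum_pair (by norm_num)]
    norm_num
  have e2 : ∑ p ∈ Pab 4 m, Real.log p / ((p : ℝ) - 1)
      = (∑ p ∈ Pab 4 m, 2 * Real.log p / ((p : ℝ) - 1)) / 2 := by
    rw [Finset.sum_div]
    exact Finset.sum_congr rfl (fun p _ => by ring)
  rw [e1, e2]

theorem aS_lower (m : ℕ) : 2 * Real.log (m + 1) - (2 + 2 * Real.log 2 + Real.log 3) ≤ aS m := by
  have h1 := Asum_lower m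
  have h2 := Asum_le_aS m
  linarith

end Pool.Agent.Lib.MP_d610d0_nt
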