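import Mathlib
import Pool.Agent.Lib.MP_d610d0_nt.Mert

/-!
Explicit Mertens type upper bounds.
-/

set_option autoImplicit false

namespace Pool.Agent.Lib.MP_d610d0_nt

open Finset
open scoped Nat

def incA (n : ℕ) : ℕ :=
  cond (tst n && Nat.ble 5 n) ((2 ^ 20 * 2 * (Nat.log2 (n ^ 16) + 1)) / (16 * (n - 1)) + 1) 0

def accA : ℕ → ℕ
  | 0 => 0
  | n + 1 => accA n + incA (n + 1)

def loopA : ℕ → ℕ → ℕ → Bool
  | 0, _, _ => true
  | f + 1, n, a => cond (Nat.ble (16 * (a + incA n) + 2 ^ 20 * 47) (2 ^ 20 * 2 * Nat.log2 (n ^ 16)))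
      (loopA f (n + 1) (a + incA n)) false

lemma aS_succ (m : ℕ) : aS (m + 1) = aS m
    + if ((m + 1).Prime ∧ 4 < m + 1) then 2 * Real.log ((m + 1 : ℕ) : ℝ) / (((m + 1 : ℕ) : ℝ) - 1) else 0 :=
  sum_Pab_succ 4 m (fun p => 2 * Real.log (p : ℝ) / ((p : ℝ) - 1))

lemma aS_small {m : ℕ} (h : m ≤ 4) : aS m = 0 := by
  unfold aS
  apply Finset.sum_eq_zero
  intro p hp
  have := mem_Pab.mp hp
  omega

lemma aS_le_accA (n : ℕ) : aS n ≤ Real.log 2 / 2 ^ 20 * accA n := by
  induction n with
  | zero => rw [aS_small (by norm_num)]; simp [accA]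
  | succ n ih =>
    rw [aS_succ]
    unfold accA
    push_cast
    rw [mul_add]
    apply add_le_add ih
    have hl2 : 0 ≤ Real.log 2 := Real.log_nonneg (by norm_num)
    split_ifs with hp
    · have h1 := tst_prime hp.1
      have h2 := log_le_log2 (n := n + 1) (by omega)
      have h3 : incA (n + 1) = (2 ^ 20 * 2 * (Nat.log2 ((n + 1) ^ 16) + 1)) / (16 * (n + 1 - 1)) + 1 := by
        unfold incA
        have : Nat.ble 5 (n + 1) = true := Nat.ble_eq_true_of_le (by omega)
        rw [h1, this]; rfl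
      rw [h3]
      have hn4 : 4 ≤ n := by omega
      have hn' : (4 : ℝ) ≤ n := by exact_mod_cast hn4
      set e := Nat.log2 ((n + 1) ^ 16) + 1 with he
      have h4 : ((2 ^ 20 * 2 * e : ℕ) : ℝ) / ((16 * (n + 1 - 1) : ℕ) : ℝ)
          ≤ (((2 ^ 20 * 2 * e) / (16 * (n + 1 - 1)) : ℕ) : ℝ) + 1 :=
        (floor_bounds (2 ^ 20 * 2 * e) (16 * (n + 1 - 1)) (by omega)).2
      have h5 : n + 1 - 1 = n := by omega
      rw [h5] at h4 ⊢
      push_cast at h2 h4 ⊢
      have h6 : ((n : ℝ) + 1 - 1) = n := by ring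
      rw [h6]
      have h7 : 2 * Real.log (n + 1) / n ≤ 2 * (Real.log 2 / 16 * e) / n := by
        apply div_le_div_of_nonneg_right _ (by linarith)
        linarith
      have h8 : 2 * (Real.log 2 / 16 * e) / n = Real.log 2 / 2 ^ 20 * (2 ^ 20 * 2 * e / (16 * n)) := by
        field_simp
      refine h7.trans ?_
      rw [h8]
      have h4' : (2 : ℝ) ^ 20 * 2 * (e : ℝ) / (16 * n)
          ≤ (((2 ^ 20 * 2 * e) / (16 * n) : ℕ) : ℝ) + 1 := by
        have := h4
        norm_num at this ⊢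
        exact this
      exact mul_le_mul_of_nonneg_left h4' (by positivity)
    · positivity

lemma loopA_spec (f : ℕ) : ∀ n a : ℕ, 1 ≤ n → a = accA (n - 1) → loopA f n a = true →
    ∀ k, n ≤ k → k < n + f → 16 * accA k + 2 ^ 20 * 47 ≤ 2 ^ 20 * 2 * Nat.log2 (k ^ 16) := by
  induction f with
  | zero => intro n a _ _ _ k h1 h2; omega
  | succ f ih =>
    intro n a hn ha hl k h1 h2
    have hacc : a + incA n = accA n := by
      obtain ⟨m, rfl⟩ : ∃ m, n = m + 1 := ⟨n - 1, by omega⟩
      rw [ha]; rfl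
    have e : loopA (f + 1) n a
        = cond (Nat.ble (16 * (a + incA n) + 2 ^ 20 * 47) (2 ^ 20 * 2 * Nat.log2 (n ^ 16)))
          (loopA f (n + 1) (a + incA n)) false := rfl
    have hle : Nat.ble (16 * (a + incA n) + 2 ^ 20 * 47) (2 ^ 20 * 2 * Nat.log2 (n ^ 16)) = true := by
      by_contra hcon
      rw [Bool.not_eq_true] at hcon
      rw [e, hcon] at hl
      exact Bool.noConfusion hl
    have hnext : loopA f (n + 1) (a + incA n) = true := by
      rw [e, hle] at hl
      exact hl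
    rcases Nat.eq_or_lt_of_le h1 with h3 | h3
    · subst h3
      rw [← hacc]
      exact Nat.le_of_ble_eq_true hle
    · exact ih (n + 1) (a + incA n) (by omega) (by simpa using hacc) hnext k (by omega) (by omega)

lemma loopA_check : loopA 4000 5 0 = true := by decide +kernel

lemma aS_upper_small {m : ℕ} (h5 : 5 ≤ m) (hm : m ≤ 4000) : aS m ≤ 2 * Real.log m - 2.03 := by
  have h0 : accA 4 = 0 := by decide
  have h1 := loopA_spec 4000 5 0 (by norm_num) h0.symm loopA_check m h5 (by omega)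
  have h2 : (16 : ℝ) * accA m + 2 ^ 20 * 47 ≤ 2 ^ 20 * 2 * Nat.log2 (m ^ 16) := by exact_mod_cast h1
  have h3 := aS_le_accA m
  have h4 := Real.log_two_gt_d9
  have h5 : 0 ≤ Real.log 2 := Real.log_nonneg (by norm_num)
  have hm0 : (0 : ℝ) < m := by have : 0 < m := by omega
                               exact_mod_cast this
  have h6 : Real.log 2 * Nat.log2 (m ^ 16) ≤ 16 * Real.log m := by
    have h7 : 2 ^ (Nat.log2 (m ^ 16)) ≤ m ^ 16 := Nat.log2_self_le (by positivity)
    have h8 : (2 : ℝ) ^ (Nat.log2 (m ^ 16)) ≤ (m : ℝ) ^ 16 := by exact_mod_cast h7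
    have h9 := Real.log_le_log (by positivity) h8
    rw [Real.log_pow, Real.log_pow] at h9
    push_cast at h9
    linarith
  have h7 : Real.log 2 / 2 ^ 20 * accA m
      ≤ Real.log 2 / 2 ^ 20 * ((2 ^ 20 * 2 * Nat.log2 (m ^ 16) - 2 ^ 20 * 47) / 16) := by
    apply mul_le_mul_of_nonneg_left _ (by positivity)
    linarith
  have h8 : Real.log 2 / 2 ^ 20 * ((2 ^ 20 * 2 * Nat.log2 (m ^ 16) - 2 ^ 20 * 47) / 16)
      = (2 * (Real.log 2 * Nat.log2 (m ^ 16)) - 47 * Real.log 2) / 16 := by
    ring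
  rw [h8] at h7
  linarith

lemma val_lower_small {m p : ℕ} (hm : 1 ≤ m) (hpp : p.Prime) :
    (m : ℝ) * (Real.log p / ((p : ℝ) - 1)) - Real.log m - Real.log p
      ≤ ((m !).factorization p : ℝ) * Real.log p := by
  have hlog : 0 ≤ Real.log p := Real.log_natCast_nonneg p
  have h2 : (2 : ℝ) ≤ p := by exact_mod_cast hpp.two_le
  have h3 := Nat.sub_one_mul_factorization_factorial (n := m) hpp
  have h4 : (p.digits m).sum ≤ (Nat.log p m + 1) * (p - 1) := by
    have h5 := List.sum_le_card_nsmul (p.digits m) (p - 1) (fun x hx => by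
      have := Nat.digits_lt_base hpp.one_lt hx
      omega)
    rw [Nat.length_digits p m hpp.one_lt (by omega)] at h5
    simpa using h5
  have h5 : m ≤ (p - 1) * (m !).factorization p + (Nat.log p m + 1) * (p - 1) := by
    rw [h3]; omega
  have h6 : (m : ℝ) ≤ ((p : ℝ) - 1) * ((m !).factorization p : ℝ)
      + ((Nat.log p m : ℝ) + 1) * ((p : ℝ) - 1) := by
    have : ((m : ℕ) : ℝ) ≤ (((p - 1) * (m !).factorization p + (Nat.log p m + 1) * (p - 1) : ℕ) : ℝ) := by
      exact_mod_cast h5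
    push_cast at this
    rw [Nat.cast_sub hpp.one_le] at this
    simpa using this
  have h7 : (Nat.log p m : ℝ) * Real.log p ≤ Real.log m := by
    have h8 := Nat.pow_log_le_self p (x := m) (by omega)
    have h9 : (p : ℝ) ^ (Nat.log p m) ≤ m := by exact_mod_cast h8
    have h10 := Real.log_le_log (by positivity) h9
    rwa [Real.log_pow] at h10
  have h8 : (m : ℝ) / ((p : ℝ) - 1) ≤ ((m !).factorization p : ℝ) + ((Nat.log p m : ℝ) + 1) := by
    rw [div_le_iff₀ (by linarith)]
    nlinarith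
  have h9 := mul_le_mul_of_nonneg_right h8 hlog
  have h10 : (m : ℝ) / ((p : ℝ) - 1) * Real.log p = (m : ℝ) * (Real.log p / ((p : ℝ) - 1)) := by ring
  rw [h10] at h9
  nlinarith

lemma val_lower_large {m p : ℕ} (hpp : p.Prime) (hpm : p ≤ m) :
    (m : ℝ) * (Real.log p / (p : ℝ)) - Real.log p ≤ ((m !).factorization p : ℝ) * Real.log p := by
  have hlog : 0 ≤ Real.log p := Real.log_natCast_nonneg p
  have h2 : (2 : ℝ) ≤ p := by exact_mod_cast hpp.two_le
  have h3 := Nat.factorization_factorial (p := p) hpp (n := m) (b := m + 1)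
    (lt_of_le_of_lt (Nat.log_le_self p m) (by omega))
  have hm1 : 1 ≤ m := hpp.one_le.trans hpm
  have h4 : m / p ≤ (m !).factorization p := by
    rw [h3, Finset.sum_eq_sum_Ico_succ_bot (by omega), pow_one]
    exact Nat.le_add_right _ _
  have h5 := (floor_bounds m p hpp.pos).2
  have h6 : ((m / p : ℕ) : ℝ) ≤ ((m !).factorization p : ℝ) := by exact_mod_cast h4
  have h7 : (m : ℝ) / p - 1 ≤ ((m !).factorization p : ℝ) := by linarith
  have h8 := mul_le_mul_of_nonneg_right h7 hlog
  have h9 : ((m : ℝ) / p - 1) * Real.log p = (m : ℝ) * (Real.log p / (p : ℝ)) - Real.log p := by ring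
  linarith

lemma card_Pm_le (a : ℕ) (ha : 1 ≤ a) : ((Pm a).card : ℝ) ≤ ((a : ℝ) + 1) / 2 := by
  have key : ∀ k : ℕ, (Pm (2 * k + 1)).card ≤ k + 1 ∧ (Pm (2 * k + 2)).card ≤ k + 1 := by
    intro k
    induction k with
    | zero => constructor <;> decide
    | succ k ih =>
      have step : ∀ n, (Pm (n + 1)).card ≤ (Pm n).card + 1 := by
        intro n
        unfold Pm
        rw [Finset.range_add_one (n := n + 1), Finset.filter_insert]
        split_ifs
        · exact Finset.card_insert_le _ _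
        · omega
      have h1 : (Pm (2 * (k + 1) + 1)).card ≤ (k + 1) + 1 := by
        have := step (2 * k + 2)
        have e : 2 * (k + 1) + 1 = 2 * k + 2 + 1 := by ring
        rw [e]; omega
      refine ⟨h1, ?_⟩
      have h2 : Pm (2 * (k + 1) + 2) = Pm (2 * (k + 1) + 1) := by
        ext p
        rw [mem_Pm, mem_Pm]
        constructor
        · rintro ⟨h3, h4⟩
          refine ⟨?_, h4⟩
          by_contra hc
          have : p = 2 * (k + 2) := by omega
          rw [this] at h4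
          exact Nat.not_prime_mul (by norm_num) (by omega) h4
        · rintro ⟨h3, h4⟩
          exact ⟨by omega, h4⟩
      rw [h2]; exact h1
  rcases Nat.even_or_odd' a with ⟨k, hk | hk⟩
  · obtain ⟨j, rfl⟩ : ∃ j, k = j + 1 := ⟨k - 1, by omega⟩
    have := (key j).2
    have e : a = 2 * j + 2 := by omega
    rw [e]
    have h2 : ((Pm (2 * j + 2)).card : ℝ) ≤ ((j + 1 : ℕ) : ℝ) := by exact_mod_cast this
    push_cast at h2 ⊢
    linarith
  · have := (key k).1
    rw [hk]
    have h2 : ((Pm (2 * k + 1)).card : ℝ) ≤ ((k + 1 : ℕ) : ℝ) := by exact_mod_cast this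
    push_cast at h2 ⊢
    linarith

lemma Asum_upper_aux {m : ℕ} (hm : 4000 ≤ m) :
    (m : ℝ) * Asum m ≤ Real.log (m ! : ℕ) + 1.12 * m + ((Nat.sqrt m : ℝ) + 1) / 2 * Real.log m
      + m * (1.12 * (1 / (Nat.sqrt m : ℝ) + 1 / ((Nat.sqrt m : ℝ) + 1))) := by
  set a := Nat.sqrt m with ha
  have ha63 : 63 ≤ a := by
    rw [ha, Nat.le_sqrt]; omega
  have ham : a < m := Nat.sqrt_lt_self (by omega)
  have hsplit : ∀ f : ℕ → ℝ, ∑ p ∈ Pm m, f p = ∑ p ∈ Pm a, f p + ∑ p ∈ Pab a m, f p := by
    intro f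
    have h1 : Pm m = Pm a ∪ Pab a m := by
      ext p
      rw [Finset.mem_union, mem_Pm, mem_Pm, mem_Pab]
      constructor
      · rintro ⟨h1, h2⟩
        rcases Nat.lt_or_ge a p with h | h
        · exact Or.inr ⟨h, h1, h2⟩
        · exact Or.inl ⟨h, h2⟩
      · rintro (⟨h1, h2⟩ | ⟨h1, h2, h3⟩)
        · exact ⟨by omega, h2⟩
        · exact ⟨h2, h3⟩
    have h2 : Disjoint (Pm a) (Pab a m) := by
      rw [Finset.disjoint_left]
      intro p h1 h2
      have := (mem_Pm.mp h1).1
      have := (mem_Pab.mp h2).1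
      omega
    rw [h1, Finset.sum_union h2]
  have hm1 : 1 ≤ m := by omega
  have h1 : ∑ p ∈ Pm a, ((m : ℝ) * (Real.log p / ((p : ℝ) - 1)) - Real.log m - Real.log p)
      + ∑ p ∈ Pab a m, ((m : ℝ) * (Real.log p / (p : ℝ)) - Real.log p) ≤ Real.log (m ! : ℕ) := by
    rw [log_factorial_Pm, hsplit]
    apply add_le_add
    · refine Finset.sum_le_sum (fun p hp => ?_)
      obtain ⟨h1, h2⟩ := mem_Pm.mp hp
      exact val_lower_small hm1 h2
    · refine Finset.sum_le_sum (fun p hp => ?_)
      obtain ⟨h1, h2, h3⟩ := mem_Pab.mp hp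
      exact val_lower_large h3 h2
  have h2 : ∑ p ∈ Pm a, ((m : ℝ) * (Real.log p / ((p : ℝ) - 1)) - Real.log m - Real.log p)
      = m * ∑ p ∈ Pm a, Real.log p / ((p : ℝ) - 1) - (Pm a).card * Real.log m
        - ∑ p ∈ Pm a, Real.log p := by
    rw [Finset.sum_sub_distrib, Finset.sum_sub_distrib, Finset.mul_sum]
    simp
  have h3 : ∑ p ∈ Pab a m, ((m : ℝ) * (Real.log p / (p : ℝ)) - Real.log p)
      = m * ∑ p ∈ Pab a m, Real.log p / (p : ℝ) - ∑ p ∈ Pab a m, Real.log p := by
    rw [Finset.sum_sub_distrib, Finset.mul_sum]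
  have h4 : ∑ p ∈ Pm a, Real.log p + ∑ p ∈ Pab a m, Real.log p = th m := (hsplit _).symm
  have h5 := th_le m
  have h6 := card_Pm_le a (by omega)
  have hlogm : 0 ≤ Real.log m := Real.log_natCast_nonneg m
  have h7 : ((Pm a).card : ℝ) * Real.log m ≤ ((a : ℝ) + 1) / 2 * Real.log m :=
    mul_le_mul_of_nonneg_right h6 hlogm
  -- A = sum small + sum large (1/p) + tail
  have h8 : Asum m = ∑ p ∈ Pm a, Real.log p / ((p : ℝ) - 1) + ∑ p ∈ Pab a m, Real.log p / (p : ℝ)
      + ∑ p ∈ Pab a m, Real.log p * (1 / ((p : ℝ) * ((p : ℝ) - 1))) := by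
    unfold Asum
    rw [hsplit, add_assoc]
    congr 1
    rw [← Finset.sum_add_distrib]
    refine Finset.sum_congr rfl (fun p hp => ?_)
    have h2 : (2 : ℝ) ≤ p := by exact_mod_cast (mem_Pab.mp hp).2.2.two_le
    have h3 : (p : ℝ) - 1 ≠ 0 := by linarith
    have h4 : (p : ℝ) ≠ 0 := by linarith
    field_simp
    ring
  have h9 : ∑ p ∈ Pab a m, Real.log p * (1 / ((p : ℝ) * ((p : ℝ) - 1)))
      ≤ 1.12 * (1 / (a : ℝ) + 1 / ((a : ℝ) + 1)) := by
    have h10 := abel_bound a (fun k => 1 / ((k : ℝ) * ((k : ℝ) - 1))) (fun k => 1 / (k : ℝ))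
      (fun k hk => by
        have : (2 : ℝ) ≤ k := by have : 2 ≤ k := by omega
                                 exact_mod_cast this
        have h3 : (0 : ℝ) < (k : ℝ) - 1 := by linarith
        positivity)
      (fun k hk => by
        have : (2 : ℝ) ≤ k := by have : 2 ≤ k := by omega
                                 exact_mod_cast this
        push_cast
        apply one_div_le_one_div_of_le
        · nlinarith
        · nlinarith)
      (fun k hk => by
        have : (2 : ℝ) ≤ k := by have : 2 ≤ k := by omega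
                                 exact_mod_cast this
        push_cast
        apply le_of_eq
        have h3 : (k : ℝ) ≠ 0 := by linarith
        have h4 : (k : ℝ) + 1 ≠ 0 := by linarith
        rw [add_sub_cancel_right]
        field_simp
        ring) m (by omega)
    refine h10.trans ?_
    have ha0 : (0 : ℝ) < a := by have : 0 < a := by omega
                                 exact_mod_cast this
    have hm0 : (0 : ℝ) < m := by exact_mod_cast hm1
    push_cast
    have e : ((a : ℝ) + 1) * (1 / (((a : ℝ) + 1) * ((a : ℝ) + 1 - 1))) = 1 / a := by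
      rw [add_sub_cancel_right]
      field_simp
    rw [e]
    have : 0 ≤ 1 / (m : ℝ) := by positivity
    linarith
  rw [h8]
  have hm0 : (0 : ℝ) ≤ m := Nat.cast_nonneg m
  have h10 := mul_le_mul_of_nonneg_left h9 hm0
  nlinarith

lemma Asum_upper {m : ℕ} (hm : 4000 ≤ m) : Asum m ≤ Real.log m + 0.12 + 0.108 := by
  have h := Asum_upper_aux hm
  have h2 := (log_factorial_bounds m (by omega)).2
  set a := Nat.sqrt m with ha
  have ha63 : 63 ≤ a := by
    rw [ha, Nat.le_sqrt]; omega
  have hsq1 : a * a ≤ m := Nat.sqrt_le m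
  have hsq2 : m < (a + 1) * (a + 1) := Nat.lt_succ_sqrt m
  have hm0 : (0 : ℝ) < m := by have : 0 < m := by omega
                               exact_mod_cast this
  have hx : (63 : ℝ) ≤ a := by exact_mod_cast ha63
  set x : ℝ := (a : ℝ) with hxdef
  have hx1 : x * x ≤ m := by rw [hxdef]; exact_mod_cast hsq1
  have hx2 : (m : ℝ) ≤ (x + 1) * (x + 1) := by
    rw [hxdef]
    have : (m : ℝ) < (((a + 1) * (a + 1) : ℕ) : ℝ) := by exact_mod_cast hsq2
    push_cast at this
    exact this.le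
  -- log m ≤ 2 log (x+1) ≤ 2 (log 64 + (x - 63)/64)
  have hlog1 : Real.log m ≤ 2 * Real.log (x + 1) := by
    have := Real.log_le_log hm0 hx2
    rw [Real.log_mul (by positivity) (by positivity)] at this
    linarith
  have hlog2 : Real.log (x + 1) ≤ 4.15889 + (x - 63) / 64 := by
    have h3 := Real.log_le_sub_one_of_pos (x := (x + 1) / 64) (by positivity)
    rw [Real.log_div (by positivity) (by norm_num)] at h3
    have h4 : Real.log 64 = 6 * Real.log 2 := by
      rw [show (64 : ℝ) = 2 ^ 6 by norm_num, Real.log_pow]; norm_num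
    have h5 := Real.log_two_lt_d9
    linarith
  have hlogm0 : 0 ≤ Real.log m := Real.log_natCast_nonneg m
  -- bounds
  have b1 : 1 + Real.log m ≤ 0.0024 * m := by
    have : 1 + 2 * (4.15889 + (x - 63) / 64) ≤ 0.0024 * (x * x) := by nlinarith
    linarith
  have b2 : (x + 1) / 2 * Real.log m ≤ 0.0675 * m := by
    have h3 : (x + 1) / 2 * Real.log m ≤ (x + 1) * (4.15889 + (x - 63) / 64) := by
      nlinarith
    have h4 : (x + 1) * (4.15889 + (x - 63) / 64) ≤ 0.0675 * (x * x) := by nlinarith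
    linarith
  have b3 : 1.12 * (1 / x + 1 / (x + 1)) ≤ 0.0357 := by
    have h3 : 1 / x ≤ 1 / 63 := one_div_le_one_div_of_le (by norm_num) hx
    have h4 : 1 / (x + 1) ≤ 1 / 64 := one_div_le_one_div_of_le (by norm_num) (by linarith)
    linarith
  have b4 := mul_le_mul_of_nonneg_left b3 hm0.le
  have key : (m : ℝ) * Asum m ≤ m * (Real.log m + 0.12 + 0.108) := by
    nlinarith
  exact le_of_mul_le_mul_left key hm0

end Pool.Agent.Lib.MP_d610d0_nt
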