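import Mathlib
import Pool.Agent.Lib.MP_d610d0_nt.Mert2

/-!
Final forms of the Mertens type bounds.
-/

set_option autoImplicit false

namespace Pool.Agent.Lib.MP_d610d0_nt

open Finset

lemma Asum_eq {m : ℕ} (hm : 3 ≤ m) : Asum m = Real.log 2 + Real.log 3 / 2 + aS m / 2 := by
  unfold Asum aS
  have h1 : Pm m = ({2, 3} : Finset ℕ) ∪ Pab 4 m := by
    ext p
    rw [Finset.mem_union, mem_Pab, mem_Pm]
    constructor
    · rintro ⟨h1, h2⟩
      by_cases h : 4 < p
      · right; exact ⟨h, h1, h2⟩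
      · left
        have := h2.two_le
        interval_cases p
        · simp
        · simp
        · exact absurd h2 (by norm_num)
    · rintro (h | ⟨h1, h2, h3⟩)
      · simp only [Finset.mem_insert, Finset.mem_singleton] at h
        rcases h with rfl | rfl
        · exact ⟨by omega, by norm_num⟩
        · exact ⟨by omega, by norm_num⟩
      · exact ⟨h2, h3⟩
  have hdisj : Disjoint ({2, 3} : Finset ℕ) (Pab 4 m) := by
    rw [Finset.disjoint_left]
    intro p hp hp2
    have := (mem_Pab.mp hp2).1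
    simp only [Finset.mem_insert, Finset.mem_singleton] at hp
    omega
  rw [h1, Finset.sum_union hdisj]
  have e1 : ∑ p ∈ ({2, 3} : Finset ℕ), Real.log p / ((p : ℝ) - 1) = Real.log 2 + Real.log 3 / 2 := by
    rw [Finset.sum_pair (by norm_num)]
    norm_num
  have e2 : ∑ p ∈ Pab 4 m, Real.log p / ((p : ℝ) - 1)
      = (∑ p ∈ Pab 4 m, 2 * Real.log p / ((p : ℝ) - 1)) / 2 := by
    rw [Finset.sum_div]
    exact Finset.sum_congr rfl (fun p _ => by ring)
  rw [e1, e2]

theorem aS_upper {m : ℕ} (h5 : 5 ≤ m) : aS m ≤ 2 * Real.log m - 2.02 := by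
  rcases Nat.lt_or_ge m 4000 with h | h
  · have := aS_upper_small h5 h.le
    linarith
  · have h1 := Asum_upper h
    have h2 := Asum_eq (m := m) (by omega)
    have h3 := Real.log_two_gt_d9
    have h4 := Real.log_three_gt_d9
    linarith

/-- `∑ 2 log p / ((p-1)(p-2))` is at most `0.8`. -/
lemma tail_sum (m : ℕ) :
    ∑ p ∈ Pab 4 m, 2 * Real.log p / (((p : ℝ) - 1) * ((p : ℝ) - 2)) ≤ 0.8 := by
  have hnn : ∀ p : ℕ, 4 < p → 0 ≤ 2 * Real.log p / (((p : ℝ) - 1) * ((p : ℝ) - 2)) := by
    intro p hp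
    have : (5 : ℝ) ≤ p := by exact_mod_cast hp
    have h1 : 0 < (p : ℝ) - 1 := by linarith
    have h2 : 0 < (p : ℝ) - 2 := by linarith
    have := Real.log_natCast_nonneg p
    positivity
  have hsub : Pab 4 m ⊆ ({5, 7, 11, 13} : Finset ℕ) ∪ Pab 16 (max m 17) := by
    intro p hp
    obtain ⟨h1, h2, h3⟩ := mem_Pab.mp hp
    rw [Finset.mem_union, mem_Pab]
    by_cases h : 16 < p
    · right; exact ⟨h, by omega, h3⟩
    · left
      revert h3
      interval_cases p <;> norm_num
  have hdisj : Disjoint ({5, 7, 11, 13} : Finset ℕ) (Pab 16 (max m 17)) := by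
    rw [Finset.disjoint_left]
    intro p hp hp2
    have := (mem_Pab.mp hp2).1
    simp only [Finset.mem_insert, Finset.mem_singleton] at hp
    omega
  refine (Finset.sum_le_sum_of_subset_of_nonneg hsub ?_).trans ?_
  · intro p hp _
    apply hnn
    rw [Finset.mem_union] at hp
    rcases hp with hp | hp
    · simp only [Finset.mem_insert, Finset.mem_singleton] at hp
      omega
    · have := (mem_Pab.mp hp).1
      omega
  rw [Finset.sum_union hdisj]
  have h7 : Real.log 7 ≤ 1.95 := by
    have h2 := log_le_log2 (n := 7) (by norm_num)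
    have h3 : Nat.log2 (7 ^ 16) = 44 := by decide +kernel
    rw [h3] at h2
    have := Real.log_two_lt_d9
    push_cast at h2
    linarith
  have h11 : Real.log 11 ≤ 2.427 := by
    have h2 := log_le_log2 (n := 11) (by norm_num)
    have h3 : Nat.log2 (11 ^ 16) = 55 := by decide +kernel
    rw [h3] at h2
    have := Real.log_two_lt_d9
    push_cast at h2
    linarith
  have h13 : Real.log 13 ≤ 2.6 := by
    have h2 := log_le_log2 (n := 13) (by norm_num)
    have h3 : Nat.log2 (13 ^ 16) = 59 := by decide +kernel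
    rw [h3] at h2
    have := Real.log_two_lt_d9
    push_cast at h2
    linarith
  have h5 := Real.log_five_lt_d9
  have e1 : ∑ p ∈ ({5, 7, 11, 13} : Finset ℕ), 2 * Real.log p / (((p : ℝ) - 1) * ((p : ℝ) - 2))
      = 2 * Real.log 5 / 12 + 2 * Real.log 7 / 30 + 2 * Real.log 11 / 90 + 2 * Real.log 13 / 132 := by
    rw [Finset.sum_insert (by norm_num), Finset.sum_insert (by norm_num),
      Finset.sum_insert (by norm_num), Finset.sum_singleton]
    norm_num
    ring
  have e2 : ∑ p ∈ Pab 16 (max m 17), 2 * Real.log p / (((p : ℝ) - 1) * ((p : ℝ) - 2))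
      = ∑ p ∈ Pab 16 (max m 17), Real.log p * (2 / (((p : ℝ) - 1) * ((p : ℝ) - 2))) :=
    Finset.sum_congr rfl (fun p _ => by ring)
  have h10 := abel_bound 16 (fun k => 2 / (((k : ℝ) - 1) * ((k : ℝ) - 2))) (fun k => 2 / ((k : ℝ) - 1))
      (fun k hk => by
        have : (17 : ℝ) ≤ k := by exact_mod_cast hk
        have h3 : (0 : ℝ) < (k : ℝ) - 1 := by linarith
        have h4 : (0 : ℝ) < (k : ℝ) - 2 := by linarith
        positivity)
      (fun k hk => by
        have : (17 : ℝ) ≤ k := by exact_mod_cast hk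
        have h3 : (0 : ℝ) < (k : ℝ) - 1 := by linarith
        have h4 : (0 : ℝ) < (k : ℝ) - 2 := by linarith
        push_cast
        apply div_le_div_of_nonneg_left (by norm_num) (by positivity)
        nlinarith)
      (fun k hk => by
        have : (17 : ℝ) ≤ k := by exact_mod_cast hk
        push_cast
        apply le_of_eq
        have h3 : (k : ℝ) - 1 ≠ 0 := by linarith
        have h4 : (k : ℝ) ≠ 0 := by linarith
        have e : ((k : ℝ) + 1 - 1) = k := by ring
        have e' : ((k : ℝ) + 1 - 2) = k - 1 := by ring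
        rw [e, e']
        field_simp
        ring) (max m 17) (by omega)
  have e3 : (0 : ℝ) ≤ 2 / (((max m 17 : ℕ) : ℝ) - 1) := by
    have : (17 : ℝ) ≤ ((max m 17 : ℕ) : ℝ) := by
      have : 17 ≤ max m 17 := le_max_right _ _
      exact_mod_cast this
    apply div_nonneg <;> linarith
  rw [e1, e2]
  have e4 : (1.12 : ℝ) * ((((16 : ℕ) : ℝ) + 1) * (2 / ((((16 + 1 : ℕ) : ℝ) - 1) * (((16 + 1 : ℕ) : ℝ) - 2)))
      + 2 / (((16 + 1 : ℕ) : ℝ) - 1)) ≤ 0.2987 := by norm_num
  have h12 : ∑ p ∈ Pab 16 (max m 17), Real.log p * (2 / (((p : ℝ) - 1) * ((p : ℝ) - 2))) ≤ 0.2987 := by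
    refine h10.trans ?_
    refine le_trans ?_ e4
    apply mul_le_mul_of_nonneg_left _ (by norm_num)
    linarith
  linarith

theorem hS_upper {m : ℕ} (h5 : 5 ≤ m) : hS m ≤ 2 * Real.log m - 1.22 := by
  have h1 := aS_upper h5
  have h2 := tail_sum m
  have h3 : hS m = aS m + ∑ p ∈ Pab 4 m, 2 * Real.log p / (((p : ℝ) - 1) * ((p : ℝ) - 2)) := by
    unfold hS aS
    rw [← Finset.sum_add_distrib]
    refine Finset.sum_congr rfl (fun p hp => ?_)
    have : (5 : ℝ) ≤ p := by exact_mod_cast (mem_Pab.mp hp).1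
    have h3 : (p : ℝ) - 1 ≠ 0 := by linarith
    have h4 : (p : ℝ) - 2 ≠ 0 := by linarith
    field_simp
    ring
  rw [h3]
  linarith

end Pool.Agent.Lib.MP_d610d0_nt
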