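import Mathlib
import Pool.Agent.Lib.MP_d610d0_nt.Mert3

/-!
Layer cake formula for finite sums and the resulting bounds.
-/

set_option autoImplicit false

namespace Pool.Agent.Lib.MP_d610d0_nt

open Finset MeasureTheory

/-- counting function. -/
noncomputable def aF (P : Finset ℕ) (c v : ℕ → ℝ) (u : ℝ) : ℝ :=
  ∑ p ∈ P, if v p ≤ u then c p else 0

lemma step_int {α β v : ℝ} (hαβ : α ≤ β) (ψ : ℝ → ℝ) (hψ : ContinuousOn ψ (Set.Icc α β)) :
    IntervalIntegrable (fun u => if v ≤ u then ψ u else 0) volume α β ∧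
    ∫ u in α..β, (if v ≤ u then ψ u else 0)
      = if v ≤ β then ∫ u in (max v α)..β, ψ u else 0 := by
  have e : (fun u => if v ≤ u then ψ u else 0) = Set.indicator (Set.Ici v) ψ := by
    funext u
    by_cases h : v ≤ u
    · rw [if_pos h, Set.indicator_of_mem (Set.mem_Ici.mpr h)]
    · rw [if_neg h, Set.indicator_of_notMem (fun hh => h (Set.mem_Ici.mp hh))]
  have hI : IntegrableOn ψ (Set.Icc α β) volume := hψ.integrableOn_Icc
  rw [e]
  constructor
  · rw [intervalIntegrable_iff_integrableOn_Ioc_of_le hαβ]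
    exact (hI.mono_set Set.Ioc_subset_Icc_self).indicator measurableSet_Ici
  · rw [intervalIntegral.integral_of_le hαβ, setIntegral_indicator measurableSet_Ici]
    split_ifs with h
    · rw [intervalIntegral.integral_of_le (max_le h hαβ)]
      rcases le_or_gt v α with h1 | h1
      · rw [max_eq_right h1]
        congr 1
        congr 1
        ext u
        simp only [Set.mem_inter_iff, Set.mem_Ioc, Set.mem_Ici]
        constructor
        · exact fun h => h.1
        · exact fun h => ⟨h, by linarith [h.1]⟩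
      · rw [max_eq_left h1.le, ← integral_Icc_eq_integral_Ioc]
        congr 1
        congr 1
        ext u
        simp only [Set.mem_inter_iff, Set.mem_Ioc, Set.mem_Ici, Set.mem_Icc]
        constructor
        · exact fun h => ⟨h.2, h.1.2⟩
        · exact fun h => ⟨⟨by linarith [h.1], h.2⟩, h.1⟩
    · have : Set.Ioc α β ∩ Set.Ici v = ∅ := by
        ext u
        simp only [Set.mem_inter_iff, Set.mem_Ioc, Set.mem_Ici, Set.mem_empty_iff_false,
          iff_false, not_and]
        intro h1 h2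
        exact h (h2.trans h1.2)
      rw [this]
      simp

lemma layer (P : Finset ℕ) (c v : ℕ → ℝ) {α β : ℝ} (hαβ : α ≤ β) (ψ : ℝ → ℝ)
    (hψ : ContinuousOn ψ (Set.Icc α β)) :
    IntervalIntegrable (fun u => ψ u * aF P c v u) volume α β ∧
    ∫ u in α..β, ψ u * aF P c v u
      = ∑ p ∈ P, if v p ≤ β then c p * ∫ u in (max (v p) α)..β, ψ u else 0 := by
  have e : (fun u => ψ u * aF P c v u)
      = fun u => ∑ p ∈ P, c p * (if v p ≤ u then ψ u else 0) := by
    funext u
    unfold aF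
    rw [Finset.mul_sum]
    refine Finset.sum_congr rfl (fun p _ => ?_)
    split_ifs <;> ring
  rw [e]
  have h1 : ∀ p ∈ P, IntervalIntegrable (fun u => c p * (if v p ≤ u then ψ u else 0)) volume α β :=
    fun p _ => ((step_int (v := v p) hαβ ψ hψ).1).const_mul (c p)
  constructor
  · have e2 : (fun u => ∑ p ∈ P, c p * (if v p ≤ u then ψ u else 0))
        = ∑ p ∈ P, fun u => c p * (if v p ≤ u then ψ u else 0) := by
      funext u
      rw [Finset.sum_apply]
    rw [e2]
    exact IntervalIntegrable.sum P h1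
  · rw [intervalIntegral.integral_finsetSum h1]
    refine Finset.sum_congr rfl (fun p _ => ?_)
    rw [intervalIntegral.integral_const_mul, (step_int (v := v p) hαβ ψ hψ).2]
    split_ifs <;> simp

/-- coefficients -/
noncomputable def ca (p : ℕ) : ℝ := 2 * Real.log p / ((p : ℝ) - 1)
noncomputable def ch (p : ℕ) : ℝ := 2 * Real.log p / ((p : ℝ) - 2)
noncomputable def lg (p : ℕ) : ℝ := Real.log p

lemma ca_nonneg {p : ℕ} (h : 5 ≤ p) : 0 ≤ ca p := by
  unfold ca
  have : (5 : ℝ) ≤ p := by exact_mod_cast h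
  have := Real.log_natCast_nonneg p
  apply div_nonneg <;> linarith

lemma ch_nonneg {p : ℕ} (h : 5 ≤ p) : 0 ≤ ch p := by
  unfold ch
  have : (5 : ℝ) ≤ p := by exact_mod_cast h
  have := Real.log_natCast_nonneg p
  apply div_nonneg <;> linarith

lemma log_le_iff {p : ℕ} (hp : 0 < p) (u : ℝ) : Real.log p ≤ u ↔ p ≤ ⌊Real.exp u⌋₊ := by
  have hp' : (0 : ℝ) < p := by exact_mod_cast hp
  rw [Nat.le_floor_iff (Real.exp_pos u).le, ← Real.log_le_iff_le_exp hp']

lemma aF_le_sum (P : Finset ℕ) (hP : ∀ p ∈ P, p.Prime ∧ 5 ≤ p) (c : ℕ → ℝ)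
    (hc : ∀ p, 5 ≤ p → 0 ≤ c p) (u : ℝ) :
    aF P c lg u ≤ ∑ p ∈ Pab 4 ⌊Real.exp u⌋₊, c p := by
  unfold aF
  rw [← Finset.sum_filter]
  apply Finset.sum_le_sum_of_subset_of_nonneg
  · intro p hp
    rw [Finset.mem_filter] at hp
    obtain ⟨h1, h2⟩ := hP p hp.1
    rw [mem_Pab]
    exact ⟨by omega, (log_le_iff h1.pos u).mp hp.2, h1⟩
  · intro p hp _
    exact hc p (by have := (mem_Pab.mp hp).1; omega)

lemma sum_le_aF (P : Finset ℕ) (c : ℕ → ℝ) (hc : ∀ p ∈ P, 0 ≤ c p) (u : ℝ)
    (hP : ∀ p : ℕ, p.Prime → 5 ≤ p → Real.log p ≤ u → p ∈ P) :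
    ∑ p ∈ Pab 4 ⌊Real.exp u⌋₊, c p ≤ aF P c lg u := by
  unfold aF
  rw [← Finset.sum_filter]
  apply Finset.sum_le_sum_of_subset_of_nonneg
  · intro p hp
    obtain ⟨h1, h2, h3⟩ := mem_Pab.mp hp
    rw [Finset.mem_filter]
    have h4 : Real.log p ≤ u := (log_le_iff h3.pos u).mpr h2
    exact ⟨hP p h3 (by omega) h4, h4⟩
  · intro p hp _
    exact hc p (Finset.mem_filter.mp hp).1

lemma floor_exp_log (u : ℝ) (h : 1 ≤ ⌊Real.exp u⌋₊) : Real.log (⌊Real.exp u⌋₊ : ℝ) ≤ u := by
  have h1 : ((⌊Real.exp u⌋₊ : ℕ) : ℝ) ≤ Real.exp u := Nat.floor_le (Real.exp_pos u).le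
  have h2 : (0 : ℝ) < ((⌊Real.exp u⌋₊ : ℕ) : ℝ) := by exact_mod_cast h
  have := Real.log_le_log h2 h1
  rwa [Real.log_exp] at this

lemma aFa_le (P : Finset ℕ) (hP : ∀ p ∈ P, p.Prime ∧ 5 ≤ p) (u : ℝ) :
    aF P ca lg u ≤ max 0 (2 * u - 2.02) := by
  have h1 := aF_le_sum P hP ca (fun p hp => ca_nonneg hp) u
  rcases Nat.lt_or_ge ⌊Real.exp u⌋₊ 5 with h | h
  · have h2 : ∑ p ∈ Pab 4 ⌊Real.exp u⌋₊, ca p = 0 := aS_small (by omega)
    rw [h2] at h1
    exact h1.trans (le_max_left _ _)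
  · have h2 : ∑ p ∈ Pab 4 ⌊Real.exp u⌋₊, ca p ≤ 2 * Real.log (⌊Real.exp u⌋₊ : ℝ) - 2.02 :=
      aS_upper h
    have h3 := floor_exp_log u (by omega)
    refine h1.trans (le_trans ?_ (le_max_right _ _))
    linarith

lemma aFh_le (P : Finset ℕ) (hP : ∀ p ∈ P, p.Prime ∧ 5 ≤ p) (u : ℝ) :
    aF P ch lg u ≤ max 0 (2 * u - 1.22) := by
  have h1 := aF_le_sum P hP ch (fun p hp => ch_nonneg hp) u
  rcases Nat.lt_or_ge ⌊Real.exp u⌋₊ 5 with h | h
  · have h2 : ∑ p ∈ Pab 4 ⌊Real.exp u⌋₊, ch p = 0 := by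
      apply Finset.sum_eq_zero
      intro p hp
      have := mem_Pab.mp hp
      omega
    rw [h2] at h1
    exact h1.trans (le_max_left _ _)
  · have h2 : ∑ p ∈ Pab 4 ⌊Real.exp u⌋₊, ch p ≤ 2 * Real.log (⌊Real.exp u⌋₊ : ℝ) - 1.22 :=
      hS_upper h
    have h3 := floor_exp_log u (by omega)
    refine h1.trans (le_trans ?_ (le_max_right _ _))
    linarith

lemma aFa_ge (P : Finset ℕ) (hP5 : ∀ p ∈ P, 5 ≤ p) (u : ℝ)
    (hP : ∀ p : ℕ, p.Prime → 5 ≤ p → Real.log p ≤ u → p ∈ P) :
    2 * u - (2 + 2 * Real.log 2 + Real.log 3) ≤ aF P ca lg u := by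
  have h1 := sum_le_aF P ca (fun p hp => ca_nonneg (hP5 p hp)) u hP
  have h2 := aS_lower ⌊Real.exp u⌋₊
  have h3 : u ≤ Real.log ((⌊Real.exp u⌋₊ : ℝ) + 1) := by
    rw [Real.le_log_iff_exp_le (by positivity)]
    exact (Nat.lt_floor_add_one _).le
  have h4 : aS ⌊Real.exp u⌋₊ = ∑ p ∈ Pab 4 ⌊Real.exp u⌋₊, ca p := rfl
  rw [h4] at h2
  linarith

lemma five_le_lg {p : ℕ} (h : 5 ≤ p) : Real.log 5 ≤ lg p := by
  unfold lg
  apply Real.log_le_log (by norm_num)
  exact_mod_cast h

/-- `T_0`. -/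
lemma T0_le (P : Finset ℕ) (hP : ∀ p ∈ P, p.Prime ∧ 5 ≤ p) {L : ℝ} (hL : 0 ≤ L)
    (hPL : ∀ p ∈ P, lg p ≤ L) : ∑ p ∈ P, ch p ≤ 2 * L := by
  have h1 := aFh_le P hP L
  have h2 : aF P ch lg L = ∑ p ∈ P, ch p := by
    unfold aF
    exact Finset.sum_congr rfl (fun p hp => if_pos (hPL p hp))
  rw [h2] at h1
  refine h1.trans (max_le (by linarith) (by linarith))

/-- `T_1`. -/
lemma T1_le (P : Finset ℕ) (hP : ∀ p ∈ P, p.Prime ∧ 5 ≤ p) {L : ℝ}
    (hPL : ∀ p ∈ P, lg p ≤ L) : ∑ p ∈ P, ch p * (L - lg p) ≤ (L - 0.61) ^ 2 := by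
  rcases le_or_gt L 0.61 with h | h
  · have : P = ∅ := by
      rw [Finset.eq_empty_iff_forall_notMem]
      intro p hp
      have h1 := five_le_lg (hP p hp).2
      have h2 := hPL p hp
      have h3 := Real.log_five_gt_d9
      linarith
    rw [this]
    simp only [Finset.sum_empty]
    positivity
  · have h1 := layer P ch lg h.le (fun _ => (1 : ℝ)) continuousOn_const
    have h2 : ∑ p ∈ P, ch p * (L - lg p) = ∫ u in (0.61 : ℝ)..L, 1 * aF P ch lg u := by
      rw [h1.2]
      refine Finset.sum_congr rfl (fun p hp => ?_)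
      have h3 := five_le_lg (hP p hp).2
      have h4 := Real.log_five_gt_d9
      rw [if_pos (hPL p hp), max_eq_left (by linarith)]
      simp
    rw [h2]
    have h3 : ∫ u in (0.61 : ℝ)..L, 1 * aF P ch lg u ≤ ∫ u in (0.61 : ℝ)..L, (2 * u - 1.22) := by
      apply intervalIntegral.integral_mono_on h.le h1.1
      · apply Continuous.intervalIntegrable
        fun_prop
      · intro u hu
        rw [one_mul]
        refine (aFh_le P hP u).trans (max_le ?_ (le_refl _))
        linarith [hu.1]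
    refine h3.trans (le_of_eq ?_)
    rw [intervalIntegral.integral_sub (by apply Continuous.intervalIntegrable; fun_prop)
      (by apply Continuous.intervalIntegrable; fun_prop),
      intervalIntegral.integral_const_mul, integral_id, intervalIntegral.integral_const]
    simp only [smul_eq_mul]
    ring

/-- `T_2`. -/
lemma T2_le (P : Finset ℕ) (hP : ∀ p ∈ P, p.Prime ∧ 5 ≤ p) {L : ℝ} (hL0 : 0 ≤ L)
    (hPL : ∀ p ∈ P, lg p ≤ L) :
    ∑ p ∈ P, ch p * (L - lg p) ^ 2 ≤ 2 / 3 * L ^ 3 - 1.22 * L ^ 2 + 2 * 0.61 ^ 2 * L := by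
  rcases le_or_gt L 0.61 with h | h
  · have : P = ∅ := by
      rw [Finset.eq_empty_iff_forall_notMem]
      intro p hp
      have h1 := five_le_lg (hP p hp).2
      have h2 := hPL p hp
      have h3 := Real.log_five_gt_d9
      linarith
    rw [this]
    simp only [Finset.sum_empty]
    nlinarith [mul_nonneg hL0 (sq_nonneg (L - 0.915)), mul_nonneg hL0 hL0]
  · have h1 := layer P ch lg h.le (fun u => 2 * (L - u)) (by fun_prop)
    have h2 : ∑ p ∈ P, ch p * (L - lg p) ^ 2
        = ∫ u in (0.61 : ℝ)..L, 2 * (L - u) * aF P ch lg u := by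
      rw [h1.2]
      refine Finset.sum_congr rfl (fun p hp => ?_)
      have h3 := five_le_lg (hP p hp).2
      have h4 := Real.log_five_gt_d9
      rw [if_pos (hPL p hp), max_eq_left (by linarith)]
      rw [intervalIntegral.integral_const_mul, intervalIntegral.integral_sub
        (by apply Continuous.intervalIntegrable; fun_prop)
        (by apply Continuous.intervalIntegrable; fun_prop), integral_id,
        intervalIntegral.integral_const]
      simp only [smul_eq_mul]
      ring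
    rw [h2]
    have h3 : ∫ u in (0.61 : ℝ)..L, 2 * (L - u) * aF P ch lg u
        ≤ ∫ u in (0.61 : ℝ)..L, 2 * (L - u) * (2 * u - 1.22) := by
      apply intervalIntegral.integral_mono_on h.le h1.1
      · apply Continuous.intervalIntegrable
        fun_prop
      · intro u hu
        apply mul_le_mul_of_nonneg_left _ (by linarith [hu.2])
        refine (aFh_le P hP u).trans (max_le ?_ (le_refl _))
        linarith [hu.1]
    refine h3.trans ?_
    have h4 : ∫ u in (0.61 : ℝ)..L, 2 * (L - u) * (2 * u - 1.22) = 2 / 3 * (L - 0.61) ^ 3 := by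
      have e : (fun u : ℝ => 2 * (L - u) * (2 * u - 1.22))
          = fun u => (-4) * u ^ 2 + (4 * L + 2.44) * u - 2.44 * L := by
        funext u; ring
      rw [e, intervalIntegral.integral_sub (by apply Continuous.intervalIntegrable; fun_prop)
        (by apply Continuous.intervalIntegrable; fun_prop),
        intervalIntegral.integral_add (by apply Continuous.intervalIntegrable; fun_prop)
        (by apply Continuous.intervalIntegrable; fun_prop),
        intervalIntegral.integral_const_mul, intervalIntegral.integral_const_mul, integral_id,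
        integral_pow, intervalIntegral.integral_const]
      simp only [smul_eq_mul]
      norm_num
      ring
    rw [h4]
    nlinarith [hL0]

end Pool.Agent.Lib.MP_d610d0_nt
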