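import Mathlib
import Pool.Agent.Lib.MP_d610d0_nt.Layer

/-!
The bound for `K(L) = ∑_{p} w_p (2/(p-1)) min(log p, L)^2`.
-/

set_option autoImplicit false

namespace Pool.Agent.Lib.MP_d610d0_nt

open Finset MeasureTheory

noncomputable def KL (η L : ℝ) : ℝ :=
  ∑ p ∈ Pr η, wt η p * (2 / ((p : ℝ) - 1)) * (min (Real.log p) L) ^ 2

lemma Pr_prop {η : ℝ} : ∀ p ∈ Pr η, p.Prime ∧ 5 ≤ p := fun _ hp =>
  ⟨(mem_Pr.mp hp).1, (mem_Pr.mp hp).2.1⟩

lemma log_pos_of_five {p : ℕ} (h : 5 ≤ p) : 0 < Real.log p := by
  apply Real.log_pos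
  have : (5 : ℝ) ≤ p := by exact_mod_cast h
  linarith

lemma wt_mul_eq {η : ℝ} (hη : 0 < η) {p : ℕ} (h5 : 5 ≤ p) :
    wt η p * (2 / ((p : ℝ) - 1)) = ca p * (1 / Real.log p - 1 / η) := by
  have h1 := (log_pos_of_five h5).ne'
  have h2 : (5 : ℝ) ≤ p := by exact_mod_cast h5
  have h3 : (p : ℝ) - 1 ≠ 0 := by linarith
  unfold wt ca
  field_simp

lemma int_inv_sq {a b : ℝ} (ha : 0 < a) (hab : a ≤ b) (c : ℝ) :
    ∫ u in a..b, c / u ^ 2 = c * (1 / a - 1 / b) := by
  have hb : 0 < b := ha.trans_le hab
  have h0 : ∀ x ∈ Set.uIcc a b, HasDerivAt (fun x : ℝ => -(c / x)) (c / x ^ 2) x := by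
    intro x hx
    rw [Set.uIcc_of_le hab] at hx
    have hx0 : x ≠ 0 := by linarith [hx.1]
    have h := ((hasDerivAt_inv hx0).const_mul c).neg
    have e : (fun x : ℝ => -(c / x)) = -fun y => c * y⁻¹ := by
      funext y
      simp [div_eq_mul_inv]
    rw [e]
    exact h.congr_deriv (by ring)
  rw [intervalIntegral.integral_eq_sub_of_hasDerivAt h0]
  · field_simp
    ring
  · apply ContinuousOn.intervalIntegrable
    rw [Set.uIcc_of_le hab]
    apply ContinuousOn.div continuousOn_const (by fun_prop)
    intro x hx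
    have : 0 < x := by linarith [hx.1]
    positivity

lemma int_inv {a b : ℝ} (ha : 0 < a) (hab : a ≤ b) (c : ℝ) :
    ∫ u in a..b, c / u = c * Real.log (b / a) := by
  have hb : 0 < b := ha.trans_le hab
  simp_rw [div_eq_mul_inv c]
  rw [intervalIntegral.integral_const_mul, integral_inv_of_pos ha hb]

lemma KL_eq {η L : ℝ} (hL : 0 < L) (hLη : L ≤ η) :
    KL η L = (∫ u in L..η, L ^ 2 / u ^ 2 * aF (Pr η) ca lg u)
      - ∫ u in (0 : ℝ)..L, (1 - 2 * u / η) * aF (Pr η) ca lg u := by
  have hη : 0 < η := hL.trans_le hLη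
  have h1 := layer (Pr η) ca lg hLη (fun u => L ^ 2 / u ^ 2) (by
    apply ContinuousOn.div continuousOn_const (by fun_prop)
    intro x hx
    have : 0 < x := by linarith [hx.1]
    positivity)
  have h2 := layer (Pr η) ca lg hL.le (fun u => 1 - 2 * u / η) (by fun_prop)
  rw [h1.2, h2.2, ← Finset.sum_sub_distrib]
  unfold KL
  refine Finset.sum_congr rfl (fun p hp => ?_)
  obtain ⟨hpp, h5, hlt⟩ := mem_Pr.mp hp
  have hlog := log_pos_of_five h5
  rw [wt_mul_eq hη h5]
  have hle : lg p ≤ η := hlt.le
  rw [if_pos hle]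
  by_cases hc : lg p ≤ L
  · have hlog' : 0 ≤ lg p := hlog.le
    rw [if_pos hc, max_eq_right hc, max_eq_left hlog', int_inv_sq hL hLη]
    have e1 : ∫ u in (lg p)..L, (1 - 2 * u / η) = (L - L ^ 2 / η) - (lg p - (lg p) ^ 2 / η) := by
      rw [intervalIntegral.integral_sub (by apply Continuous.intervalIntegrable; fun_prop)
        (by apply Continuous.intervalIntegrable; fun_prop)]
      have e3 : (fun u : ℝ => 2 * u / η) = fun u => (2 / η) * u := by funext u; ring
      rw [e3, intervalIntegral.integral_const_mul, integral_id, intervalIntegral.integral_const]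
      simp only [smul_eq_mul]
      ring
    rw [e1]
    unfold lg at hc ⊢
    rw [min_eq_left hc]
    have := hlog.ne'
    have := hL.ne'
    have := hη.ne'
    field_simp
    ring
  · rw [if_neg hc]
    push Not at hc
    rw [max_eq_left hc.le, int_inv_sq (hL.trans hc) hle]
    unfold lg at hc ⊢
    rw [min_eq_right hc.le]
    ring

lemma KL_zero {η : ℝ} : KL η 0 = 0 := by
  unfold KL
  apply Finset.sum_eq_zero
  intro p hp
  have := log_pos_of_five (mem_Pr.mp hp).2.1
  rw [min_eq_right this.le]
  ring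

lemma int_first {η L m : ℝ} (hm : 0 < m) (hLm : L ≤ m) (hmη : m ≤ η) (hL : 0 < L)
    (hcase : m = L ∨ m = 1.01) (hm1 : 1.01 ≤ m) :
    ∫ u in L..η, L ^ 2 / u ^ 2 * aF (Pr η) ca lg u
      ≤ 2 * L ^ 2 * Real.log (η / m) - 2.02 * L ^ 2 * (1 / m - 1 / η) := by
  have hLη : L ≤ η := hLm.trans hmη
  have h1 := layer (Pr η) ca lg hLη (fun u => L ^ 2 / u ^ 2) (by
    apply ContinuousOn.div continuousOn_const (by fun_prop)
    intro x hx
    have : 0 < x := by linarith [hx.1]
    positivity)
  have hint : ∀ a b : ℝ, L ≤ a → a ≤ b → b ≤ η →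
      IntervalIntegrable (fun u => L ^ 2 / u ^ 2 * aF (Pr η) ca lg u) volume a b := by
    intro a b ha hab hb
    apply h1.1.mono_set
    rw [Set.uIcc_of_le hab, Set.uIcc_of_le hLη]
    exact Set.Icc_subset_Icc ha hb
  rw [← intervalIntegral.integral_add_adjacent_intervals (hint L m le_rfl hLm hmη)
    (hint m η hLm hmη le_rfl)]
  have e1 : ∫ u in L..m, L ^ 2 / u ^ 2 * aF (Pr η) ca lg u ≤ 0 := by
    rcases hcase with h | h
    · rw [h]; simp
    · have : ∫ u in L..m, L ^ 2 / u ^ 2 * aF (Pr η) ca lg u ≤ ∫ u in L..m, (0 : ℝ) := by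
        apply intervalIntegral.integral_mono_on hLm (hint L m le_rfl hLm hmη)
        · exact intervalIntegrable_const
        · intro u hu
          have h2 := aFa_le (Pr η) Pr_prop u
          have h3 : max 0 (2 * u - 2.02) = 0 := max_eq_left (by rw [h] at hu; linarith [hu.2])
          rw [h3] at h2
          exact mul_nonpos_of_nonneg_of_nonpos (by positivity) h2
      simpa using this
  have e2 : ∫ u in m..η, L ^ 2 / u ^ 2 * aF (Pr η) ca lg u
      ≤ ∫ u in m..η, (2 * L ^ 2 / u - 2.02 * L ^ 2 / u ^ 2) := by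
    apply intervalIntegral.integral_mono_on hmη (hint m η hLm hmη le_rfl)
    · apply ContinuousOn.intervalIntegrable
      rw [Set.uIcc_of_le hmη]
      apply ContinuousOn.sub
      · apply ContinuousOn.div continuousOn_const (by fun_prop)
        intro x hx
        linarith [hx.1]
      · apply ContinuousOn.div continuousOn_const (by fun_prop)
        intro x hx
        have : 0 < x := by linarith [hx.1]
        positivity
    · intro u hu
      have hu0 : 0 < u := by linarith [hu.1]
      have h2 := aFa_le (Pr η) Pr_prop u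
      have h3 : max 0 (2 * u - 2.02) = 2 * u - 2.02 := max_eq_right (by linarith [hu.1])
      rw [h3] at h2
      have : L ^ 2 / u ^ 2 * aF (Pr η) ca lg u ≤ L ^ 2 / u ^ 2 * (2 * u - 2.02) :=
        mul_le_mul_of_nonneg_left h2 (by positivity)
      refine this.trans (le_of_eq ?_)
      field_simp
  have e3 : ∫ u in m..η, (2 * L ^ 2 / u - 2.02 * L ^ 2 / u ^ 2)
      = 2 * L ^ 2 * Real.log (η / m) - 2.02 * L ^ 2 * (1 / m - 1 / η) := by
    rw [intervalIntegral.integral_sub, int_inv hm hmη, int_inv_sq hm hmη]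
    · apply ContinuousOn.intervalIntegrable
      rw [Set.uIcc_of_le hmη]
      apply ContinuousOn.div continuousOn_const (by fun_prop)
      intro x hx
      linarith [hx.1]
    · apply ContinuousOn.intervalIntegrable
      rw [Set.uIcc_of_le hmη]
      apply ContinuousOn.div continuousOn_const (by fun_prop)
      intro x hx
      have : 0 < x := by linarith [hx.1]
      positivity
  linarith

/-- Main bound for `K(L)`. -/
lemma KL_le {η L : ℝ} (hL : 0 ≤ L) (hLη : 2 * L ≤ η) (hη : 2.02 ≤ η) :
    KL η L ≤ 2 * L ^ 2 * Real.log (η / L) - L ^ 2 + 4 / 3 * L ^ 3 / η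
      + (2 * Real.log 2 + Real.log 3 - 0.02) * L := by
  have hη0 : 0 < η := by linarith
  have hl2 := Real.log_two_gt_d9
  have hl3 : 0 < Real.log 3 := Real.log_pos (by norm_num)
  rcases hL.eq_or_lt with h0 | hL0
  · rw [← h0, KL_zero]; simp
  rw [KL_eq hL0 (by linarith)]
  rcases le_or_gt 1.01 L with h1 | h1
  · have e1 := int_first (η := η) (L := L) (m := L) hL0 le_rfl (by linarith) hL0
      (Or.inl rfl) h1
    have h2 := layer (Pr η) ca lg hL (fun u => 1 - 2 * u / η) (by fun_prop)
    have e2 : ∫ u in (0 : ℝ)..L, (1 - 2 * u / η) * (2 * u - (2 + 2 * Real.log 2 + Real.log 3))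
        ≤ ∫ u in (0 : ℝ)..L, (1 - 2 * u / η) * aF (Pr η) ca lg u := by
      apply intervalIntegral.integral_mono_on hL _ h2.1
      · intro u hu
        have h3 : 0 ≤ 1 - 2 * u / η := by
          rw [sub_nonneg, div_le_one hη0]
          linarith [hu.2]
        apply mul_le_mul_of_nonneg_left _ h3
        apply aFa_ge (Pr η) (fun p hp => (mem_Pr.mp hp).2.1) u
        intro p hp h5 hlu
        exact mem_Pr.mpr ⟨hp, h5, by linarith [hu.2]⟩
      · apply Continuous.intervalIntegrable
        fun_prop
    set A := 2 + 2 * Real.log 2 + Real.log 3 with hA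
    have e3 : ∫ u in (0 : ℝ)..L, (1 - 2 * u / η) * (2 * u - A)
        = L ^ 2 - A * L - 4 / 3 * L ^ 3 / η + A * L ^ 2 / η := by
      have e : (fun u : ℝ => (1 - 2 * u / η) * (2 * u - A))
          = fun u => (-4 / η) * u ^ 2 + (2 + 2 * A / η) * u - A := by
        funext u; field_simp; ring
      rw [e, intervalIntegral.integral_sub (by apply Continuous.intervalIntegrable; fun_prop)
        (by apply Continuous.intervalIntegrable; fun_prop),
        intervalIntegral.integral_add (by apply Continuous.intervalIntegrable; fun_prop)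
        (by apply Continuous.intervalIntegrable; fun_prop),
        intervalIntegral.integral_const_mul, intervalIntegral.integral_const_mul, integral_id,
        integral_pow, intervalIntegral.integral_const]
      simp only [smul_eq_mul]
      field_simp
      ring
    have e4 : 2.02 * L ^ 2 * (1 / L - 1 / η) = 2.02 * L - 2.02 * L ^ 2 / η := by
      field_simp
    have e5 : 0 ≤ (A - 2.02) * L ^ 2 / η := by
      have : 0 ≤ A - 2.02 := by linarith
      positivity
    have e6 : (A - 2.02) * L ^ 2 / η = A * L ^ 2 / η - 2.02 * L ^ 2 / η := by ring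
    have e7 : (2 * Real.log 2 + Real.log 3 - 0.02) * L = A * L - 2.02 * L := by
      rw [hA]; ring
    linarith
  · have e1 := int_first (η := η) (L := L) (m := 1.01) (by norm_num) h1.le (by linarith) hL0
      (Or.inr rfl) le_rfl
    have h2 := layer (Pr η) ca lg hL (fun u => 1 - 2 * u / η) (by fun_prop)
    have e2 : ∫ u in (0 : ℝ)..L, (0 : ℝ)
        ≤ ∫ u in (0 : ℝ)..L, (1 - 2 * u / η) * aF (Pr η) ca lg u := by
      apply intervalIntegral.integral_mono_on hL intervalIntegrable_const h2.1
      intro u hu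
      have h3 : 0 ≤ 1 - 2 * u / η := by
        rw [sub_nonneg, div_le_one hη0]
        linarith [hu.2]
      apply mul_nonneg h3
      unfold aF
      apply Finset.sum_nonneg
      intro p hp
      split_ifs
      · exact ca_nonneg (mem_Pr.mp hp).2.1
      · exact le_rfl
    rw [intervalIntegral.integral_zero] at e2
    have e3 : Real.log (η / 1.01) ≤ Real.log (η / L) := by
      apply Real.log_le_log (by positivity)
      exact div_le_div_of_nonneg_left hη0.le hL0 h1.le
    have e4 : 2 * L ^ 2 * Real.log (η / 1.01) ≤ 2 * L ^ 2 * Real.log (η / L) :=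
      mul_le_mul_of_nonneg_left e3 (by positivity)
    have e5 : 2.02 * L ^ 2 * (1 / 1.01 - 1 / η) = 2 * L ^ 2 - 2.02 * L ^ 2 / η := by
      ring
    have e6 : 2.02 * L ^ 2 / η ≤ L ^ 2 := by
      rw [div_le_iff₀ hη0]
      nlinarith [sq_nonneg L]
    have e7 : 0 ≤ (2 * Real.log 2 + Real.log 3 - 0.02) * L := mul_nonneg (by linarith) hL
    have e8 : 0 ≤ 4 / 3 * L ^ 3 / η := by positivity
    linarith

/-- majorant for the logarithm. -/
lemma log_majorant {x : ℝ} (hx : 0 < x) (hx2 : x ≤ 2) :
    -Real.log x ≤ 5 / 8 / x - 1 / 4 - 3 / 8 * x := by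
  set h : ℝ → ℝ := fun x => 5 / 8 / x - 1 / 4 - 3 / 8 * x + Real.log x with hh
  have hder : ∀ x : ℝ, 0 < x → HasDerivAt h (-(3 * x - 5) * (x - 1) / (8 * x ^ 2)) x := by
    intro x hx
    have h1 := (hasDerivAt_inv hx.ne').const_mul (5 / 8 : ℝ)
    have h2 := (hasDerivAt_id x).const_mul (3 / 8 : ℝ)
    have h3 := Real.hasDerivAt_log hx.ne'
    have h4 := ((h1.sub_const (1 / 4 : ℝ)).sub h2).add h3
    have e : h = (fun x => 5 / 8 * x⁻¹ - 1 / 4) - (fun y => 3 / 8 * id y) + Real.log := by
      funext y
      simp only [hh, Pi.add_apply, Pi.sub_apply, id]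
      ring
    rw [e]
    refine h4.congr_deriv ?_
    field_simp
    ring
  have key : 0 ≤ h x := by
    have h1v : h 1 = 0 := by simp only [hh]; norm_num
    rcases le_or_gt x 1 with c1 | c1
    · have hanti : AntitoneOn h (Set.Icc x 1) := by
        apply antitoneOn_of_deriv_nonpos (convex_Icc _ _)
        · intro y hy
          exact (hder y (by linarith [hy.1])).continuousAt.continuousWithinAt
        · intro y hy
          rw [interior_Icc] at hy
          exact (hder y (by linarith [hy.1])).differentiableAt.differentiableWithinAt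
        · intro y hy
          rw [interior_Icc] at hy
          have hy0 : 0 < y := by linarith [hy.1]
          rw [(hder y hy0).deriv]
          apply div_nonpos_of_nonpos_of_nonneg _ (by positivity)
          nlinarith [hy.1, hy.2]
      have := hanti (Set.left_mem_Icc.mpr c1) (Set.right_mem_Icc.mpr c1) c1
      linarith
    · rcases le_or_gt x (5 / 3) with c2 | c2
      · have hmono : MonotoneOn h (Set.Icc 1 x) := by
          apply monotoneOn_of_deriv_nonneg (convex_Icc _ _)
          · intro y hy
            exact (hder y (by linarith [hy.1])).continuousAt.continuousWithinAt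
          · intro y hy
            rw [interior_Icc] at hy
            exact (hder y (by linarith [hy.1])).differentiableAt.differentiableWithinAt
          · intro y hy
            rw [interior_Icc] at hy
            have hy0 : 0 < y := by linarith [hy.1]
            rw [(hder y hy0).deriv]
            apply div_nonneg _ (by positivity)
            nlinarith [hy.1, hy.2]
        have := hmono (Set.left_mem_Icc.mpr c1.le) (Set.right_mem_Icc.mpr c1.le) c1.le
        linarith
      · have h2v : 0 ≤ h 2 := by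
          simp only [hh]
          have := Real.log_two_gt_d9
          norm_num
          linarith
        have hanti : AntitoneOn h (Set.Icc x 2) := by
          apply antitoneOn_of_deriv_nonpos (convex_Icc _ _)
          · intro y hy
            exact (hder y (by linarith [hy.1])).continuousAt.continuousWithinAt
          · intro y hy
            rw [interior_Icc] at hy
            exact (hder y (by linarith [hy.1])).differentiableAt.differentiableWithinAt
          · intro y hy
            rw [interior_Icc] at hy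
            have hy0 : 0 < y := by linarith [hy.1]
            rw [(hder y hy0).deriv]
            apply div_nonpos_of_nonpos_of_nonneg _ (by positivity)
            nlinarith [hy.1, hy.2]
        have := hanti (Set.left_mem_Icc.mpr hx2) (Set.right_mem_Icc.mpr hx2) hx2
        linarith
  simp only [hh] at key
  linarith

/-- polynomial bound for `K(L)`. -/
lemma KL_le_poly {η ℓ L : ℝ} (hℓ : 0 < ℓ) (hL : 0 ≤ L) (hLℓ : L ≤ ℓ) (hℓη : 2 * ℓ ≤ η)
    (hη : 2.02 ≤ η) :
    KL η L ≤ (2 * Real.log (η / ℓ) + 2 * Real.log 2 - 3 / 2) * L ^ 2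
      + (5 / 8 * ℓ + (2 * Real.log 2 + Real.log 3 - 0.02)) * L
      - (3 / 2 / ℓ - 4 / 3 / η) * L ^ 3 := by
  have hη0 : 0 < η := by linarith
  rcases hL.eq_or_lt with h0 | hL0
  · rw [← h0, KL_zero]; simp
  have h1 := KL_le hL (by linarith) hη
  have h2 := log_majorant (x := 2 * L / ℓ) (by positivity) (by
    rw [div_le_iff₀ hℓ]; linarith)
  have e1 : Real.log (η / L) = Real.log (η / ℓ) + Real.log 2 + (-Real.log (2 * L / ℓ)) := by
    rw [Real.log_div hη0.ne' hL0.ne', Real.log_div hη0.ne' hℓ.ne', Real.log_div (by positivity)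
      hℓ.ne', Real.log_mul (by norm_num) hL0.ne']
    ring
  have e2 : 2 * L ^ 2 * Real.log (η / L) ≤ 2 * L ^ 2 * (Real.log (η / ℓ) + Real.log 2
      + (5 / 8 / (2 * L / ℓ) - 1 / 4 - 3 / 8 * (2 * L / ℓ))) := by
    apply mul_le_mul_of_nonneg_left _ (by positivity)
    rw [e1]; linarith
  have e3 : 2 * L ^ 2 * (Real.log (η / ℓ) + Real.log 2
      + (5 / 8 / (2 * L / ℓ) - 1 / 4 - 3 / 8 * (2 * L / ℓ)))
      = (2 * Real.log (η / ℓ) + 2 * Real.log 2 - 1 / 2) * L ^ 2 + 5 / 8 * ℓ * L
        - 3 / 2 / ℓ * L ^ 3 := by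
    field_simp
    ring
  have e4 : 4 / 3 * L ^ 3 / η = 4 / 3 / η * L ^ 3 := by ring
  rw [e4] at h1
  nlinarith [h1, e2, e3]

end Pool.Agent.Lib.MP_d610d0_nt
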