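import Mathlib
import Pool.Agent.Lib.MP_d610d0_nt.Weight

/-!
The Selberg type weights `Λ(t) = ∑_{r ≤ R} Y(r) ψ_r(t)` with `Y(r) = log (R / r)`.
-/

set_option autoImplicit false

namespace Pool.Agent.Lib.MP_d610d0_nt

open Finset

/-- The support of the weights. -/
noncomputable def SR (R : ℝ) : Finset ℕ := (Finset.Icc 1 ⌊R⌋₊).filter Good

/-- `Y r = log (R / r)` for `r ≤ R` and `0` otherwise. -/
noncomputable def Y (R : ℝ) (r : ℕ) : ℝ := max 0 (Real.log (R / r))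

noncomputable def Lam (R : ℝ) (t : ℕ) : ℝ := ∑ r ∈ SR R, Y R r * psiR r t

noncomputable def M (R : ℝ) (k : ℕ) : ℝ := ∑ r ∈ SR R, hR r * Y R r ^ k

noncomputable def Z (R : ℝ) : ℝ := ∑ r ∈ SR R, Y R r * WR r

noncomputable def G (R : ℝ) (p : ℕ) : ℝ := ∑ r ∈ SR R, hR r * (min (Real.log p) (Y R r)) ^ 2

lemma mem_SR {R : ℝ} (hR0 : 0 ≤ R) {r : ℕ} : r ∈ SR R ↔ Good r ∧ (r : ℝ) ≤ R := by
  unfold SR
  rw [Finset.mem_filter, Finset.mem_Icc]
  constructor
  · rintro ⟨⟨_, h2⟩, h3⟩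
    exact ⟨h3, (Nat.le_floor_iff hR0).mp h2⟩
  · rintro ⟨h1, h2⟩
    exact ⟨⟨h1.pos, (Nat.le_floor_iff hR0).mpr h2⟩, h1⟩

lemma good_of_mem_SR {R : ℝ} {r : ℕ} (h : r ∈ SR R) : Good r := (Finset.mem_filter.mp h).2

lemma Y_nonneg (R : ℝ) (r : ℕ) : 0 ≤ Y R r := le_max_left _ _

lemma Y_eq {R : ℝ} {r : ℕ} (hr : 0 < r) (h : (r : ℝ) ≤ R) : Y R r = Real.log R - Real.log r := by
  unfold Y
  have hr' : (0 : ℝ) < r := by exact_mod_cast hr
  have hRp : 0 < R := hr'.trans_le h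
  rw [Real.log_div hRp.ne' hr'.ne']
  apply max_eq_right
  rw [sub_nonneg]
  exact Real.log_le_log hr' h

lemma Y_eq_zero {R : ℝ} {r : ℕ} (hR0 : 0 < R) (h : R ≤ (r : ℝ)) : Y R r = 0 := by
  unfold Y
  have hr' : (0 : ℝ) < r := hR0.trans_le h
  apply max_eq_left
  apply Real.log_nonpos
  · positivity
  · rw [div_le_one hr']; exact h

lemma Y_le {R : ℝ} (hR1 : 1 ≤ R) {r : ℕ} (hr : 0 < r) : Y R r ≤ Real.log R := by
  unfold Y
  have hr' : (1 : ℝ) ≤ r := by exact_mod_cast hr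
  apply max_le (Real.log_nonneg hR1)
  apply Real.log_le_log (by positivity)
  exact div_le_self (by linarith) hr'

lemma Y_mul {R : ℝ} (hRp : 0 < R) {p r : ℕ} (hp : 0 < p) (hr : 0 < r) :
    Y R (p * r) = max 0 (Real.log (R / r) - Real.log p) := by
  unfold Y
  congr 1
  have hp' : (0 : ℝ) < p := by exact_mod_cast hp
  have hr' : (0 : ℝ) < r := by exact_mod_cast hr
  rw [← Real.log_div (by positivity) hp'.ne']
  congr 1
  push_cast
  field_simp

/-- The difference of the weights. -/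
lemma Y_sub {R : ℝ} (hRp : 0 < R) {p r : ℕ} (hp : 0 < p) (hr : 0 < r) :
    0 ≤ Y R r - Y R (p * r) ∧ Y R r - Y R (p * r) ≤ min (Real.log p) (Y R r) := by
  rw [Y_mul hRp hp hr]
  unfold Y
  have hlp : 0 ≤ Real.log p := Real.log_natCast_nonneg p
  set x := Real.log (R / r)
  rcases le_total x 0 with h1 | h1
  · have h2 : max 0 (x - Real.log p) = 0 := max_eq_left (by linarith)
    rw [h2, max_eq_left h1]
    simp [hlp]
  · rw [max_eq_right h1]
    rcases le_total (x - Real.log p) 0 with h2 | h2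
    · rw [max_eq_left h2, sub_zero]
      exact ⟨h1, le_min (by linarith) le_rfl⟩
    · rw [max_eq_right h2]
      refine ⟨by linarith, le_min (by linarith) (by linarith)⟩

lemma psi_of_dvd {p t : ℕ} (h : p ∣ F t) : psi p t = -1 := by
  unfold psi; rw [if_pos h]

/-- On multiples of `p` the weight collapses. -/
lemma Lam_of_dvd {R : ℝ} (hRp : 0 < R) {p t : ℕ} (hpp : p.Prime) (h5 : 5 ≤ p) (hd : p ∣ F t) :
    Lam R t = ∑ r ∈ (SR R).filter (fun r => ¬ p ∣ r), (Y R r - Y R (p * r)) * psiR r t := by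
  classical
  unfold Lam
  rw [← Finset.sum_filter_add_sum_filter_not (SR R) (fun r => ¬ p ∣ r)]
  simp only [not_not]
  simp_rw [sub_mul]
  rw [Finset.sum_sub_distrib, sub_eq_add_neg]
  congr 1
  rw [← Finset.sum_neg_distrib]
  -- split off the terms with p * r ≤ R
  have h1 : ∑ r ∈ (SR R).filter (fun r => ¬ p ∣ r), -(Y R (p * r) * psiR r t)
      = ∑ r ∈ (SR R).filter (fun r => ¬ p ∣ r ∧ ((p * r : ℕ) : ℝ) ≤ R),
          -(Y R (p * r) * psiR r t) := by
    symm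
    apply Finset.sum_subset
    · intro r hr
      rw [Finset.mem_filter] at hr ⊢
      exact ⟨hr.1, hr.2.1⟩
    · intro r hr hr2
      rw [Finset.mem_filter] at hr hr2
      have h2 : ¬ ((p * r : ℕ) : ℝ) ≤ R := fun h => hr2 ⟨hr.1, hr.2, h⟩
      push Not at h2
      rw [Y_eq_zero hRp h2.le]
      ring
  rw [h1]
  symm
  refine Finset.sum_bij (fun r _ => p * r) ?_ ?_ ?_ ?_
  · intro r hr
    rw [Finset.mem_filter] at hr ⊢
    refine ⟨?_, Dvd.intro _ rfl⟩
    rw [mem_SR hRp.le]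
    exact ⟨(good_of_mem_SR hr.1).mul_prime hpp h5 hr.2.1, hr.2.2⟩
  · intro r hr r' hr' h
    exact Nat.eq_of_mul_eq_mul_left hpp.pos h
  · intro r hr
    rw [Finset.mem_filter] at hr
    have hg := good_of_mem_SR hr.1
    obtain ⟨r', rfl, hg', hn⟩ := hg.split hpp hr.2
    have hle := ((mem_SR hRp.le).mp hr.1).2
    refine ⟨r', ?_, rfl⟩
    rw [Finset.mem_filter]
    refine ⟨?_, hn, hle⟩
    rw [mem_SR hRp.le]
    refine ⟨hg', le_trans ?_ hle⟩
    push_cast
    have : (1 : ℝ) ≤ p := by exact_mod_cast hpp.one_le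
    have h0 : (0 : ℝ) ≤ r' := Nat.cast_nonneg _
    nlinarith
  · intro r hr
    rw [Finset.mem_filter] at hr
    rw [psiR_mul_prime hpp (good_of_mem_SR hr.1).pos.ne' hr.2.1, psi_of_dvd hd]
    ring

lemma Z_nonneg (R : ℝ) : 0 ≤ Z R :=
  Finset.sum_nonneg (fun r hr => mul_nonneg (Y_nonneg R r) (WR_pos (good_of_mem_SR hr)).le)

lemma M_nonneg (R : ℝ) (k : ℕ) : 0 ≤ M R k :=
  Finset.sum_nonneg (fun r hr => mul_nonneg (hR_pos (good_of_mem_SR hr)).le
    (pow_nonneg (Y_nonneg R r) k))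

lemma G_nonneg (R : ℝ) (p : ℕ) : 0 ≤ G R p :=
  Finset.sum_nonneg (fun r hr => mul_nonneg (hR_pos (good_of_mem_SR hr)).le (sq_nonneg _))

/-- (H1) -/
lemma sel_H1 (R : ℝ) (s N : ℕ) :
    (N : ℝ) * M R 2 - Z R ^ 2 ≤ ∑ t ∈ Ico s (s + N), Lam R t ^ 2 := by
  have h := quad_form (SR R) (fun r hr => good_of_mem_SR hr) (Y R) (q := 1) one_pos
    (fun r _ => Nat.coprime_one_left r) (g := fun _ => 1) (Per.const 1 1) (V := 1)
    (by simpa using APW.const 1) s N
  rw [avg_const one_pos] at h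
  simp only [one_mul] at h
  have e : (∑ r ∈ SR R, |Y R r| * WR r) = Z R :=
    Finset.sum_congr rfl (fun r _ => by rw [abs_of_nonneg (Y_nonneg R r)])
  rw [e] at h
  have := (abs_le.mp h).1
  unfold Lam M
  linarith

/-- (H2) -/
lemma sel_H2 {R : ℝ} (hRp : 0 < R) {p k : ℕ} (hpp : p.Prime) (h5 : 5 ≤ p) (hk : 1 ≤ k)
    (s N : ℕ) :
    ∑ t ∈ Ico s (s + N), indF (p ^ k) t * Lam R t ^ 2
      ≤ (2 / (p ^ k : ℕ)) * N * G R p + 2 * Z R ^ 2 := by
  classical
  set S := (SR R).filter (fun r => ¬ p ∣ r) with hS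
  set Y' : ℕ → ℝ := fun r => Y R r - Y R (p * r) with hY'
  have hgood : ∀ r ∈ S, Good r := fun r hr => good_of_mem_SR (Finset.mem_filter.mp hr).1
  have hcop : ∀ r ∈ S, Nat.Coprime (p ^ k) r := fun r hr =>
    Nat.Coprime.pow_left k ((Nat.Prime.coprime_iff_not_dvd hpp).mpr (Finset.mem_filter.mp hr).2)
  have h := quad_form S hgood Y' (q := p ^ k) (pow_pos hpp.pos k) hcop
    (g := indF (p ^ k)) (indF_per _) (V := 2) (indF_APW hpp h5 hk) s N
  rw [avg_indF hpp h5 hk] at h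
  have e1 : ∑ t ∈ Ico s (s + N), indF (p ^ k) t * Lam R t ^ 2
      = ∑ t ∈ Ico s (s + N), indF (p ^ k) t * (∑ r ∈ S, Y' r * psiR r t) ^ 2 := by
    refine Finset.sum_congr rfl (fun t _ => ?_)
    by_cases hd : p ^ k ∣ F t
    · rw [Lam_of_dvd hRp hpp h5 ((dvd_pow_self p (by omega)).trans hd)]
    · unfold indF; rw [if_neg hd]; ring
  rw [e1]
  have e2 : ∑ r ∈ S, hR r * Y' r ^ 2 ≤ G R p := by
    unfold G
    calc ∑ r ∈ S, hR r * Y' r ^ 2 ≤ ∑ r ∈ S, hR r * (min (Real.log p) (Y R r)) ^ 2 := by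
          refine Finset.sum_le_sum (fun r hr => ?_)
          have h1 := Y_sub hRp hpp.pos (hgood r hr).pos
          apply mul_le_mul_of_nonneg_left _ (hR_pos (hgood r hr)).le
          exact pow_le_pow_left₀ h1.1 h1.2 2
      _ ≤ _ := Finset.sum_le_sum_of_subset_of_nonneg (Finset.filter_subset _ _)
          (fun r hr _ => mul_nonneg (hR_pos (good_of_mem_SR hr)).le (sq_nonneg _))
  have e3 : ∑ r ∈ S, |Y' r| * WR r ≤ Z R := by
    unfold Z
    calc ∑ r ∈ S, |Y' r| * WR r ≤ ∑ r ∈ S, Y R r * WR r := by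
          refine Finset.sum_le_sum (fun r hr => ?_)
          have h1 := Y_sub hRp hpp.pos (hgood r hr).pos
          apply mul_le_mul_of_nonneg_right _ (WR_pos (hgood r hr)).le
          rw [abs_of_nonneg h1.1]
          exact h1.2.trans (min_le_right _ _)
      _ ≤ _ := Finset.sum_le_sum_of_subset_of_nonneg (Finset.filter_subset _ _)
          (fun r hr _ => mul_nonneg (Y_nonneg R r) (WR_pos (good_of_mem_SR hr)).le)
  have e4 : 0 ≤ ∑ r ∈ S, |Y' r| * WR r :=
    Finset.sum_nonneg (fun r hr => mul_nonneg (abs_nonneg _) (WR_pos (hgood r hr)).le)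
  have e5 : (∑ r ∈ S, |Y' r| * WR r) ^ 2 ≤ Z R ^ 2 := pow_le_pow_left₀ e4 e3 2
  have h2 := (abs_le.mp h).2
  have hpos : (0 : ℝ) ≤ 2 / (p ^ k : ℕ) := by positivity
  have e6 : (N : ℝ) * (2 / (p ^ k : ℕ) * ∑ r ∈ S, hR r * Y' r ^ 2)
      ≤ (2 / (p ^ k : ℕ)) * N * G R p := by
    have : (2 / (p ^ k : ℕ) : ℝ) * N * ∑ r ∈ S, hR r * Y' r ^ 2
        ≤ (2 / (p ^ k : ℕ)) * N * G R p :=
      mul_le_mul_of_nonneg_left e2 (by positivity)
    calc (N : ℝ) * (2 / (p ^ k : ℕ) * ∑ r ∈ S, hR r * Y' r ^ 2)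
        = (2 / (p ^ k : ℕ) : ℝ) * N * ∑ r ∈ S, hR r * Y' r ^ 2 := by ring
      _ ≤ _ := this
  linarith

/-- Trivial bound for the weights: `|Λ(t)| ≤ d(F t) M_1`. -/
lemma Lam_abs_le {R : ℝ} (hRp : 0 < R) (t : ℕ) :
    |Lam R t| ≤ ((F t).divisors.card : ℝ) * M R 1 := by
  classical
  have hpsi : ∀ r ∈ SR R, |psiR r t| = hR (r / Nat.gcd r (F t)) := by
    intro r hr
    have hg := good_of_mem_SR hr
    have hsq := hg.1
    have hdiv : r / Nat.gcd r (F t) ∣ r := Nat.div_dvd_of_dvd (Nat.gcd_dvd_left _ _)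
    have hpf : (r / Nat.gcd r (F t)).primeFactors = r.primeFactors.filter (fun p => ¬ p ∣ F t) := by
      ext p
      rw [Finset.mem_filter, Nat.mem_primeFactors, Nat.mem_primeFactors]
      have hmul : r / Nat.gcd r (F t) * Nat.gcd r (F t) = r :=
        Nat.div_mul_cancel (Nat.gcd_dvd_left _ _)
      constructor
      · rintro ⟨h1, h2, h3⟩
        refine ⟨⟨h1, h2.trans hdiv, hg.pos.ne'⟩, fun h4 => ?_⟩
        have h5 : p ∣ Nat.gcd r (F t) := Nat.dvd_gcd (h2.trans hdiv) h4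
        have h6 : p * p ∣ r := by
          rw [← hmul]; exact mul_dvd_mul h2 h5
        have := Nat.isUnit_iff.mp (hsq p h6)
        exact h1.one_lt.ne' this
      · rintro ⟨⟨h1, h2, h3⟩, h4⟩
        refine ⟨h1, ?_, ?_⟩
        · have h5 : p ∣ r / Nat.gcd r (F t) * Nat.gcd r (F t) := by rw [hmul]; exact h2
          rcases (Nat.Prime.dvd_mul h1).mp h5 with h6 | h6
          · exact h6
          · exact absurd (h6.trans (Nat.gcd_dvd_right _ _)) h4
        · intro h0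
          rw [h0] at hmul
          simp at hmul
          exact h3 hmul.symm
    unfold psiR hR
    rw [Finset.abs_prod, hpf, Finset.prod_filter]
    refine Finset.prod_congr rfl (fun p hp => ?_)
    have h5 := hg.five_le hp
    unfold psi
    by_cases hc : p ∣ F t
    · simp [hc]
    · simp only [hc, if_false, not_false_eq_true, if_true]
      exact abs_of_pos (hp_pos h5)
  have h1 : |Lam R t| ≤ ∑ r ∈ SR R, Y R r * hR (r / Nat.gcd r (F t)) := by
    unfold Lam
    refine (Finset.abs_sum_le_sum_abs _ _).trans (Finset.sum_le_sum (fun r hr => ?_))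
    rw [abs_mul, abs_of_nonneg (Y_nonneg R r), hpsi r hr]
  refine h1.trans ?_
  -- injection r ↦ (gcd, quotient)
  have h2 : ∑ r ∈ SR R, Y R r * hR (r / Nat.gcd r (F t))
      ≤ ∑ r ∈ SR R, Y R (r / Nat.gcd r (F t)) * hR (r / Nat.gcd r (F t)) := by
    refine Finset.sum_le_sum (fun r hr => ?_)
    have hg := good_of_mem_SR hr
    have hgc : 0 < Nat.gcd r (F t) := Nat.gcd_pos_of_pos_left _ hg.pos
    have hq : 0 < r / Nat.gcd r (F t) := Nat.div_pos (Nat.gcd_le_left _ hg.pos) hgc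
    have hmul : Nat.gcd r (F t) * (r / Nat.gcd r (F t)) = r :=
      Nat.mul_div_cancel' (Nat.gcd_dvd_left _ _)
    have h3 := (Y_sub hRp hgc hq).1
    rw [hmul] at h3
    have hpos : 0 ≤ hR (r / Nat.gcd r (F t)) := by
      apply Finset.prod_nonneg
      intro p hp
      have : p ∈ r.primeFactors := Nat.primeFactors_mono
        (Nat.div_dvd_of_dvd (Nat.gcd_dvd_left _ _)) hg.pos.ne' hp
      exact (hp_pos (hg.five_le this)).le
    apply mul_le_mul_of_nonneg_right _ hpos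
    linarith
  refine h2.trans ?_
  have h3 : ∑ r ∈ SR R, Y R (r / Nat.gcd r (F t)) * hR (r / Nat.gcd r (F t))
      = ∑ x ∈ (SR R).image (fun r => (Nat.gcd r (F t), r / Nat.gcd r (F t))),
          Y R x.2 * hR x.2 := by
    rw [Finset.sum_image]
    intro a ha b hb hab
    simp only [Prod.mk.injEq] at hab
    have e1 : Nat.gcd a (F t) * (a / Nat.gcd a (F t)) = a :=
      Nat.mul_div_cancel' (Nat.gcd_dvd_left _ _)
    have e2 : Nat.gcd b (F t) * (b / Nat.gcd b (F t)) = b :=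
      Nat.mul_div_cancel' (Nat.gcd_dvd_left _ _)
    rw [← e1, ← e2, hab.2, hab.1]
  rw [h3]
  calc ∑ x ∈ (SR R).image (fun r => (Nat.gcd r (F t), r / Nat.gcd r (F t))), Y R x.2 * hR x.2
      ≤ ∑ x ∈ (F t).divisors ×ˢ SR R, Y R x.2 * hR x.2 := by
        refine Finset.sum_le_sum_of_subset_of_nonneg ?_ ?_
        · intro x hx
          rw [Finset.mem_image] at hx
          obtain ⟨r, hr, rfl⟩ := hx
          rw [Finset.mem_product]
          have hg := good_of_mem_SR hr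
          refine ⟨?_, ?_⟩
          · rw [Nat.mem_divisors]; exact ⟨Nat.gcd_dvd_right _ _, F_ne_zero t⟩
          · simp only
            have hdvd : r / Nat.gcd r (F t) ∣ r := Nat.div_dvd_of_dvd (Nat.gcd_dvd_left _ _)
            rw [mem_SR hRp.le]
            refine ⟨⟨hg.1.squarefree_of_dvd hdvd, hg.2.coprime_dvd_left hdvd⟩, ?_⟩
            refine le_trans ?_ ((mem_SR hRp.le).mp hr).2
            exact_mod_cast Nat.le_of_dvd hg.pos hdvd
        · intro x hx _
          rw [Finset.mem_product] at hx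
          exact mul_nonneg (Y_nonneg R _) (hR_pos (good_of_mem_SR hx.2)).le
    _ = ((F t).divisors.card : ℝ) * M R 1 := by
        rw [Finset.sum_product]
        simp only [Finset.sum_const, nsmul_eq_mul]
        congr 1
        unfold M
        exact Finset.sum_congr rfl (fun r _ => by ring)

end Pool.Agent.Lib.MP_d610d0_nt
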