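import Mathlib
import Pool.Agent.Lib.MP_d610d0_nt.Sel
import Pool.Agent.Lib.MP_d610d0_nt.Kb

/-!
Relations between the moments `M k`.
-/

set_option autoImplicit false

namespace Pool.Agent.Lib.MP_d610d0_nt

open Finset

lemma Good.log_eq {r : ℕ} (hr : Good r) : Real.log r = ∑ p ∈ r.primeFactors, Real.log p := by
  conv_lhs => rw [← Nat.prod_primeFactors_of_squarefree hr.1]
  push_cast
  rw [Real.log_prod]
  intro p hp
  have := (Nat.prime_of_mem_primeFactors hp).pos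
  positivity

lemma Good.primeFactors_eq {r m : ℕ} (hr : Good r) (hm : r ≤ m) :
    r.primeFactors = (Pab 4 m).filter (fun p => p ∣ r) := by
  ext p
  rw [Finset.mem_filter, mem_Pab]
  constructor
  · intro h
    have h1 := hr.five_le h
    have h2 := Nat.dvd_of_mem_primeFactors h
    exact ⟨⟨by omega, (Nat.le_of_dvd hr.pos h2).trans hm, Nat.prime_of_mem_primeFactors h⟩, h2⟩
  · rintro ⟨⟨_, _, h1⟩, h2⟩
    exact Nat.mem_primeFactors.mpr ⟨h1, h2, hr.pos.ne'⟩

lemma ch_eq (p : ℕ) : ch p = hp p * Real.log p := by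
  unfold ch hp; ring

lemma log_moment {R : ℝ} (hR1 : 1 ≤ R) (k : ℕ) :
    ∑ r ∈ SR R, hR r * Real.log r * Y R r ^ k
      ≤ ∑ r ∈ SR R, hR r * ∑ p ∈ Pab 4 ⌊Real.exp (Y R r)⌋₊, ch p * (Y R r - lg p) ^ k := by
  classical
  have hRp : 0 < R := by linarith
  set PF := Pab 4 ⌊R⌋₊ with hPF
  have h1 : ∑ r ∈ SR R, hR r * Real.log r * Y R r ^ k
      = ∑ p ∈ PF, ∑ r ∈ (SR R).filter (fun r => p ∣ r), hR r * Real.log p * Y R r ^ k := by
    have : ∀ r ∈ SR R, hR r * Real.log r * Y R r ^ k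
        = ∑ p ∈ PF, if p ∣ r then hR r * Real.log p * Y R r ^ k else 0 := by
      intro r hr
      have hg := good_of_mem_SR hr
      have hle : r ≤ ⌊R⌋₊ := (Finset.mem_Icc.mp (Finset.mem_filter.mp hr).1).2
      rw [hg.log_eq, hg.primeFactors_eq hle, ← Finset.sum_filter, Finset.mul_sum, Finset.sum_mul]
    rw [Finset.sum_congr rfl this, Finset.sum_comm]
    refine Finset.sum_congr rfl (fun p _ => ?_)
    rw [Finset.sum_filter]
  have h2 : ∀ p ∈ PF, ∑ r ∈ (SR R).filter (fun r => p ∣ r), hR r * Real.log p * Y R r ^ k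
      ≤ ∑ r ∈ SR R, if Real.log p ≤ Y R r then hR r * (ch p * (Y R r - lg p) ^ k) else 0 := by
    intro p hp
    obtain ⟨h4, hpR, hpp⟩ := mem_Pab.mp hp
    have h5 : 5 ≤ p := by omega
    have hbij : ∑ r ∈ (SR R).filter (fun r => p ∣ r), hR r * Real.log p * Y R r ^ k
        = ∑ r ∈ (SR R).filter (fun r => ¬ p ∣ r ∧ ((p * r : ℕ) : ℝ) ≤ R),
            hR r * (ch p * (Y R r - lg p) ^ k) := by
      symm
      refine Finset.sum_bij (fun r _ => p * r) ?_ ?_ ?_ ?_
      · intro r hr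
        rw [Finset.mem_filter] at hr ⊢
        refine ⟨?_, Dvd.intro _ rfl⟩
        rw [mem_SR hRp.le]
        exact ⟨(good_of_mem_SR hr.1).mul_prime hpp h5 hr.2.1, hr.2.2⟩
      · intro r hr r' hr' h
        exact Nat.eq_of_mul_eq_mul_left hpp.pos h
      · intro r hr
        rw [Finset.mem_filter] at hr
        have hg := good_of_mem_SR hr.1
        obtain ⟨r', rfl, hg', hn⟩ := hg.split hpp hr.2
        have hle := ((mem_SR hRp.le).mp hr.1).2
        refine ⟨r', ?_, rfl⟩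
        rw [Finset.mem_filter]
        refine ⟨?_, hn, hle⟩
        rw [mem_SR hRp.le]
        refine ⟨hg', le_trans ?_ hle⟩
        push_cast
        have : (1 : ℝ) ≤ p := by exact_mod_cast hpp.one_le
        have h0 : (0 : ℝ) ≤ r' := Nat.cast_nonneg _
        nlinarith
      · intro r hr
        rw [Finset.mem_filter] at hr
        have hg := good_of_mem_SR hr.1
        have hr0 := hg.pos
        have hle1 := ((mem_SR hRp.le).mp hr.1).2
        have e1 : Y R (p * r) = Y R r - lg p := by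
          rw [Y_eq (Nat.mul_pos hpp.pos hr0) hr.2.2, Y_eq hr0 hle1]
          unfold lg
          push_cast
          rw [Real.log_mul (by exact_mod_cast hpp.pos.ne') (by exact_mod_cast hr0.ne')]
          ring
        rw [e1, hR_mul_prime hpp hr0.ne' hr.2.1, ch_eq]
        ring
    rw [hbij]
    have hle : ∀ r ∈ (SR R).filter (fun r => ¬ p ∣ r ∧ ((p * r : ℕ) : ℝ) ≤ R),
        Real.log p ≤ Y R r := by
      intro r hr
      rw [Finset.mem_filter] at hr
      have hg := good_of_mem_SR hr.1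
      have hr0 := hg.pos
      have hle1 := ((mem_SR hRp.le).mp hr.1).2
      have e1 := Y_eq (Nat.mul_pos hpp.pos hr0) hr.2.2
      have e2 := Y_nonneg R (p * r)
      rw [Y_eq hr0 hle1]
      rw [e1] at e2
      push_cast at e2
      rw [Real.log_mul (by exact_mod_cast hpp.pos.ne') (by exact_mod_cast hr0.ne')] at e2
      linarith
    calc ∑ r ∈ (SR R).filter (fun r => ¬ p ∣ r ∧ ((p * r : ℕ) : ℝ) ≤ R),
            hR r * (ch p * (Y R r - lg p) ^ k)
        = ∑ r ∈ (SR R).filter (fun r => ¬ p ∣ r ∧ ((p * r : ℕ) : ℝ) ≤ R),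
            (if Real.log p ≤ Y R r then hR r * (ch p * (Y R r - lg p) ^ k) else 0) :=
          Finset.sum_congr rfl (fun r hr => by rw [if_pos (hle r hr)])
      _ ≤ _ := by
          apply Finset.sum_le_sum_of_subset_of_nonneg (Finset.filter_subset _ _)
          intro r hr _
          split_ifs with hc
          · apply mul_nonneg (hR_pos (good_of_mem_SR hr)).le
            apply mul_nonneg (ch_nonneg h5)
            apply pow_nonneg
            unfold lg
            linarith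
          · exact le_rfl
  rw [h1]
  refine (Finset.sum_le_sum h2).trans ?_
  rw [Finset.sum_comm]
  refine Finset.sum_le_sum (fun r hr => ?_)
  have hg := good_of_mem_SR hr
  rw [← Finset.sum_filter, ← Finset.mul_sum]
  apply mul_le_mul_of_nonneg_left _ (hR_pos hg).le
  apply Finset.sum_le_sum_of_subset_of_nonneg
  · intro p hp
    rw [Finset.mem_filter] at hp
    obtain ⟨h4, hpR, hpp⟩ := mem_Pab.mp hp.1
    exact mem_Pab.mpr ⟨h4, (log_le_iff hpp.pos _).mp hp.2, hpp⟩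
  · intro p hp _
    obtain ⟨h4, hpR, hpp⟩ := mem_Pab.mp hp
    apply mul_nonneg (ch_nonneg (by omega))
    apply pow_nonneg
    have := (log_le_iff hpp.pos _).mpr hpR
    unfold lg
    linarith

lemma Pl_prop (L : ℝ) : ∀ p ∈ Pab 4 ⌊Real.exp L⌋₊, p.Prime ∧ 5 ≤ p := by
  intro p hp
  obtain ⟨h4, _, hpp⟩ := mem_Pab.mp hp
  exact ⟨hpp, by omega⟩

lemma Pl_le (L : ℝ) : ∀ p ∈ Pab 4 ⌊Real.exp L⌋₊, lg p ≤ L := by
  intro p hp
  obtain ⟨h4, h, hpp⟩ := mem_Pab.mp hp
  exact (log_le_iff hpp.pos _).mpr h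

lemma log_moment_eq {R : ℝ} (hR1 : 1 ≤ R) (k : ℕ) :
    ∑ r ∈ SR R, hR r * Real.log r * Y R r ^ k = Real.log R * M R k - M R (k + 1) := by
  unfold M
  rw [Finset.mul_sum, ← Finset.sum_sub_distrib]
  refine Finset.sum_congr rfl (fun r hr => ?_)
  have hg := good_of_mem_SR hr
  have e := Y_eq hg.pos ((mem_SR (by linarith)).mp hr).2
  have e2 : Real.log r = Real.log R - Y R r := by linarith
  rw [e2]; ring

lemma rel0 {R : ℝ} (hR1 : 1 ≤ R) : Real.log R * M R 0 ≤ 3 * M R 1 := by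
  have h1 := log_moment hR1 0
  rw [log_moment_eq hR1 0] at h1
  have h2 : ∑ r ∈ SR R, hR r * ∑ p ∈ Pab 4 ⌊Real.exp (Y R r)⌋₊, ch p * (Y R r - lg p) ^ 0
      ≤ 2 * M R 1 := by
    unfold M
    rw [Finset.mul_sum]
    refine Finset.sum_le_sum (fun r hr => ?_)
    have h3 := T0_le (Pab 4 ⌊Real.exp (Y R r)⌋₊) (Pl_prop _) (Y_nonneg R r) (Pl_le _)
    have h4 := mul_le_mul_of_nonneg_left h3 (hR_pos (good_of_mem_SR hr)).le
    simp only [pow_zero, mul_one, pow_one]
    linarith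
  simp only [zero_add] at h1
  linarith

lemma rel1 {R : ℝ} (hR1 : 1 ≤ R) :
    (Real.log R + 1.22) * M R 1 - 0.61 ^ 2 * M R 0 ≤ 2 * M R 2 := by
  have h1 := log_moment hR1 1
  rw [log_moment_eq hR1 1] at h1
  have h2 : ∑ r ∈ SR R, hR r * ∑ p ∈ Pab 4 ⌊Real.exp (Y R r)⌋₊, ch p * (Y R r - lg p) ^ 1
      ≤ M R 2 - 1.22 * M R 1 + 0.61 ^ 2 * M R 0 := by
    unfold M
    rw [Finset.mul_sum, Finset.mul_sum, ← Finset.sum_sub_distrib, ← Finset.sum_add_distrib]
    refine Finset.sum_le_sum (fun r hr => ?_)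
    have h3 := T1_le (Pab 4 ⌊Real.exp (Y R r)⌋₊) (Pl_prop _) (Pl_le _)
    have h4 := mul_le_mul_of_nonneg_left h3 (hR_pos (good_of_mem_SR hr)).le
    simp only [pow_one]
    refine h4.trans (le_of_eq ?_)
    ring
  norm_num at h1 h2 ⊢
  linarith

lemma rel2 {R : ℝ} (hR1 : 1 ≤ R) :
    (Real.log R + 1.22) * M R 2 - 2 * 0.61 ^ 2 * M R 1 ≤ 5 / 3 * M R 3 := by
  have h1 := log_moment hR1 2
  rw [log_moment_eq hR1 2] at h1
  have h2 : ∑ r ∈ SR R, hR r * ∑ p ∈ Pab 4 ⌊Real.exp (Y R r)⌋₊, ch p * (Y R r - lg p) ^ 2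
      ≤ 2 / 3 * M R 3 - 1.22 * M R 2 + 2 * 0.61 ^ 2 * M R 1 := by
    unfold M
    rw [Finset.mul_sum, Finset.mul_sum, Finset.mul_sum, ← Finset.sum_sub_distrib,
      ← Finset.sum_add_distrib]
    refine Finset.sum_le_sum (fun r hr => ?_)
    have h3 := T2_le (Pab 4 ⌊Real.exp (Y R r)⌋₊) (Pl_prop _) (Y_nonneg R r) (Pl_le _)
    have h4 := mul_le_mul_of_nonneg_left h3 (hR_pos (good_of_mem_SR hr)).le
    refine h4.trans (le_of_eq ?_)
    ring
  norm_num at h1 h2 ⊢
  linarith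

/-- the sieve sum over primes. -/
lemma sum_G_eq (R η : ℝ) :
    ∑ p ∈ Pr η, wt η p * (2 / ((p : ℝ) - 1)) * G R p = ∑ r ∈ SR R, hR r * KL η (Y R r) := by
  unfold G KL
  simp_rw [Finset.mul_sum]
  rw [Finset.sum_comm]
  refine Finset.sum_congr rfl (fun r _ => Finset.sum_congr rfl (fun p _ => ?_))
  ring

lemma sum_G_le {R η : ℝ} (hR : 1 < R) (hℓη : 2 * Real.log R ≤ η) (hη : 2.02 ≤ η) :
    ∑ p ∈ Pr η, wt η p * (2 / ((p : ℝ) - 1)) * G R p
      ≤ (2 * Real.log (η / Real.log R) + 2 * Real.log 2 - 3 / 2) * M R 2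
      + (5 / 8 * Real.log R + (2 * Real.log 2 + Real.log 3 - 0.02)) * M R 1
      - (3 / 2 / Real.log R - 4 / 3 / η) * M R 3 := by
  rw [sum_G_eq]
  unfold M
  rw [Finset.mul_sum, Finset.mul_sum, Finset.mul_sum, ← Finset.sum_add_distrib,
    ← Finset.sum_sub_distrib]
  refine Finset.sum_le_sum (fun r hr => ?_)
  have hg := good_of_mem_SR hr
  have h1 := KL_le_poly (Real.log_pos hR) (Y_nonneg R r) (Y_le hR.le hg.pos) hℓη hη
  have h2 := mul_le_mul_of_nonneg_left h1 (hR_pos hg).le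
  refine h2.trans (le_of_eq ?_)
  ring

end Pool.Agent.Lib.MP_d610d0_nt
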