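import Mathlib
import Pool.Agent.Lib.MP_d610d0_nt.Mrel

/-!
Bounds for `Z` and `M 0`.
-/

set_option autoImplicit false

namespace Pool.Agent.Lib.MP_d610d0_nt

open Finset MeasureTheory

lemma SR_sum_dvd {R : ℝ} (hRp : 0 < R) {p : ℕ} (hpp : p.Prime) (h5 : 5 ≤ p) (f : ℕ → ℝ) :
    ∑ r ∈ (SR R).filter (fun r => p ∣ r), f r
      = ∑ r ∈ (SR R).filter (fun r => ¬ p ∣ r ∧ ((p * r : ℕ) : ℝ) ≤ R), f (p * r) := by
  symm
  refine Finset.sum_bij (fun r _ => p * r) ?_ ?_ ?_ ?_
  · intro r hr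
    rw [Finset.mem_filter] at hr ⊢
    refine ⟨?_, Dvd.intro _ rfl⟩
    rw [mem_SR hRp.le]
    exact ⟨(good_of_mem_SR hr.1).mul_prime hpp h5 hr.2.1, hr.2.2⟩
  · intro r hr r' hr' h
    exact Nat.eq_of_mul_eq_mul_left hpp.pos h
  · intro r hr
    rw [Finset.mem_filter] at hr
    have hg := good_of_mem_SR hr.1
    obtain ⟨r', rfl, hg', hn⟩ := hg.split hpp hr.2
    have hle := ((mem_SR hRp.le).mp hr.1).2
    refine ⟨r', ?_, rfl⟩
    rw [Finset.mem_filter]
    refine ⟨?_, hn, hle⟩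
    rw [mem_SR hRp.le]
    refine ⟨hg', le_trans ?_ hle⟩
    push_cast
    have : (1 : ℝ) ≤ p := by exact_mod_cast hpp.one_le
    have h0 : (0 : ℝ) ≤ r' := Nat.cast_nonneg _
    nlinarith
  · intro r hr
    rfl

noncomputable def WQ (Q : Finset ℕ) (r : ℕ) : ℝ :=
  hR r * ∏ p ∈ r.primeFactors ∩ Q, (1 + 1 / (p : ℝ))

lemma WQ_nonneg {Q : Finset ℕ} {r : ℕ} (hr : Good r) : 0 ≤ WQ Q r := by
  unfold WQ
  apply mul_nonneg (hR_pos hr).le
  apply Finset.prod_nonneg
  intro p _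
  positivity

lemma sum_WQ {R : ℝ} (hRp : 0 < R) (Q : Finset ℕ) (hQ : ∀ q ∈ Q, q.Prime ∧ 5 ≤ q) :
    ∑ r ∈ SR R, WQ Q r ≤ (∏ q ∈ Q, (1 + hp q / q)) * M R 0 := by
  classical
  induction Q using Finset.induction_on with
  | empty =>
    simp only [Finset.prod_empty, one_mul]
    unfold WQ M
    apply le_of_eq
    refine Finset.sum_congr rfl (fun r _ => ?_)
    simp
  | insert q Q hq ih =>
    have ih' := ih (fun x hx => hQ x (Finset.mem_insert_of_mem hx))
    obtain ⟨hqp, hq5⟩ := hQ q (Finset.mem_insert_self _ _)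
    have hq0 : (0 : ℝ) < q := by exact_mod_cast hqp.pos
    have e1 : ∀ r ∈ SR R, WQ (insert q Q) r = WQ Q r + if q ∣ r then WQ Q r / q else 0 := by
      intro r hr
      have hg := good_of_mem_SR hr
      unfold WQ
      split_ifs with hd
      · have hm : q ∈ r.primeFactors := Nat.mem_primeFactors.mpr ⟨hqp, hd, hg.pos.ne'⟩
        rw [Finset.inter_insert_of_mem hm, Finset.prod_insert
          (fun h => hq (Finset.mem_inter.mp h).2)]
        ring
      · have hm : q ∉ r.primeFactors := fun h => hd (Nat.dvd_of_mem_primeFactors h)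
        rw [Finset.inter_insert_of_notMem hm]
        ring
    rw [Finset.sum_congr rfl e1, Finset.sum_add_distrib, ← Finset.sum_filter,
      SR_sum_dvd hRp hqp hq5]
    have e2 : ∑ r ∈ (SR R).filter (fun r => ¬ q ∣ r ∧ ((q * r : ℕ) : ℝ) ≤ R), WQ Q (q * r) / q
        ≤ ∑ r ∈ SR R, hp q / q * WQ Q r := by
      have e3 : ∀ r ∈ (SR R).filter (fun r => ¬ q ∣ r ∧ ((q * r : ℕ) : ℝ) ≤ R),
          WQ Q (q * r) / q = hp q / q * WQ Q r := by
        intro r hr
        rw [Finset.mem_filter] at hr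
        have hg := good_of_mem_SR hr.1
        unfold WQ
        rw [primeFactors_mul_prime hqp hg.pos.ne', hR_mul_prime hqp hg.pos.ne' hr.2.1,
          Finset.insert_inter_of_notMem hq]
        ring
      rw [Finset.sum_congr rfl e3]
      apply Finset.sum_le_sum_of_subset_of_nonneg (Finset.filter_subset _ _)
      intro r hr _
      exact mul_nonneg (div_nonneg (hp_pos hq5).le hq0.le) (WQ_nonneg (good_of_mem_SR hr))
    rw [← Finset.mul_sum] at e2
    rw [Finset.prod_insert hq]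
    have h0 : 0 ≤ hp q / q := div_nonneg (hp_pos hq5).le hq0.le
    calc ∑ r ∈ SR R, WQ Q r + _ ≤ ∑ r ∈ SR R, WQ Q r + hp q / q * ∑ r ∈ SR R, WQ Q r := by
          linarith
      _ = (1 + hp q / q) * ∑ r ∈ SR R, WQ Q r := by ring
      _ ≤ (1 + hp q / q) * ((∏ q ∈ Q, (1 + hp q / q)) * M R 0) :=
          mul_le_mul_of_nonneg_left ih' (by linarith)
      _ = _ := by ring

lemma Pab_bij (m : ℕ) (f : ℕ → ℝ) (hf : ∀ j, 0 ≤ f j) :
    ∑ p ∈ Pab 4 m, f ((p - 5) / 2) ≤ ∑ j ∈ range m, f j := by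
  have hinj : ∀ x ∈ Pab 4 m, ∀ y ∈ Pab 4 m, (x - 5) / 2 = (y - 5) / 2 → x = y := by
    intro x hx y hy h
    obtain ⟨hx1, _, hx2⟩ := mem_Pab.mp hx
    obtain ⟨hy1, _, hy2⟩ := mem_Pab.mp hy
    have o1 := hx2.eq_two_or_odd
    have o2 := hy2.eq_two_or_odd
    omega
  rw [← Finset.sum_image (f := f) hinj]
  apply Finset.sum_le_sum_of_subset_of_nonneg
  · intro j hj
    rw [Finset.mem_image] at hj
    obtain ⟨p, hp, rfl⟩ := hj
    obtain ⟨h1, h2, h3⟩ := mem_Pab.mp hp
    rw [Finset.mem_range]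
    omega
  · exact fun j _ _ => hf j

lemma Pab_repr {m p : ℕ} (hp : p ∈ Pab 4 m) : ((p : ℕ) : ℝ) = 2 * ((p - 5) / 2 : ℕ) + 5 := by
  obtain ⟨h1, _, h2⟩ := mem_Pab.mp hp
  have o1 := h2.eq_two_or_odd
  have : p = 2 * ((p - 5) / 2) + 5 := by omega
  exact_mod_cast this

lemma sum_hp_div (m : ℕ) : ∑ p ∈ Pab 4 m, hp p / p ≤ 1 / 3 := by
  have h1 : ∑ p ∈ Pab 4 m, hp p / p
      = ∑ p ∈ Pab 4 m, (fun j : ℕ => (2 : ℝ) / ((2 * j + 3) * (2 * j + 5))) ((p - 5) / 2) := by
    refine Finset.sum_congr rfl (fun p hp => ?_)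
    unfold MP_d610d0_nt.hp
    rw [Pab_repr hp]
    have h0 : (0 : ℝ) ≤ ((p - 5) / 2 : ℕ) := Nat.cast_nonneg _
    have h2 : (2 * (((p - 5) / 2 : ℕ) : ℝ) + 3) ≠ 0 := by positivity
    have h3 : (2 * (((p - 5) / 2 : ℕ) : ℝ) + 5) ≠ 0 := by positivity
    have h4 : (2 * (((p - 5) / 2 : ℕ) : ℝ) + 5 - 2) ≠ 0 := by
      have : (2 * (((p - 5) / 2 : ℕ) : ℝ) + 5 - 2) = 2 * (((p - 5) / 2 : ℕ) : ℝ) + 3 := by ring
      rw [this]; exact h2
    rw [show (2 * (((p - 5) / 2 : ℕ) : ℝ) + 5 - 2) = 2 * (((p - 5) / 2 : ℕ) : ℝ) + 3 by ring]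
    field_simp
  rw [h1]
  refine (Pab_bij m (fun j : ℕ => (2 : ℝ) / ((2 * j + 3) * (2 * j + 5)))
    (fun j => by positivity)).trans ?_
  have key : ∀ m : ℕ, ∑ j ∈ range m, (2 : ℝ) / ((2 * j + 3) * (2 * j + 5))
      = 1 / 3 - 1 / (2 * m + 3) := by
    intro m
    induction m with
    | zero => norm_num
    | succ m ih =>
      rw [Finset.sum_range_succ, ih]
      push_cast
      have h2 : (2 * (m : ℝ) + 3) ≠ 0 := by positivity
      have h3 : (2 * (m : ℝ) + 5) ≠ 0 := by positivity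
      have h4 : (2 * ((m : ℝ) + 1) + 3) ≠ 0 := by positivity
      field_simp
      ring
  rw [key]
  have : (0 : ℝ) ≤ 1 / (2 * m + 3) := by positivity
  linarith

lemma sum_cube (m : ℕ) : ∑ p ∈ Pab 4 m, 1 / ((p : ℝ) - 1) ^ 3 ≤ 1 / 32 := by
  have h1 : ∑ p ∈ Pab 4 m, 1 / ((p : ℝ) - 1) ^ 3
      ≤ ∑ p ∈ Pab 4 m, (fun j : ℕ => (1 / 4 : ℝ) * (1 / ((2 * j + 2) * (2 * j + 4))
        - 1 / ((2 * j + 4) * (2 * j + 6)))) ((p - 5) / 2) := by
    refine Finset.sum_le_sum (fun p hp => ?_)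
    rw [Pab_repr hp]
    set x : ℝ := (((p - 5) / 2 : ℕ) : ℝ) with hx
    have h0 : (0 : ℝ) ≤ x := Nat.cast_nonneg _
    have e : (1 / 4 : ℝ) * (1 / ((2 * x + 2) * (2 * x + 4)) - 1 / ((2 * x + 4) * (2 * x + 6)))
        = 1 / ((2 * x + 2) * (2 * x + 4) * (2 * x + 6)) := by
      have h2 : (2 * x + 2) ≠ 0 := by positivity
      have h3 : (2 * x + 4) ≠ 0 := by positivity
      have h4 : (2 * x + 6) ≠ 0 := by positivity
      field_simp
      ring
    simp only
    rw [e]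
    apply one_div_le_one_div_of_le (by positivity)
    have : 2 * x + 5 - 1 = 2 * x + 4 := by ring
    rw [this]
    nlinarith
  refine h1.trans ?_
  refine (Pab_bij m (fun j : ℕ => (1 / 4 : ℝ) * (1 / ((2 * j + 2) * (2 * j + 4))
        - 1 / ((2 * j + 4) * (2 * j + 6)))) (fun j => ?_)).trans ?_
  · have : (1 : ℝ) / ((2 * j + 4) * (2 * j + 6)) ≤ 1 / ((2 * j + 2) * (2 * j + 4)) := by
      apply one_div_le_one_div_of_le (by positivity)
      have : (0 : ℝ) ≤ j := Nat.cast_nonneg _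
      nlinarith
    linarith
  have key : ∀ m : ℕ, ∑ j ∈ range m, (1 / 4 : ℝ) * (1 / ((2 * j + 2) * (2 * j + 4))
        - 1 / ((2 * j + 4) * (2 * j + 6))) = 1 / 32 - 1 / 4 * (1 / ((2 * m + 2) * (2 * m + 4))) := by
    intro m
    induction m with
    | zero => norm_num
    | succ m ih =>
      rw [Finset.sum_range_succ, ih]
      push_cast
      ring_nf
  rw [key]
  have : (0 : ℝ) ≤ 1 / 4 * (1 / ((2 * m + 2) * (2 * m + 4))) := by positivity
  linarith

lemma WR_div_eq {r : ℕ} (hr : Good r) {m : ℕ} (hm : r ≤ m) : WR r / r = WQ (Pab 4 m) r := by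
  unfold WR WQ hR
  have h1 : r.primeFactors ∩ Pab 4 m = r.primeFactors := by
    rw [Finset.inter_eq_left, hr.primeFactors_eq hm]
    exact Finset.filter_subset _ _
  rw [h1, ← Finset.prod_mul_distrib]
  have h2 : (r : ℝ) = ∏ p ∈ r.primeFactors, (p : ℝ) := by
    conv_lhs => rw [← Nat.prod_primeFactors_of_squarefree hr.1]
    push_cast
    rfl
  rw [h2, ← Finset.prod_div_distrib]
  refine Finset.prod_congr rfl (fun p hp => ?_)
  have h5 := hr.five_le hp
  have : (0 : ℝ) < p := by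
    have : (5 : ℝ) ≤ p := by exact_mod_cast h5
    linarith
  field_simp

lemma log_le_div_e {x : ℝ} (hx : 0 < x) : Real.log x ≤ x / Real.exp 1 := by
  have := Real.log_le_sub_one_of_pos (x := x / Real.exp 1) (by positivity)
  rw [Real.log_div hx.ne' (Real.exp_pos 1).ne', Real.log_exp] at this
  linarith

lemma Z_le {R : ℝ} (hR1 : 1 ≤ R) :
    Z R ≤ R * Real.exp (-(2 / 3)) * M R 0 := by
  have hRp : 0 < R := by linarith
  have h1 : Z R ≤ ∑ r ∈ SR R, R / Real.exp 1 * WQ (Pab 4 ⌊R⌋₊) r := by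
    unfold Z
    refine Finset.sum_le_sum (fun r hr => ?_)
    have hg := good_of_mem_SR hr
    have hr0 : (0 : ℝ) < r := by exact_mod_cast hg.pos
    have hle : r ≤ ⌊R⌋₊ := (Finset.mem_Icc.mp (Finset.mem_filter.mp hr).1).2
    rw [← WR_div_eq hg hle]
    have h2 : Y R r ≤ R / r / Real.exp 1 := by
      unfold Y
      exact max_le (by positivity) (log_le_div_e (by positivity))
    calc Y R r * WR r ≤ R / r / Real.exp 1 * WR r :=
          mul_le_mul_of_nonneg_right h2 (WR_pos hg).le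
      _ = _ := by ring
  rw [← Finset.mul_sum] at h1
  have hQ : ∀ q ∈ Pab 4 ⌊R⌋₊, q.Prime ∧ 5 ≤ q := by
    intro q hq
    obtain ⟨h1, _, h2⟩ := mem_Pab.mp hq
    exact ⟨h2, by omega⟩
  have h2 := sum_WQ hRp (Pab 4 ⌊R⌋₊) hQ
  have h3 : ∏ q ∈ Pab 4 ⌊R⌋₊, (1 + hp q / q) ≤ Real.exp (1 / 3) := by
    calc ∏ q ∈ Pab 4 ⌊R⌋₊, (1 + hp q / q) ≤ ∏ q ∈ Pab 4 ⌊R⌋₊, Real.exp (hp q / q) := by
          apply Finset.prod_le_prod
          · intro q hq
            have := (hp_pos (hQ q hq).2).le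
            positivity
          · intro q hq
            have := Real.add_one_le_exp (hp q / q)
            linarith
      _ = Real.exp (∑ q ∈ Pab 4 ⌊R⌋₊, hp q / q) := (Real.exp_sum _ _).symm
      _ ≤ _ := Real.exp_le_exp.mpr (sum_hp_div _)
  have h4 : ∑ r ∈ SR R, WQ (Pab 4 ⌊R⌋₊) r ≤ Real.exp (1 / 3) * M R 0 :=
    h2.trans (mul_le_mul_of_nonneg_right h3 (M_nonneg R 0))
  have h5 : Real.exp (-(2 / 3)) = Real.exp (1 / 3) / Real.exp 1 := by
    rw [← Real.exp_sub]; norm_num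
  calc Z R ≤ R / Real.exp 1 * ∑ r ∈ SR R, WQ (Pab 4 ⌊R⌋₊) r := h1
    _ ≤ R / Real.exp 1 * (Real.exp (1 / 3) * M R 0) :=
        mul_le_mul_of_nonneg_left h4 (by positivity)
    _ = _ := by rw [h5]; ring

lemma M0_le_prod {R : ℝ} : M R 0 ≤ ∏ p ∈ Pab 4 ⌊R⌋₊, (1 + hp p) := by
  classical
  rw [Finset.prod_one_add]
  unfold M
  simp only [pow_zero, mul_one]
  have hinj : ∀ x ∈ SR R, ∀ y ∈ SR R, x.primeFactors = y.primeFactors → x = y := by
    intro x hx y hy h
    have hgx := good_of_mem_SR hx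
    have hgy := good_of_mem_SR hy
    rw [← Nat.prod_primeFactors_of_squarefree hgx.1, ← Nat.prod_primeFactors_of_squarefree hgy.1, h]
  have e : ∑ r ∈ SR R, hR r = ∑ T ∈ (SR R).image Nat.primeFactors, ∏ p ∈ T, hp p := by
    rw [Finset.sum_image hinj]
    rfl
  rw [e]
  apply Finset.sum_le_sum_of_subset_of_nonneg
  · intro T hT
    rw [Finset.mem_image] at hT
    obtain ⟨r, hr, rfl⟩ := hT
    have hg := good_of_mem_SR hr
    have hle : r ≤ ⌊R⌋₊ := (Finset.mem_Icc.mp (Finset.mem_filter.mp hr).1).2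
    rw [Finset.mem_powerset, hg.primeFactors_eq hle]
    exact Finset.filter_subset _ _
  · intro T hT _
    apply Finset.prod_nonneg
    intro p hp
    have := mem_Pab.mp (Finset.mem_powerset.mp hT hp)
    exact (hp_pos (by omega)).le

lemma log_ratio_le {x : ℝ} (hx0 : 0 ≤ x) (hx : x ≤ 1 / 4) :
    Real.log ((1 + x) / (1 - x)) ≤ 2 * x + 3 / 4 * x ^ 3 := by
  set h : ℝ → ℝ := fun x => 2 * x + 3 / 4 * x ^ 3 - (Real.log (1 + x) - Real.log (1 - x)) with hh
  have hder : ∀ y : ℝ, 0 ≤ y → y ≤ 1 / 4 →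
      HasDerivAt h (2 + 9 / 4 * y ^ 2 - 2 / (1 - y ^ 2)) y := by
    intro y hy0 hy1
    have h1 : HasDerivAt (fun x : ℝ => 2 * x + 3 / 4 * x ^ 3) (2 + 3 / 4 * (3 * y ^ 2)) y := by
      have a1 := (hasDerivAt_id y).const_mul (2 : ℝ)
      have a2 := (hasDerivAt_pow 3 y).const_mul (3 / 4 : ℝ)
      have a3 := a1.add a2
      have e : (fun x : ℝ => 2 * x + 3 / 4 * x ^ 3)
          = (fun y => 2 * id y) + (fun y => 3 / 4 * y ^ 3) := by
        funext z; simp
      rw [e]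
      refine a3.congr_deriv ?_
      norm_num
    have h2 : HasDerivAt (fun x : ℝ => Real.log (1 + x)) (1 / (1 + y)) y := by
      have := ((hasDerivAt_id y).const_add 1).log (by simp only [id]; linarith)
      simpa using this
    have h3 : HasDerivAt (fun x : ℝ => Real.log (1 - x)) (-1 / (1 - y)) y := by
      have := ((hasDerivAt_id y).const_sub 1).log (by simp only [id]; linarith)
      simpa using this
    have h4 := h1.sub (h2.sub h3)
    have e : h = (fun x : ℝ => 2 * x + 3 / 4 * x ^ 3)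
        - ((fun x : ℝ => Real.log (1 + x)) - fun x : ℝ => Real.log (1 - x)) := by
      funext z; simp [hh]
    rw [e]
    refine h4.congr_deriv ?_
    have a1 : 1 + y ≠ 0 := by linarith
    have a2 : 1 - y ≠ 0 := by linarith
    have a3 : 1 - y ^ 2 ≠ 0 := by nlinarith
    field_simp
    ring
  have hmono : MonotoneOn h (Set.Icc 0 (1 / 4)) := by
    apply monotoneOn_of_deriv_nonneg (convex_Icc _ _)
    · intro y hy
      exact (hder y hy.1 hy.2).continuousAt.continuousWithinAt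
    · intro y hy
      rw [interior_Icc] at hy
      exact (hder y hy.1.le hy.2.le).differentiableAt.differentiableWithinAt
    · intro y hy
      rw [interior_Icc] at hy
      rw [(hder y hy.1.le hy.2.le).deriv]
      have h1 : 0 < 1 - y ^ 2 := by nlinarith [hy.1, hy.2]
      rw [sub_nonneg, div_le_iff₀ h1]
      have h2 : y ^ 2 ≤ 1 / 16 := by nlinarith [hy.1, hy.2]
      nlinarith [sq_nonneg y]
  have h0 : h 0 = 0 := by simp [hh]
  have := hmono (Set.left_mem_Icc.mpr (by norm_num)) (Set.mem_Icc.mpr ⟨hx0, hx⟩) hx0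
  rw [h0] at this
  simp only [hh] at this
  rw [Real.log_div (by linarith) (by linarith)]
  linarith

lemma log_one_add_hp {p : ℕ} (h5 : 5 ≤ p) :
    Real.log (1 + hp p) ≤ 2 / ((p : ℝ) - 1) + 3 / 4 * (1 / ((p : ℝ) - 1) ^ 3) := by
  have h : (5 : ℝ) ≤ p := by exact_mod_cast h5
  have h1 := log_ratio_le (x := 1 / ((p : ℝ) - 1)) (by apply div_nonneg <;> linarith) (by
    apply one_div_le_one_div_of_le <;> linarith)
  have e : (1 + 1 / ((p : ℝ) - 1)) / (1 - 1 / ((p : ℝ) - 1)) = 1 + hp p := by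
    unfold hp
    have a1 : (p : ℝ) - 1 ≠ 0 := by linarith
    have a2 : (p : ℝ) - 2 ≠ 0 := by linarith
    have a3 : 1 - 1 / ((p : ℝ) - 1) = ((p : ℝ) - 2) / (p - 1) := by field_simp; ring
    rw [a3, div_div_eq_mul_div, div_eq_iff a2]
    field_simp
    ring
  rw [e] at h1
  refine h1.trans (le_of_eq ?_)
  rw [div_pow, one_pow]
  ring

lemma sum_two_div {R : ℝ} (hR5 : 5 ≤ R) :
    ∑ p ∈ Pab 4 ⌊R⌋₊, 2 / ((p : ℝ) - 1)
      ≤ 2 * Real.log (Real.log R) + 2 - 2 * Real.log (Real.log 5) - 2.02 / Real.log 5 := by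
  have hRp : 0 < R := by linarith
  have hl5 := Real.log_five_gt_d9
  have hℓ : Real.log 5 ≤ Real.log R := Real.log_le_log (by norm_num) hR5
  have hℓ0 : 0 < Real.log R := by linarith
  set P := Pab 4 ⌊R⌋₊ with hP
  have hPp : ∀ p ∈ P, p.Prime ∧ 5 ≤ p := by
    intro q hq
    obtain ⟨h1, _, h2⟩ := mem_Pab.mp hq
    exact ⟨h2, by omega⟩
  have hPle : ∀ p ∈ P, lg p ≤ Real.log R := by
    intro p hp
    obtain ⟨_, h1, h2⟩ := mem_Pab.mp hp
    apply Real.log_le_log (by exact_mod_cast h2.pos)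
    exact (Nat.le_floor_iff hRp.le).mp h1
  have h1 := layer P ca lg hℓ (fun u => 1 / u ^ 2) (by
    apply ContinuousOn.div continuousOn_const (by fun_prop)
    intro x hx
    have : 0 < x := by linarith [hx.1]
    positivity)
  have h2 : ∑ p ∈ P, 2 / ((p : ℝ) - 1)
      = aF P ca lg (Real.log R) / Real.log R
        + ∫ u in (Real.log 5)..(Real.log R), 1 / u ^ 2 * aF P ca lg u := by
    rw [h1.2]
    unfold aF
    rw [Finset.sum_div, ← Finset.sum_add_distrib]
    refine Finset.sum_congr rfl (fun p hp => ?_)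
    have h3 := hPle p hp
    have h5 := (hPp p hp).2
    have h4 := five_le_lg h5
    rw [if_pos h3, if_pos h3, max_eq_left h4]
    have h6 := int_inv_sq (a := lg p) (by linarith) h3 1
    rw [h6]
    have h7 : ca p = 2 / ((p : ℝ) - 1) * lg p := by unfold ca lg; ring
    rw [h7]
    have h8 : lg p ≠ 0 := by linarith
    field_simp
    ring
  rw [h2]
  have h3 : aF P ca lg (Real.log R) / Real.log R ≤ 2 - 2.02 / Real.log R := by
    have := aFa_le P hPp (Real.log R)
    rw [max_eq_right (by linarith)] at this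
    rw [div_le_iff₀ hℓ0]
    have e : (2 - 2.02 / Real.log R) * Real.log R = 2 * Real.log R - 2.02 := by
      field_simp
    rw [e]; exact this
  have h4 : ∫ u in (Real.log 5)..(Real.log R), 1 / u ^ 2 * aF P ca lg u
      ≤ ∫ u in (Real.log 5)..(Real.log R), (2 / u - 2.02 / u ^ 2) := by
    apply intervalIntegral.integral_mono_on hℓ h1.1
    · apply ContinuousOn.intervalIntegrable
      rw [Set.uIcc_of_le hℓ]
      apply ContinuousOn.sub
      · apply ContinuousOn.div continuousOn_const (by fun_prop)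
        intro x hx
        linarith [hx.1]
      · apply ContinuousOn.div continuousOn_const (by fun_prop)
        intro x hx
        have : 0 < x := by linarith [hx.1]
        positivity
    · intro u hu
      have hu0 : 0 < u := by linarith [hu.1]
      have h2 := aFa_le P hPp u
      have h3 : max 0 (2 * u - 2.02) = 2 * u - 2.02 := max_eq_right (by linarith [hu.1])
      rw [h3] at h2
      have : 1 / u ^ 2 * aF P ca lg u ≤ 1 / u ^ 2 * (2 * u - 2.02) :=
        mul_le_mul_of_nonneg_left h2 (by positivity)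
      refine this.trans (le_of_eq ?_)
      field_simp
  have h5 : ∫ u in (Real.log 5)..(Real.log R), (2 / u - 2.02 / u ^ 2)
      = 2 * Real.log (Real.log R / Real.log 5) - 2.02 * (1 / Real.log 5 - 1 / Real.log R) := by
    rw [intervalIntegral.integral_sub, int_inv (by linarith) hℓ, int_inv_sq (by linarith) hℓ]
    · apply ContinuousOn.intervalIntegrable
      rw [Set.uIcc_of_le hℓ]
      apply ContinuousOn.div continuousOn_const (by fun_prop)
      intro x hx
      linarith [hx.1]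
    · apply ContinuousOn.intervalIntegrable
      rw [Set.uIcc_of_le hℓ]
      apply ContinuousOn.div continuousOn_const (by fun_prop)
      intro x hx
      have : 0 < x := by linarith [hx.1]
      positivity
  have h6 : Real.log (Real.log R / Real.log 5)
      = Real.log (Real.log R) - Real.log (Real.log 5) := by
    rw [Real.log_div hℓ0.ne' (by linarith)]
  rw [h5, h6] at h4
  have e1 : 2.02 * (1 / Real.log 5 - 1 / Real.log R)
      = 2.02 / Real.log 5 - 2.02 / Real.log R := by ring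
  rw [e1] at h4
  linarith

lemma loglog5 : 0.4758 ≤ Real.log (Real.log 5) := by
  have h1 := Real.log_five_gt_d9
  have h2 := Real.log_five_lt_d9
  have h3 := Real.log_two_gt_d9
  have h4 := Real.one_sub_inv_le_log_of_pos (x := Real.log 5 / 1.6) (by positivity)
  rw [Real.log_div (by positivity) (by norm_num)] at h4
  have h5 : Real.log 1.6 = 3 * Real.log 2 - Real.log 5 := by
    rw [show (1.6 : ℝ) = 2 ^ 3 / 5 by norm_num, Real.log_div (by norm_num) (by norm_num),
      Real.log_pow]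
    norm_num
  rw [h5] at h4
  have h6 : (Real.log 5 / 1.6)⁻¹ ≤ 0.9942 := by
    rw [inv_div, div_le_iff₀ (by positivity)]
    linarith
  linarith

lemma M0_le {R : ℝ} (hR5 : 5 ≤ R) : M R 0 ≤ 0.84 * (Real.log R) ^ 2 := by
  have hl5 := Real.log_five_gt_d9
  have hl5' := Real.log_five_lt_d9
  have hℓ : Real.log 5 ≤ Real.log R := Real.log_le_log (by norm_num) hR5
  have hℓ0 : 0 < Real.log R := by linarith
  set P := Pab 4 ⌊R⌋₊ with hP
  have hPp : ∀ p ∈ P, 5 ≤ p := by
    intro q hq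
    obtain ⟨h1, _, h2⟩ := mem_Pab.mp hq
    omega
  have hpos : ∀ p ∈ P, 0 < 1 + hp p := fun p hp => by
    have := hp_pos (hPp p hp)
    linarith
  have h1 : Real.log (∏ p ∈ P, (1 + hp p)) ≤ 2 * Real.log (Real.log R) - 0.18 := by
    rw [Real.log_prod (fun p hp => (hpos p hp).ne')]
    calc ∑ p ∈ P, Real.log (1 + hp p)
        ≤ ∑ p ∈ P, (2 / ((p : ℝ) - 1) + 3 / 4 * (1 / ((p : ℝ) - 1) ^ 3)) :=
          Finset.sum_le_sum (fun p hp => log_one_add_hp (hPp p hp))
      _ = ∑ p ∈ P, 2 / ((p : ℝ) - 1) + 3 / 4 * ∑ p ∈ P, 1 / ((p : ℝ) - 1) ^ 3 := by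
          rw [Finset.sum_add_distrib, ← Finset.mul_sum]
      _ ≤ (2 * Real.log (Real.log R) + 2 - 2 * Real.log (Real.log 5) - 2.02 / Real.log 5)
            + 3 / 4 * (1 / 32) := by
          have := sum_two_div hR5
          have := sum_cube ⌊R⌋₊
          linarith
      _ ≤ _ := by
          have := loglog5
          have h6 : 1.255 ≤ 2.02 / Real.log 5 := by
            rw [le_div_iff₀ (by linarith)]
            linarith
          linarith
  have h2 : (0 : ℝ) < ∏ p ∈ P, (1 + hp p) := Finset.prod_pos hpos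
  have h3 : ∏ p ∈ P, (1 + hp p) ≤ Real.exp (2 * Real.log (Real.log R) - 0.18) := by
    rw [← Real.log_le_iff_le_exp h2]
    exact h1
  have h4 : Real.exp (2 * Real.log (Real.log R) - 0.18)
      = (Real.log R) ^ 2 * (Real.exp 0.18)⁻¹ := by
    rw [sub_eq_add_neg, Real.exp_add, Real.exp_neg]
    congr 1
    rw [two_mul, Real.exp_add, Real.exp_log hℓ0]
    ring
  have h5 : (Real.exp 0.18)⁻¹ ≤ 0.84 := by
    have := Real.quadratic_le_exp_of_nonneg (x := (0.18 : ℝ)) (by norm_num)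
    rw [inv_le_comm₀ (Real.exp_pos _) (by norm_num)]
    refine le_trans ?_ this
    norm_num
  have h6 := M0_le_prod (R := R)
  rw [h4] at h3
  have h7 : (Real.log R) ^ 2 * (Real.exp 0.18)⁻¹ ≤ (Real.log R) ^ 2 * 0.84 :=
    mul_le_mul_of_nonneg_left h5 (by positivity)
  linarith

end Pool.Agent.Lib.MP_d610d0_nt
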