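import Mathlib

/-!
Kernel computation for small `n`.
-/

set_option autoImplicit false

namespace Pool.Agent.Lib.MP_d610d0_nt

open Finset
open scoped ArithmeticFunction.Omega

/-- the product of the primes below `191`. -/
def P190 : ℕ := 5397346292805549782720214077673687806275517530364350655459511599582614290

def okm (m : ℕ) : Bool := Nat.gcd (m * (m + 2)) P190 == 1

def srch1 : ℕ → ℕ → ℕ → Bool
  | 0, _, _ => false
  | f + 1, m, hi => if okm m then Nat.blt (m + 2) hi else srch1 f (m + 6) hi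

def srch2 : ℕ → ℕ → ℕ → Bool
  | 0, _, _ => false
  | f + 1, m, hi => if okm m then srch1 f (m + 6) hi else srch2 f (m + 6) hi

def chk : ℕ → Bool
  | 0 => true
  | k + 1 => srch2 400 (6 * (((k + 6) ^ 3 + 1) / 6) + 5) ((k + 7) ^ 3) && chk k

lemma srch1_spec (f : ℕ) : ∀ m hi, srch1 f m hi = true → ∃ x, m ≤ x ∧ okm x = true ∧ x + 2 < hi := by
  induction f with
  | zero => intro m hi h; simp [srch1] at h
  | succ f ih =>
    intro m hi h
    unfold srch1 at h
    split_ifs at h with hc
    · exact ⟨m, le_rfl, hc, by simpa [Nat.blt_eq] using h⟩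
    · obtain ⟨x, h1, h2, h3⟩ := ih _ _ h
      exact ⟨x, by omega, h2, h3⟩

lemma srch2_spec (f : ℕ) : ∀ m hi, srch2 f m hi = true →
    ∃ x y, m ≤ x ∧ x < y ∧ okm x = true ∧ okm y = true ∧ y + 2 < hi := by
  induction f with
  | zero => intro m hi h; simp [srch2] at h
  | succ f ih =>
    intro m hi h
    unfold srch2 at h
    split_ifs at h with hc
    · obtain ⟨y, h1, h2, h3⟩ := srch1_spec _ _ _ h
      exact ⟨m, y, le_rfl, by omega, hc, h2, h3⟩
    · obtain ⟨x, y, h1, h2, h3⟩ := ih _ _ h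
      exact ⟨x, y, by omega, h2, h3⟩

lemma chk_spec (K : ℕ) (h : chk K = true) : ∀ k, k < K →
    srch2 400 (6 * (((k + 6) ^ 3 + 1) / 6) + 5) ((k + 7) ^ 3) = true := by
  induction K with
  | zero => intro k hk; omega
  | succ K ih =>
    unfold chk at h
    rw [Bool.and_eq_true] at h
    intro k hk
    rcases Nat.lt_succ_iff_lt_or_eq.mp hk with h1 | h1
    · exact ih h.2 k h1
    · rw [h1]; exact h.1

set_option maxRecDepth 100000 in
lemma chk_true : chk 1091 = true := by decide +kernel

def pchk : Bool := (List.range 191).all (fun p => Nat.blt p 2 || P190 % p == 0 ||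
  (List.range p).any (fun d => Nat.blt 1 d && p % d == 0))

lemma pchk_true : pchk = true := by decide +kernel

lemma prime_dvd_P {p : ℕ} (hp : p.Prime) (h : p < 191) : p ∣ P190 := by
  have h1 := pchk_true
  unfold pchk at h1
  rw [List.all_eq_true] at h1
  have h2 := h1 p (List.mem_range.mpr h)
  simp only [Bool.or_eq_true, Nat.blt_eq, beq_iff_eq, List.any_eq_true, List.mem_range,
    Bool.and_eq_true] at h2
  rcases h2 with (h2 | h2) | ⟨d, hd, hd1, hd2⟩
  · exact absurd hp.two_le (by omega)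
  · exact Nat.dvd_of_mod_eq_zero h2
  · exfalso
    rcases hp.eq_one_or_self_of_dvd d (Nat.dvd_of_mod_eq_zero hd2) with h3 | h3 <;> omega

lemma Omega_le_of_rough {N z k : ℕ} (hN : N ≠ 0) (hz : 1 < z)
    (h : ∀ p : ℕ, p.Prime → p ∣ N → z ≤ p) (hlt : N < z ^ (k + 1)) : Ω N ≤ k := by
  rw [ArithmeticFunction.cardFactors_apply]
  have h1 : z ^ N.primeFactorsList.length ≤ N.primeFactorsList.prod := by
    apply List.pow_card_le_prod
    intro p hp
    exact h p (Nat.prime_of_mem_primeFactorsList hp) (Nat.dvd_of_mem_primeFactorsList hp)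
  rw [Nat.prod_primeFactorsList hN] at h1
  have h2 := h1.trans_lt hlt
  have h3 := (Nat.pow_lt_pow_iff_right hz).mp h2
  omega

lemma okm_Omega {m : ℕ} (hm : okm m = true) (hm2 : m + 2 ≤ 1097 ^ 3) (h0 : 0 < m) :
    Ω (m * (m + 2)) ≤ 7 := by
  unfold okm at hm
  rw [beq_iff_eq] at hm
  apply Omega_le_of_rough (z := 191) (by positivity) (by norm_num)
  · intro p hp hd
    by_contra hlt
    push Not at hlt
    have h1 := Nat.dvd_gcd hd (prime_dvd_P hp hlt)
    rw [hm] at h1
    exact hp.one_lt.ne' (Nat.dvd_one.mp h1)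
  · calc m * (m + 2) ≤ 1097 ^ 3 * 1097 ^ 3 := Nat.mul_le_mul (by omega) hm2
      _ < 191 ^ (7 + 1) := by norm_num

lemma twin_Omega {p : ℕ} (h1 : p.Prime) (h2 : (p + 2).Prime) : Ω (p * (p + 2)) ≤ 7 := by
  rw [ArithmeticFunction.cardFactors_mul h1.ne_zero h2.ne_zero,
    ArithmeticFunction.cardFactors_apply_prime h1, ArithmeticFunction.cardFactors_apply_prime h2]
  norm_num

/-- the small cases. -/
theorem base_two {n : ℕ} (h1 : 1 ≤ n) (h2 : n ≤ 1096) :
    ∃ x y : ℕ, x < y ∧ n ^ 3 < x ∧ y + 2 < (n + 1) ^ 3 ∧ Ω (x * (x + 2)) ≤ 7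
      ∧ Ω (y * (y + 2)) ≤ 7 := by
  rcases Nat.lt_or_ge n 6 with h | h
  · interval_cases n
    · exact ⟨3, 5, by norm_num, by norm_num, by norm_num, twin_Omega (by norm_num) (by norm_num),
        twin_Omega (by norm_num) (by norm_num)⟩
    · exact ⟨11, 17, by norm_num, by norm_num, by norm_num, twin_Omega (by norm_num) (by norm_num),
        twin_Omega (by norm_num) (by norm_num)⟩
    · exact ⟨29, 41, by norm_num, by norm_num, by norm_num, twin_Omega (by norm_num) (by norm_num),
        twin_Omega (by norm_num) (by norm_num)⟩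
    · exact ⟨71, 101, by norm_num, by norm_num, by norm_num, twin_Omega (by norm_num) (by norm_num),
        twin_Omega (by norm_num) (by norm_num)⟩
    · exact ⟨137, 149, by norm_num, by norm_num, by norm_num,
        twin_Omega (by norm_num) (by norm_num), twin_Omega (by norm_num) (by norm_num)⟩
  · have h3 := chk_spec 1091 chk_true (n - 6) (by omega)
    have e1 : n - 6 + 6 = n := by omega
    have e2 : n - 6 + 7 = n + 1 := by omega
    rw [e1, e2] at h3
    obtain ⟨x, y, hx, hxy, hox, hoy, hy⟩ := srch2_spec _ _ _ h3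
    have h4 : (n + 1) ^ 3 ≤ 1097 ^ 3 := Nat.pow_le_pow_left (by omega) 3
    have h5 : n ^ 3 < x := by omega
    refine ⟨x, y, hxy, h5, hy, okm_Omega hox (by omega) (by omega), okm_Omega hoy (by omega) (by omega)⟩

end Pool.Agent.Lib.MP_d610d0_nt
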