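import Mathlib
import Pool.Agent.Lib.MP_d610d0_nt.Kb

/-!
Bound for `∑_{p} (1 / log p - 1 / η)`.
-/

set_option autoImplicit false

namespace Pool.Agent.Lib.MP_d610d0_nt

open Finset

lemma sum_log_div_sqrt {m : ℕ} (hm : 1 ≤ m) :
    ∑ p ∈ Pab 0 m, Real.log p * (1 / Real.sqrt p) ≤ 2.24 * Real.sqrt m := by
  have h := abel_bound 0 (fun k => 1 / Real.sqrt k) (fun k => -2 * Real.sqrt k)
    (fun k _ => by positivity)
    (fun k hk => by
      apply one_div_le_one_div_of_le
      · exact Real.sqrt_pos.mpr (by exact_mod_cast hk)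
      · apply Real.sqrt_le_sqrt
        push_cast
        linarith)
    (fun k hk => by
      have h1 : (0 : ℝ) < k := by exact_mod_cast hk
      have h2 : 0 < Real.sqrt k := Real.sqrt_pos.mpr h1
      have h3 : Real.sqrt k ≤ Real.sqrt (k + 1) := Real.sqrt_le_sqrt (by linarith)
      have h4 : Real.sqrt (k + 1) ^ 2 = k + 1 := Real.sq_sqrt (by linarith)
      have h5 : Real.sqrt k ^ 2 = k := Real.sq_sqrt h1.le
      push_cast
      rw [div_le_iff₀ (by linarith)]
      nlinarith)
    m (by omega)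
  have h1 : ((0 : ℕ) : ℝ) + 1 = 1 := by norm_num
  simp only [zero_add, Nat.cast_one, Real.sqrt_one, Nat.cast_zero] at h
  refine h.trans ?_
  norm_num
  linarith

/-- the constant `C'`. -/
noncomputable def Cp (η : ℝ) : ℝ := 1 / (Real.exp 1 * (1 / 2 - 4 / η))

noncomputable def PhiB (η : ℝ) : ℝ :=
  2.24 * Cp η / η ^ 3 * Real.exp η + 0.63 * Real.exp (η / 2)

lemma Cp_pos {η : ℝ} (hη : 8 < η) : 0 < Cp η := by
  unfold Cp
  have h1 : 4 / η < 1 / 2 := by rw [div_lt_iff₀ (by linarith)]; linarith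
  have h2 : 0 < 1 / 2 - 4 / η := by linarith
  have := Real.exp_pos 1
  positivity

lemma g_bound {η v : ℝ} (hη : 8 < η) (hv : η / 2 ≤ v) (hv2 : v ≤ η) :
    1 / v - 1 / η ≤ Cp η * Real.exp (η / 2) / η ^ 3 * (v * Real.exp (-(v / 2))) := by
  have hη0 : 0 < η := by linarith
  have hv0 : 0 < v := by linarith
  have h1 : 4 / η < 1 / 2 := by rw [div_lt_iff₀ hη0]; linarith
  set κ := 1 / 2 - 4 / η with hκ
  have hκ0 : 0 < κ := by linarith
  set s := η - v with hs
  have hs0 : 0 ≤ s := by linarith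
  have hs1 : s ≤ η / 2 := by linarith
  -- `s ≤ C' exp (κ s)`
  have h2 : s ≤ Cp η * Real.exp (κ * s) := by
    have h3 := Real.add_one_le_exp (κ * s - 1)
    have h4 : Real.exp (κ * s - 1) = Real.exp (κ * s) / Real.exp 1 := Real.exp_sub _ _
    rw [h4] at h3
    have h5 : κ * s ≤ Real.exp (κ * s) / Real.exp 1 := by linarith
    unfold Cp
    rw [← hκ]
    have he := Real.exp_pos 1
    rw [le_div_iff₀ he] at h5
    rw [one_div, inv_mul_eq_div, le_div_iff₀ (by positivity)]
    linarith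
  -- `exp (-2 s / η) ≤ v / η`
  have h3 : Real.exp (-(2 * s / η)) ≤ v / η := by
    have h4 := Real.add_one_le_exp (2 * s / η)
    rw [Real.exp_neg, inv_le_comm₀ (Real.exp_pos _) (by positivity), inv_div]
    refine le_trans ?_ h4
    rw [div_le_iff₀ hv0]
    have : v = η - s := by rw [hs]; ring
    rw [this]
    have h6 : (2 * s / η + 1) * (η - s) = η + s - 2 * s ^ 2 / η := by
      field_simp
      ring
    rw [h6]
    have h7 : 2 * s ^ 2 / η ≤ s := by
      rw [div_le_iff₀ hη0]
      nlinarith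
    linarith
  have h4 : Real.exp (-(4 * s / η)) ≤ (v / η) ^ 2 := by
    have : Real.exp (-(4 * s / η)) = Real.exp (-(2 * s / η)) ^ 2 := by
      rw [← Real.exp_nat_mul]
      congr 1
      push_cast
      ring
    rw [this]
    exact pow_le_pow_left₀ (Real.exp_pos _).le h3 2
  -- combine: `s * exp (-s/2) ≤ C' (v/η)^2`
  have h5 : s * Real.exp (-(s / 2)) ≤ Cp η * (v / η) ^ 2 := by
    calc s * Real.exp (-(s / 2)) ≤ Cp η * Real.exp (κ * s) * Real.exp (-(s / 2)) :=
          mul_le_mul_of_nonneg_right h2 (Real.exp_pos _).le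
      _ = Cp η * Real.exp (-(4 * s / η)) := by
          rw [mul_assoc, ← Real.exp_add]
          congr 2
          rw [hκ]
          ring
      _ ≤ _ := mul_le_mul_of_nonneg_left h4 (Cp_pos hη).le
  have h6 : 1 / v - 1 / η = s / (v * η) := by
    rw [hs]; field_simp
  have h7 : Real.exp (η / 2) * Real.exp (-(v / 2)) = Real.exp (s / 2) := by
    rw [← Real.exp_add]; congr 1; rw [hs]; ring
  have h8 : Cp η * Real.exp (η / 2) / η ^ 3 * (v * Real.exp (-(v / 2)))
      = Cp η * (v / η) ^ 2 * Real.exp (s / 2) / (v * η) := by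
    rw [← h7]
    field_simp
  rw [h6, h8]
  apply div_le_div_of_nonneg_right _ (by positivity)
  calc s = s * Real.exp (-(s / 2)) * Real.exp (s / 2) := by
        rw [mul_assoc, ← Real.exp_add]
        simp
    _ ≤ _ := mul_le_mul_of_nonneg_right h5 (Real.exp_pos _).le

lemma phi_bound {η : ℝ} (hη : 8 < η) :
    ∑ p ∈ Pr η, (1 / Real.log p - 1 / η) ≤ PhiB η := by
  have hη0 : 0 < η := by linarith
  have hexp1 : 1 ≤ Real.exp η := Real.one_le_exp hη0.le
  rw [← Finset.sum_filter_add_sum_filter_not (Pr η) (fun p => η / 2 ≤ Real.log p)]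
  unfold PhiB
  apply add_le_add
  · have h1 : ∀ p ∈ (Pr η).filter (fun p : ℕ => η / 2 ≤ Real.log p),
        1 / Real.log p - 1 / η
          ≤ Cp η * Real.exp (η / 2) / η ^ 3 * (Real.log p * (1 / Real.sqrt p)) := by
      intro p hp
      rw [Finset.mem_filter] at hp
      obtain ⟨hpp, h5, hlt⟩ := mem_Pr.mp hp.1
      have hp0 : (0 : ℝ) < p := by exact_mod_cast hpp.pos
      have h2 := g_bound hη hp.2 hlt.le
      have h3 : Real.exp (-(Real.log p / 2)) = 1 / Real.sqrt p := by
        rw [Real.exp_neg, Real.sqrt_eq_rpow, Real.rpow_def_of_pos hp0, one_div]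
        congr 2
        ring
      rw [h3] at h2
      exact h2
    refine (Finset.sum_le_sum h1).trans ?_
    rw [← Finset.mul_sum]
    have h2 : ∑ p ∈ (Pr η).filter (fun p : ℕ => η / 2 ≤ Real.log p),
          Real.log p * (1 / Real.sqrt p)
        ≤ ∑ p ∈ Pab 0 ⌊Real.exp η⌋₊, Real.log p * (1 / Real.sqrt p) := by
      apply Finset.sum_le_sum_of_subset_of_nonneg
      · intro p hp
        rw [Finset.mem_filter] at hp
        obtain ⟨hpp, h5, hlt⟩ := mem_Pr.mp hp.1
        exact mem_Pab.mpr ⟨hpp.pos, (log_le_iff hpp.pos η).mp hlt.le, hpp⟩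
      · intro p _ _
        have := Real.log_natCast_nonneg p
        positivity
    have h3 := sum_log_div_sqrt (m := ⌊Real.exp η⌋₊) (by
      rw [Nat.one_le_floor_iff]; exact hexp1)
    have h4 : Real.sqrt ((⌊Real.exp η⌋₊ : ℕ) : ℝ) ≤ Real.exp (η / 2) := by
      rw [Real.sqrt_le_left (Real.exp_pos _).le, ← Real.exp_nat_mul]
      refine (Nat.floor_le (Real.exp_pos _).le).trans (le_of_eq ?_)
      congr 1
      push_cast
      ring
    have hC := Cp_pos hη
    calc Cp η * Real.exp (η / 2) / η ^ 3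
          * ∑ p ∈ (Pr η).filter (fun p : ℕ => η / 2 ≤ Real.log p), Real.log p * (1 / Real.sqrt p)
        ≤ Cp η * Real.exp (η / 2) / η ^ 3 * (2.24 * Real.exp (η / 2)) := by
          apply mul_le_mul_of_nonneg_left _ (by positivity)
          linarith
      _ = 2.24 * Cp η / η ^ 3 * Real.exp η := by
          have : Real.exp η = Real.exp (η / 2) * Real.exp (η / 2) := by
            rw [← Real.exp_add]; congr 1; ring
          rw [this]; ring
  · have h1 : ∀ p ∈ (Pr η).filter (fun p : ℕ => ¬ η / 2 ≤ Real.log p),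
        1 / Real.log p - 1 / η ≤ 0.63 := by
      intro p hp
      rw [Finset.mem_filter] at hp
      obtain ⟨hpp, h5, hlt⟩ := mem_Pr.mp hp.1
      have h2 := five_le_lg h5
      unfold lg at h2
      have h3 := Real.log_five_gt_d9
      have h4 : 1 / Real.log p ≤ 1 / 1.6 := by
        apply one_div_le_one_div_of_le (by norm_num)
        linarith
      have h6 : 0 ≤ 1 / η := by positivity
      linarith
    refine (Finset.sum_le_sum h1).trans ?_
    rw [Finset.sum_const, nsmul_eq_mul, mul_comm]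
    apply mul_le_mul_of_nonneg_left _ (by norm_num)
    have h2 : (Pr η).filter (fun p : ℕ => ¬ η / 2 ≤ Real.log p) ⊆ Finset.Icc 1 ⌊Real.exp (η / 2)⌋₊ := by
      intro p hp
      rw [Finset.mem_filter] at hp
      obtain ⟨hpp, h5, hlt⟩ := mem_Pr.mp hp.1
      rw [Finset.mem_Icc]
      refine ⟨hpp.pos, ?_⟩
      have := hp.2
      push Not at this
      exact (log_le_iff hpp.pos _).mp this.le
    have h3 := Finset.card_le_card h2
    rw [Nat.card_Icc] at h3
    have h4 : (((Pr η).filter (fun p : ℕ => ¬ η / 2 ≤ Real.log p)).card : ℝ)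
        ≤ (⌊Real.exp (η / 2)⌋₊ : ℝ) := by
      have : ((Pr η).filter (fun p : ℕ => ¬ η / 2 ≤ Real.log p)).card ≤ ⌊Real.exp (η / 2)⌋₊ := by
        omega
      exact_mod_cast this
    exact h4.trans (Nat.floor_le (Real.exp_pos _).le)

/-- the exponent cut off. -/
noncomputable def Kp (l : ℝ) (p : ℕ) : ℕ := ⌊l / Real.log p⌋₊

lemma Kp_spec {l : ℝ} {p t : ℕ} (hpp : p.Prime) (hl : Real.log (F t) ≤ l) :
    (F t).factorization p ≤ Kp l p := by
  unfold Kp
  have hlog : 0 < Real.log p := Real.log_pos (by exact_mod_cast hpp.one_lt)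
  apply Nat.le_floor
  rw [le_div_iff₀ hlog, ← Real.log_pow]
  refine le_trans ?_ hl
  apply Real.log_le_log
  · have := hpp.pos
    positivity
  · exact_mod_cast Nat.ordProj_le p (F_ne_zero t)

lemma sum_wt_Kp {η l : ℝ} (hη : 8 < η) (hl : 0 ≤ l) (Q : Finset ℕ) (hQ : Q ⊆ Pr η) :
    ∑ p ∈ Q, wt η p * Kp l p ≤ l * PhiB η := by
  have hη0 : 0 < η := by linarith
  have h1 : ∑ p ∈ Q, wt η p * Kp l p ≤ ∑ p ∈ Pr η, wt η p * Kp l p := by
    apply Finset.sum_le_sum_of_subset_of_nonneg hQ
    intro p hp _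
    exact mul_nonneg (wt_nonneg hη0 hp) (Nat.cast_nonneg _)
  have h2 : ∑ p ∈ Pr η, wt η p * Kp l p ≤ ∑ p ∈ Pr η, l * (1 / Real.log p - 1 / η) := by
    refine Finset.sum_le_sum (fun p hp => ?_)
    obtain ⟨hpp, h5, hlt⟩ := mem_Pr.mp hp
    have hlog := log_pos_of_five h5
    have h3 : (Kp l p : ℝ) ≤ l / Real.log p := Nat.floor_le (by positivity)
    calc wt η p * Kp l p ≤ wt η p * (l / Real.log p) :=
          mul_le_mul_of_nonneg_left h3 (wt_nonneg hη0 hp)
      _ = _ := by
          unfold wt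
          field_simp
  rw [← Finset.mul_sum] at h2
  exact h1.trans (h2.trans (mul_le_mul_of_nonneg_left (phi_bound hη) hl))

end Pool.Agent.Lib.MP_d610d0_nt
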