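import Mathlib
import Pool.Agent.Lib.MP_d610d0_nt.Zb
import Pool.Agent.Lib.MP_d610d0_nt.Phi

/-!
The main inequality for large `n`.
-/

set_option autoImplicit false

namespace Pool.Agent.Lib.MP_d610d0_nt

open Finset

lemma M1_le {R : ℝ} (hR : 13.3 ≤ Real.log R) (hR1 : 1 ≤ R) :
    (Real.log R + 1.136) * M R 1 ≤ 2 * M R 2 := by
  have h0 := rel0 hR1
  have h1 := rel1 hR1
  have hM1 := M_nonneg R 1
  set ℓ := Real.log R
  have h2 : M R 0 ≤ 3 / 13.3 * M R 1 := by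
    have hM0 := M_nonneg R 0
    have : 13.3 * M R 0 ≤ 3 * M R 1 := le_trans (mul_le_mul_of_nonneg_right hR hM0) h0
    linarith
  nlinarith

lemma M3_ge {R : ℝ} (hR : 13.3 ≤ Real.log R) (hR1 : 1 ≤ R) :
    0.6 * (Real.log R + 1.1168) * M R 2 ≤ M R 3 := by
  have h1 := M1_le hR hR1
  have h2 := rel2 hR1
  have hM1 := M_nonneg R 1
  have hM2 := M_nonneg R 2
  set ℓ := Real.log R
  have h3 : M R 1 ≤ 0.13855 * M R 2 := by
    have : (13.3 + 1.136) * M R 1 ≤ 2 * M R 2 :=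
      le_trans (mul_le_mul_of_nonneg_right (by linarith) hM1) h1
    linarith
  nlinarith

lemma log_three_gt : 1.09861 ≤ Real.log 3 := by
  have := Real.log_three_gt_d9
  linarith

lemma log_three_lt : Real.log 3 ≤ 1.09862 := by
  have := Real.log_three_lt_d9
  linarith

lemma S_bound {R η c : ℝ} (hR : 13.3 ≤ Real.log R) (hR1 : 1 < R) (hη : η = 27 / 8 * Real.log R)
    (hc : 3.51 ≤ c * Real.log R + c * 1.136 + 0.7403) :
    ∑ p ∈ Pr η, wt η p * (2 / ((p : ℝ) - 1)) * G R p ≤ (2.9063 + c) * M R 2 := by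
  have h1 := sum_G_le (R := R) (η := η) hR1 (by rw [hη]; linarith) (by rw [hη]; linarith)
  have h2 := M1_le hR hR1.le
  have h3 := M3_ge hR hR1.le
  have hM1 := M_nonneg R 1
  have hM2 := M_nonneg R 2
  have hM3 := M_nonneg R 3
  refine h1.trans ?_
  set ℓ := Real.log R with hℓ
  have hℓ0 : 0 < ℓ := by linarith
  have e1 : Real.log (η / ℓ) = 3 * Real.log 3 - 3 * Real.log 2 := by
    rw [hη]
    have : 27 / 8 * ℓ / ℓ = (3 / 2) ^ 3 := by field_simp; norm_num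
    rw [this, Real.log_pow, Real.log_div (by norm_num) (by norm_num)]
    push_cast
    ring
  have e2 : 3 / 2 / ℓ - 4 / 3 / η = 179 / 162 / ℓ := by
    rw [hη]; field_simp; norm_num
  rw [e1, e2]
  have l2 := Real.log_two_gt_d9
  have l2' := Real.log_two_lt_d9
  have l3 := log_three_gt
  have l3' := log_three_lt
  have c1 : 2 * (3 * Real.log 3 - 3 * Real.log 2) + 2 * Real.log 2 - 3 / 2 ≤ 2.3192 := by
    linarith
  have c2 : 2 * Real.log 2 + Real.log 3 - 0.02 ≤ 2.465 := by linarith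
  have a1 : (2 * (3 * Real.log 3 - 3 * Real.log 2) + 2 * Real.log 2 - 3 / 2) * M R 2
      ≤ 2.3192 * M R 2 := mul_le_mul_of_nonneg_right c1 hM2
  have a2 : (5 / 8 * ℓ + (2 * Real.log 2 + Real.log 3 - 0.02)) * M R 1
      ≤ (5 / 8 * ℓ + 2.465) * M R 1 := mul_le_mul_of_nonneg_right (by linarith) hM1
  have a3 : M R 1 ≤ 2 / (ℓ + 1.136) * M R 2 := by
    rw [div_mul_eq_mul_div, le_div_iff₀ (by linarith)]
    linarith
  have a4 : (5 / 8 * ℓ + 2.465) * M R 1 ≤ (5 / 8 * ℓ + 2.465) * (2 / (ℓ + 1.136) * M R 2) :=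
    mul_le_mul_of_nonneg_left a3 (by linarith)
  have a5 : 179 / 162 / ℓ * (0.6 * (ℓ + 1.1168) * M R 2) ≤ 179 / 162 / ℓ * M R 3 :=
    mul_le_mul_of_nonneg_left h3 (by positivity)
  have key : 2.3192 + (5 / 8 * ℓ + 2.465) * (2 / (ℓ + 1.136))
      - 179 / 162 / ℓ * (0.6 * (ℓ + 1.1168)) ≤ 2.9063 + c := by
    have e3 : (5 / 8 * ℓ + 2.465) * (2 / (ℓ + 1.136)) = 1.25 + 3.51 / (ℓ + 1.136) := by
      have : ℓ + 1.136 ≠ 0 := by linarith
      field_simp
      ring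
    have e4 : 179 / 162 / ℓ * (0.6 * (ℓ + 1.1168)) = 179 / 270 + 179 / 270 * 1.1168 / ℓ := by
      field_simp
      ring
    rw [e3, e4]
    have e5 : 3.51 / (ℓ + 1.136) ≤ c + 0.7403 / ℓ := by
      rw [div_le_iff₀ (by linarith)]
      have : (c + 0.7403 / ℓ) * (ℓ + 1.136)
          = c * ℓ + c * 1.136 + 0.7403 + 0.7403 * 1.136 / ℓ := by
        field_simp
        ring
      rw [this]
      have h9 : 0 ≤ 0.7403 * 1.136 / ℓ := by positivity
      linarith
    have e6 : 0.7403 / ℓ ≤ 179 / 270 * 1.1168 / ℓ := by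
      apply div_le_div_of_nonneg_right _ hℓ0.le
      norm_num
    linarith
  have fin : (2.3192 + (5 / 8 * ℓ + 2.465) * (2 / (ℓ + 1.136))
      - 179 / 162 / ℓ * (0.6 * (ℓ + 1.1168))) * M R 2 ≤ (2.9063 + c) * M R 2 :=
    mul_le_mul_of_nonneg_right key hM2
  nlinarith [a1, a2, a4, a5, fin]

lemma Z_bound {R : ℝ} (hR : 13.3 ≤ Real.log R) (hR1 : 5 ≤ R) :
    Z R ^ 2 ≤ 1.33 * R ^ 2 * M R 2 := by
  have h1 := Z_le (R := R) (by linarith)
  have h2 := M0_le hR1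
  have h3 := M1_le hR (by linarith)
  have h4 := rel0 (R := R) (by linarith)
  have hM0 := M_nonneg R 0
  have hM1 := M_nonneg R 1
  have hM2 := M_nonneg R 2
  have hZ := Z_nonneg R
  set ℓ := Real.log R with hℓ
  have hℓ0 : 0 < ℓ := by linarith
  have h5 : M R 0 ≤ 6 / ℓ ^ 2 * M R 2 := by
    rw [div_mul_eq_mul_div, le_div_iff₀ (by positivity)]
    have h6 : ℓ * M R 1 ≤ 2 * M R 2 := by nlinarith
    have h7 : ℓ * (ℓ * M R 0) ≤ ℓ * (3 * M R 1) := mul_le_mul_of_nonneg_left h4 hℓ0.le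
    nlinarith
  have h6 : M R 0 ^ 2 ≤ 5.04 * M R 2 := by
    calc M R 0 ^ 2 = M R 0 * M R 0 := by ring
      _ ≤ (0.84 * ℓ ^ 2) * (6 / ℓ ^ 2 * M R 2) := mul_le_mul h2 h5 hM0 (by positivity)
      _ = 5.04 * M R 2 := by field_simp; ring
  have h7 : Real.exp (-(4 / 3)) ≤ 0.2638 := by
    have e1 : Real.exp (-(4 / 3)) = (Real.exp 1)⁻¹ * (Real.exp (1 / 3))⁻¹ := by
      rw [← Real.exp_neg, ← Real.exp_neg, ← Real.exp_add]; norm_num
    have e2 : 2.718 ≤ Real.exp 1 := by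
      have := Real.exp_one_gt_d9; linarith
    have e3 : 1.395 ≤ Real.exp (1 / 3) := by
      have h := Real.sum_le_exp_of_nonneg (x := (1 / 3 : ℝ)) (by norm_num) 4
      refine le_trans ?_ h
      norm_num [Finset.sum_range_succ, Nat.factorial]
    rw [e1]
    have e4 : (Real.exp 1)⁻¹ ≤ (2.718 : ℝ)⁻¹ := inv_anti₀ (by norm_num) e2
    have e5 : (Real.exp (1 / 3))⁻¹ ≤ (1.395 : ℝ)⁻¹ := inv_anti₀ (by norm_num) e3
    calc (Real.exp 1)⁻¹ * (Real.exp (1 / 3))⁻¹ ≤ (2.718 : ℝ)⁻¹ * (1.395 : ℝ)⁻¹ :=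
          mul_le_mul e4 e5 (by positivity) (by norm_num)
      _ ≤ 0.2638 := by norm_num
  calc Z R ^ 2 ≤ (R * Real.exp (-(2 / 3)) * M R 0) ^ 2 := pow_le_pow_left₀ hZ h1 2
    _ = R ^ 2 * Real.exp (-(4 / 3)) * M R 0 ^ 2 := by
        have : Real.exp (-(4 / 3)) = Real.exp (-(2 / 3)) ^ 2 := by
          rw [← Real.exp_nat_mul]; norm_num
        rw [this]; ring
    _ ≤ R ^ 2 * 0.2638 * (5.04 * M R 2) := by
        apply mul_le_mul _ h6 (by positivity) (by positivity)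
        exact mul_le_mul_of_nonneg_left h7 (by positivity)
    _ ≤ _ := by
        have : 0 ≤ R ^ 2 * M R 2 := by positivity
        nlinarith

/-- bound for `C'`. -/
lemma Cp_le {η : ℝ} (hη : 45 ≤ η) : Cp η ≤ 0.896 := by
  unfold Cp
  have h1 : 4 / η ≤ 4 / 45 := by
    apply div_le_div_of_nonneg_left (by norm_num) (by norm_num) hη
  have he : 2.718 ≤ Real.exp 1 := by
    have := Real.exp_one_gt_d9; linarith
  have h2 : (0.4111 : ℝ) ≤ 1 / 2 - 4 / η := by norm_num at h1 ⊢; linarith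
  have h3 : 2.718 * 0.4111 ≤ Real.exp 1 * (1 / 2 - 4 / η) :=
    mul_le_mul he h2 (by norm_num) (by positivity)
  rw [div_le_iff₀ (by linarith)]
  norm_num at h3 ⊢
  linarith

/-- total error bound. -/
lemma err_bound {x : ℝ} (hx : 0.835 ≤ x) :
    1.33 * Real.exp (32 * x) * (4 + 2 * (258 * x + 1) * PhiB (54 * x)) ≤ 0.0133 * Real.exp (86 * x) := by
  have hC := Cp_le (η := 54 * x) (by linarith)
  have hC0 := (Cp_pos (η := 54 * x) (by linarith)).le
  have hx0 : 0 < x := by linarith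
  have e1 : Real.exp (86 * x) = Real.exp (32 * x) * Real.exp (54 * x) := by
    rw [← Real.exp_add]; ring_nf
  have e2 : Real.exp (54 * x) = Real.exp (27 * x) * Real.exp (27 * x) := by
    rw [← Real.exp_add]; ring_nf
  -- exp (27 x) large compared with x
  have h8 : (27 * x) ^ 8 / (Nat.factorial 8 : ℝ) ≤ Real.exp (27 * x) :=
    Real.pow_div_factorial_le_exp (27 * x) (by positivity) 8
  have e8 : (Nat.factorial 8 : ℝ) = 40320 := by norm_num [Nat.factorial]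
  rw [e8] at h8
  have h9 : 1900000 * x ≤ Real.exp (27 * x) := by
    refine le_trans ?_ h8
    have h7 : (0.835 : ℝ) ^ 7 ≤ x ^ 7 := pow_le_pow_left₀ (by norm_num) hx 7
    have h10 : (0.835 : ℝ) ^ 7 * x ≤ x ^ 7 * x := mul_le_mul_of_nonneg_right h7 hx0.le
    have e3 : (27 * x) ^ 8 / 40320 = 27 ^ 8 / 40320 * (x ^ 7 * x) := by ring
    rw [e3]
    have : (1900000 : ℝ) * x ≤ 27 ^ 8 / 40320 * (0.835 ^ 7 * x) := by
      have : (1900000 : ℝ) ≤ 27 ^ 8 / 40320 * 0.835 ^ 7 := by norm_num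
      nlinarith
    refine this.trans ?_
    apply mul_le_mul_of_nonneg_left h10 (by norm_num)
  have hpos := Real.exp_pos (27 * x)
  set E := Real.exp (27 * x) with hE
  have hPhi : PhiB (54 * x) ≤ 2.24 * 0.896 / (54 * x) ^ 3 * (E * E) + 0.63 * E := by
    unfold PhiB
    rw [e2]
    have : Real.exp (54 * x / 2) = E := by rw [hE]; congr 1; ring
    rw [this]
    have h11 : 2.24 * Cp (54 * x) / (54 * x) ^ 3 ≤ 2.24 * 0.896 / (54 * x) ^ 3 := by
      apply div_le_div_of_nonneg_right _ (by positivity)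
      linarith
    have := mul_le_mul_of_nonneg_right h11 (show 0 ≤ E * E by positivity)
    linarith
  have h12 : 2 * (258 * x + 1) * PhiB (54 * x)
      ≤ 2 * (259.2 * x) * (2.24 * 0.896 / (54 * x) ^ 3 * (E * E) + 0.63 * E) := by
    apply mul_le_mul _ hPhi _ (by positivity)
    · linarith
    · unfold PhiB
      positivity
  have h13 : 2 * (259.2 * x) * (2.24 * 0.896 / (54 * x) ^ 3 * (E * E))
      = 2 * 259.2 * 2.24 * 0.896 / 54 ^ 3 / x ^ 2 * (E * E) := by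
    field_simp
  have h14 : 2 * 259.2 * 2.24 * 0.896 / 54 ^ 3 / x ^ 2 ≤ 0.00949 := by
    rw [div_le_iff₀ (by positivity)]
    have : (0.835 : ℝ) ^ 2 ≤ x ^ 2 := pow_le_pow_left₀ (by norm_num) hx 2
    norm_num at this ⊢
    linarith
  have h15 : 2 * 259.2 * 2.24 * 0.896 / 54 ^ 3 / x ^ 2 * (E * E) ≤ 0.00949 * (E * E) :=
    mul_le_mul_of_nonneg_right h14 (by positivity)
  have h16 : 2 * (259.2 * x) * (0.63 * E) ≤ 0.0002 * (E * E) := by
    have : x ≤ E / 1900000 := by linarith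
    have h17 : 2 * (259.2 * x) * (0.63 * E) ≤ 2 * (259.2 * (E / 1900000)) * (0.63 * E) := by
      have : x * E ≤ E / 1900000 * E := mul_le_mul_of_nonneg_right this hpos.le
      nlinarith
    refine h17.trans ?_
    nlinarith [mul_pos hpos hpos]
  have h17 : 4 ≤ 0.00001 * (E * E) := by
    have : 1000000 ≤ E := by linarith
    nlinarith
  have h18 : 4 + 2 * (258 * x + 1) * PhiB (54 * x) ≤ 0.01 * (E * E) := by
    have h19 : 2 * (259.2 * x) * (2.24 * 0.896 / (54 * x) ^ 3 * (E * E) + 0.63 * E)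
        = 2 * (259.2 * x) * (2.24 * 0.896 / (54 * x) ^ 3 * (E * E)) + 2 * (259.2 * x) * (0.63 * E) := by
      ring
    rw [h19, h13] at h12
    nlinarith [mul_pos hpos hpos]
  rw [e1, e2]
  have h20 := mul_le_mul_of_nonneg_left h18 (show 0 ≤ 1.33 * Real.exp (32 * x) by positivity)
  refine h20.trans (le_of_eq ?_)
  ring

end Pool.Agent.Lib.MP_d610d0_nt
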