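import Mathlib
import Pool.Agent.Lib.MP_d610d0_nt.SelMain

/-!
Counting almost primes without small prime factors for large `n`.
-/

set_option autoImplicit false

namespace Pool.Agent.Lib.MP_d610d0_nt

open Finset
open scoped ArithmeticFunction.Omega

/-- `F t` has at most seven prime factors, all of them exceeding `n^(1/50)`. -/
def Good7 (n t : ℕ) : Prop := Ω (F t) ≤ 7 ∧ ∀ p : ℕ, p.Prime → p ∣ F t → n < p ^ 50

lemma card_divisors_le (m : ℕ) (hm : m ≠ 0) : m.divisors.card ≤ 2 ^ Ω m := by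
  rw [Nat.card_divisors hm, ArithmeticFunction.cardFactors_eq_sum_factorization, Finsupp.sum,
    Nat.support_factorization, ← Finset.prod_pow_eq_pow_sum]
  apply Finset.prod_le_prod'
  intro p _
  exact Nat.succ_le_of_lt (Nat.lt_two_pow_self)

lemma small_sum {η w : ℝ} (hw : 0 ≤ w) :
    ∑ p ∈ (Pr η).filter (fun p : ℕ => Real.log p ≤ w), (2 / ((p : ℝ) - 1)) * (Real.log p) ^ 2
      ≤ 2 * w ^ 2 := by
  have h1 : ∑ p ∈ (Pr η).filter (fun p : ℕ => Real.log p ≤ w),
        (2 / ((p : ℝ) - 1)) * (Real.log p) ^ 2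
      ≤ ∑ p ∈ (Pr η).filter (fun p : ℕ => Real.log p ≤ w), ca p * w := by
    refine Finset.sum_le_sum (fun p hp => ?_)
    rw [Finset.mem_filter] at hp
    have h5 := (mem_Pr.mp hp.1).2.1
    have h2 : ca p * Real.log p = (2 / ((p : ℝ) - 1)) * (Real.log p) ^ 2 := by
      unfold ca; ring
    rw [← h2]
    exact mul_le_mul_of_nonneg_left hp.2 (ca_nonneg h5)
  have h2 : ∑ p ∈ (Pr η).filter (fun p : ℕ => Real.log p ≤ w), ca p ≤ 2 * w := by
    have h3 := aFa_le (Pr η) Pr_prop w
    unfold aF at h3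
    rw [← Finset.sum_filter] at h3
    refine h3.trans (max_le (by linarith) (by linarith))
  rw [← Finset.sum_mul] at h1
  nlinarith

lemma G_le_small {R : ℝ} {p : ℕ} (h5 : 5 ≤ p) : G R p ≤ (Real.log p) ^ 2 * M R 0 := by
  unfold G M
  rw [Finset.mul_sum]
  refine Finset.sum_le_sum (fun r hr => ?_)
  have hg := good_of_mem_SR hr
  have h1 : 0 ≤ min (Real.log p) (Y R r) := le_min (log_pos_of_five h5).le (Y_nonneg R r)
  have h2 : min (Real.log p) (Y R r) ^ 2 ≤ (Real.log p) ^ 2 :=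
    pow_le_pow_left₀ h1 (min_le_left _ _) 2
  have := mul_le_mul_of_nonneg_left h2 (hR_pos hg).le
  linarith

/-- The weighted sum in the Selberg range. -/
lemma sel_lower {n s N : ℕ} (hL : 36 ≤ Real.log n) (hN : (n : ℝ) ^ 2 / 4 - 1 ≤ N)
    (hF : ∀ t ∈ Ico s (s + N), F t ≤ (n + 1) ^ 6) {R η B c : ℝ}
    (hR : R = Real.exp (16 * (Real.log n / 43))) (hη : η = 54 * (Real.log n / 43))
    (hB : B = 8 - 6 * Real.log (n + 1) / η)
    (hc : 3.51 ≤ c * Real.log R + c * 1.136 + 0.7403) :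
    0 ≤ B ∧ B ≤ 3.2223 ∧
    (3.222 - 2.9063 - c - 0.0534) * N * M R 2
      ≤ ∑ t ∈ Ico s (s + N), (B - ∑ p ∈ Pr η, wt η p * ((F t).factorization p : ℝ)) * Lam R t ^ 2
    ∧ 1.33 * R ^ 2 * (4 + 2 * (6 * Real.log (n + 1)) * PhiB η) ≤ 0.0133 * (n : ℝ) ^ 2
    ∧ 13.3 ≤ Real.log R ∧ 5 ≤ R := by
  set L := Real.log n with hLdef
  set x := L / 43 with hx
  have hx1 : 0.835 ≤ x := by
    rw [hx, le_div_iff₀ (by norm_num)]; linarith
  have hx0 : 0 < x := by linarith
  have hL43 : L = 43 * x := by rw [hx]; ring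
  have hn0 : (0 : ℝ) < n := by
    rcases Nat.eq_zero_or_pos n with h | h
    · rw [hLdef, h] at hL; norm_num at hL
    · exact_mod_cast h
  have hnexp : (n : ℝ) = Real.exp L := by rw [hLdef, Real.exp_log hn0]
  have hn2 : (n : ℝ) ^ 2 = Real.exp (86 * x) := by
    rw [hnexp, ← Real.exp_nat_mul, hL43]; congr 1; push_cast; ring
  have hn1000 : 1000 ≤ (n : ℝ) := by
    have h1 : (36 : ℝ) ^ 3 / (Nat.factorial 3 : ℝ) ≤ Real.exp 36 :=
      Real.pow_div_factorial_le_exp 36 (by norm_num) 3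
    have h2 : Real.exp 36 ≤ Real.exp L := Real.exp_le_exp.mpr hL
    rw [hnexp]
    norm_num [Nat.factorial] at h1
    linarith
  have hlogR : Real.log R = 16 * x := by rw [hR, Real.log_exp]
  have hη27 : η = 27 / 8 * Real.log R := by rw [hη, hlogR]; ring
  have hℓ : 13.3 ≤ Real.log R := by rw [hlogR]; linarith
  have hR5 : 5 ≤ R := by
    rw [hR]
    have := Real.add_one_le_exp (16 * x)
    linarith
  have hη0 : 0 < η := by rw [hη]; positivity
  -- log (n+1)
  have hl1 : L ≤ Real.log (n + 1) := Real.log_le_log hn0 (by linarith)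
  have hl2 : Real.log (n + 1) ≤ L + 0.001 := by
    have h1 : Real.log (n + 1) = L + Real.log (1 + 1 / n) := by
      rw [hLdef, ← Real.log_mul hn0.ne' (by positivity)]
      congr 1
      field_simp
    have h2 : Real.log (1 + 1 / (n : ℝ)) ≤ 1 / n := by
      have := Real.log_le_sub_one_of_pos (x := 1 + 1 / (n : ℝ)) (by positivity)
      linarith
    have h3 : 1 / (n : ℝ) ≤ 0.001 := by
      rw [div_le_iff₀ hn0]
      linarith
    linarith
  have hBu : B ≤ 3.2223 := by
    rw [hB, hη]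
    have : 6 * L / (54 * x) ≤ 6 * Real.log (n + 1) / (54 * x) := by
      apply div_le_div_of_nonneg_right _ (by positivity)
      linarith
    have h2 : 6 * L / (54 * x) = 43 / 9 := by
      rw [hL43]; field_simp; norm_num
    rw [h2] at this
    norm_num at this ⊢
    linarith
  have hBl : 3.222 ≤ B := by
    rw [hB, hη]
    have : 6 * Real.log (n + 1) / (54 * x) ≤ 6 * (L + 0.001) / (54 * x) := by
      apply div_le_div_of_nonneg_right _ (by positivity)
      linarith
    have h2 : 6 * (L + 0.001) / (54 * x) = 43 / 9 + 0.006 / (54 * x) := by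
      rw [hL43]; field_simp; norm_num
      ring
    have h3 : 0.006 / (54 * x) ≤ 0.0002 := by
      rw [div_le_iff₀ (by positivity)]
      linarith
    rw [h2] at this
    norm_num at this h3 ⊢
    linarith
  have hB0 : 0 ≤ B := by linarith
  -- the error
  have herr : 1.33 * R ^ 2 * (4 + 2 * (6 * Real.log (n + 1)) * PhiB η) ≤ 0.0133 * (n : ℝ) ^ 2 := by
    have h1 := err_bound hx1
    rw [hn2, hη]
    refine le_trans ?_ h1
    have h2 : R ^ 2 = Real.exp (32 * x) := by
      rw [hR, ← Real.exp_nat_mul]; congr 1; push_cast; ring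
    rw [h2]
    apply mul_le_mul_of_nonneg_left _ (by positivity)
    have h3 : 6 * Real.log (n + 1) ≤ 258 * x + 1 := by
      linarith
    have h4 : 0 ≤ PhiB (54 * x) := by
      unfold PhiB
      have := (Cp_pos (η := 54 * x) (by linarith)).le
      positivity
    have := mul_le_mul_of_nonneg_right h3 h4
    linarith
  refine ⟨hB0, hBu, ?_, herr, hℓ, hR5⟩
  have hRp : 0 < R := by linarith
  have hM2 := M_nonneg R 2
  have hl0 : 0 ≤ 6 * Real.log (n + 1) := by linarith
  have hFl : ∀ t ∈ Ico s (s + N), Real.log (F t) ≤ 6 * Real.log (n + 1) := by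
    intro t ht
    have h1 : ((F t : ℕ) : ℝ) ≤ ((n : ℝ) + 1) ^ 6 := by exact_mod_cast hF t ht
    have h2 : (0 : ℝ) < F t := by exact_mod_cast F_pos t
    have h3 := Real.log_le_log h2 h1
    rw [Real.log_pow] at h3
    exact_mod_cast h3
  have hw := weighted_sum (η := η) (B := B) (N := N) (G := M R 2) (E1 := Z R ^ 2)
    (E2 := 2 * Z R ^ 2) hη0 hB0 (Ico s (s + N)) (fun t => Lam R t ^ 2) (G R)
    (Kp (6 * Real.log (n + 1))) (Nat.cast_nonneg N) (fun p _ => G_nonneg R p)
    (fun p hp t ht => Kp_spec (mem_Pr.mp hp).1 (hFl t ht)) (sel_H1 R s N)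
    (fun p hp k hk => sel_H2 hRp (mem_Pr.mp hp).1 (mem_Pr.mp hp).2.1 hk s N)
  refine le_trans ?_ hw
  have hS := S_bound (η := η) hℓ (by linarith) hη27 hc
  have hZ := Z_bound hℓ hR5
  have hK := sum_wt_Kp (η := η) (by rw [hη]; linarith) hl0 (Pr η) (Finset.Subset.refl _)
  have hZ0 : 0 ≤ Z R ^ 2 := sq_nonneg _
  have hN0 : (0 : ℝ) ≤ N := Nat.cast_nonneg N
  have e1 : B * Z R ^ 2 + 2 * Z R ^ 2 * ∑ p ∈ Pr η, wt η p * (Kp (6 * Real.log (n + 1)) p : ℝ)
      ≤ 0.0133 * (n : ℝ) ^ 2 * M R 2 := by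
    have h1 : B * Z R ^ 2 + 2 * Z R ^ 2 * ∑ p ∈ Pr η, wt η p * (Kp (6 * Real.log (n + 1)) p : ℝ)
        ≤ Z R ^ 2 * (4 + 2 * (6 * Real.log (n + 1)) * PhiB η) := by
      have a1 : B * Z R ^ 2 ≤ 4 * Z R ^ 2 := mul_le_mul_of_nonneg_right (by linarith) hZ0
      have a2 : 2 * Z R ^ 2 * ∑ p ∈ Pr η, wt η p * (Kp (6 * Real.log (n + 1)) p : ℝ)
          ≤ 2 * Z R ^ 2 * (6 * Real.log (n + 1) * PhiB η) :=
        mul_le_mul_of_nonneg_left hK (by positivity)
      linarith
    have hPhi0 : 0 ≤ PhiB η := by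
      unfold PhiB
      have := (Cp_pos (η := η) (by rw [hη]; linarith)).le
      positivity
    have h2 : Z R ^ 2 * (4 + 2 * (6 * Real.log (n + 1)) * PhiB η)
        ≤ 1.33 * R ^ 2 * M R 2 * (4 + 2 * (6 * Real.log (n + 1)) * PhiB η) :=
      mul_le_mul_of_nonneg_right hZ (by positivity)
    have h3 := mul_le_mul_of_nonneg_right herr hM2
    linarith
  have e2 : 0.0133 * (n : ℝ) ^ 2 ≤ 0.0534 * N := by
    nlinarith
  have e3 : 0.0133 * (n : ℝ) ^ 2 * M R 2 ≤ 0.0534 * N * M R 2 := mul_le_mul_of_nonneg_right e2 hM2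
  have e4 : (N : ℝ) * ((3.222 - (2.9063 + c)) * M R 2)
      ≤ N * (B * M R 2 - ∑ p ∈ Pr η, wt η p * (2 / ((p : ℝ) - 1)) * G R p) := by
    apply mul_le_mul_of_nonneg_left _ hN0
    have := mul_le_mul_of_nonneg_right hBl hM2
    linarith
  linarith

lemma M0_le_M2 {R : ℝ} (hR : 13.3 ≤ Real.log R) (hR1 : 1 ≤ R) :
    M R 0 ≤ 6 / (Real.log R) ^ 2 * M R 2 := by
  have h3 := M1_le hR hR1
  have h4 := rel0 (R := R) hR1
  have hM0 := M_nonneg R 0
  have hM1 := M_nonneg R 1
  set ℓ := Real.log R with hℓ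
  have hℓ0 : 0 < ℓ := by linarith
  rw [div_mul_eq_mul_div, le_div_iff₀ (by positivity)]
  have h6 : ℓ * M R 1 ≤ 2 * M R 2 := by nlinarith
  have h7 : ℓ * (ℓ * M R 0) ≤ ℓ * (3 * M R 1) := mul_le_mul_of_nonneg_left h4 hℓ0.le
  nlinarith

open Classical in
lemma good_sum {n s N : ℕ} (hL : 36 ≤ Real.log n) (hN : (n : ℝ) ^ 2 / 4 - 1 ≤ N)
    (hF : ∀ t ∈ Ico s (s + N), F t ≤ (n + 1) ^ 6) {R : ℝ}
    (hR : R = Real.exp (16 * (Real.log n / 43))) :
    0.05 * N * M R 2
      ≤ 3.2223 * ∑ t ∈ (Ico s (s + N)).filter (Good7 n), Lam R t ^ 2 := by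
  set L := Real.log n with hLdef
  set η := 54 * (L / 43) with hη
  set B := 8 - 6 * Real.log (n + 1) / η with hB
  have hlogR : Real.log R = 16 * (L / 43) := by rw [hR, Real.log_exp]
  have hn0 : (0 : ℝ) < n := by
    rcases Nat.eq_zero_or_pos n with h | h
    · rw [hLdef, h] at hL; norm_num at hL
    · exact_mod_cast h
  have hη0 : 0 < η := by rw [hη]; positivity
  set w := L / 50 with hw
  have hw0 : 0 ≤ w := by rw [hw]; positivity
  set Pw := (Pr η).filter (fun p : ℕ => Real.log p ≤ w) with hPw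
  have hlog_le : ∀ t ∈ Ico s (s + N), Real.log (F t) ≤ 6 * Real.log (n + 1) := by
    intro t ht
    have h1 : ((F t : ℕ) : ℝ) ≤ ((n : ℝ) + 1) ^ 6 := by exact_mod_cast hF t ht
    have h2 : (0 : ℝ) < F t := by exact_mod_cast F_pos t
    have h3 := Real.log_le_log h2 h1
    rw [Real.log_pow] at h3
    exact_mod_cast h3
  -- upper bound for the weighted sum
  have hupper : ∀ B : ℝ, B = 8 - 6 * Real.log (n + 1) / η → 0 ≤ B →
      ∑ t ∈ Ico s (s + N), (B - ∑ p ∈ Pr η, wt η p * ((F t).factorization p : ℝ)) * Lam R t ^ 2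
      ≤ B * ∑ t ∈ (Ico s (s + N)).filter (Good7 n), Lam R t ^ 2
        + B * ∑ p ∈ Pw, ∑ t ∈ Ico s (s + N), indF (p ^ 1) t * Lam R t ^ 2 := by
    intro B hB hB0
    rw [Finset.sum_filter, Finset.sum_comm, Finset.mul_sum, Finset.mul_sum,
      ← Finset.sum_add_distrib]
    refine Finset.sum_le_sum (fun t ht => ?_)
    have hsum0 : 0 ≤ ∑ p ∈ Pr η, wt η p * ((F t).factorization p : ℝ) :=
      Finset.sum_nonneg (fun p hp => mul_nonneg (wt_nonneg hη0 hp) (Nat.cast_nonneg _))
    have hLam := sq_nonneg (Lam R t)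
    have hind0 : 0 ≤ ∑ p ∈ Pw, indF (p ^ 1) t * Lam R t ^ 2 := by
      apply Finset.sum_nonneg
      intro p _
      apply mul_nonneg _ hLam
      unfold indF
      split_ifs <;> norm_num
    by_cases h8 : 7 < Ω (F t)
    · have h1 := weight_lower (k := 7) (B := B) hη0 (hlog_le t ht)
        (by rw [hB]; norm_num) h8
      have h2 : (B - ∑ p ∈ Pr η, wt η p * ((F t).factorization p : ℝ)) * Lam R t ^ 2 ≤ 0 :=
        mul_nonpos_of_nonpos_of_nonneg (by linarith) hLam
      have h3 : ¬ Good7 n t := fun h => by have := h.1; omega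
      rw [if_neg h3]
      have := mul_nonneg hB0 hind0
      linarith
    · push Not at h8
      have h1 : (B - ∑ p ∈ Pr η, wt η p * ((F t).factorization p : ℝ)) * Lam R t ^ 2
          ≤ B * Lam R t ^ 2 := mul_le_mul_of_nonneg_right (by linarith) hLam
      refine h1.trans ?_
      by_cases hg : Good7 n t
      · rw [if_pos hg]
        have := mul_nonneg hB0 hind0
        linarith
      · rw [if_neg hg]
        have hex : ∃ p : ℕ, p.Prime ∧ p ∣ F t ∧ p ^ 50 ≤ n := by
          by_contra hcon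
          push Not at hcon
          exact hg ⟨h8, fun p hp hd => hcon p hp hd⟩
        obtain ⟨p, hpp, hd, hle⟩ := hex
        have h5 := five_le_of_dvd_F hpp hd
        have hpw : Real.log p ≤ w := by
          have h6 : ((p : ℝ)) ^ 50 ≤ n := by exact_mod_cast hle
          have hp0 : (0 : ℝ) < p := by exact_mod_cast hpp.pos
          have h7 := Real.log_le_log (by positivity) h6
          rw [Real.log_pow] at h7
          rw [hw, le_div_iff₀ (by norm_num)]
          push_cast at h7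
          linarith
        have hmem : p ∈ Pw := by
          rw [hPw, Finset.mem_filter]
          refine ⟨mem_Pr.mpr ⟨hpp, h5, ?_⟩, hpw⟩
          have : w < η := by rw [hw, hη]; linarith
          linarith
        have h6 : Lam R t ^ 2 ≤ ∑ p ∈ Pw, indF (p ^ 1) t * Lam R t ^ 2 := by
          have h7 : indF (p ^ 1) t * Lam R t ^ 2 = Lam R t ^ 2 := by
            unfold indF
            rw [pow_one, if_pos hd, one_mul]
          have h8 : indF (p ^ 1) t * Lam R t ^ 2 ≤ ∑ p ∈ Pw, indF (p ^ 1) t * Lam R t ^ 2 := by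
            refine Finset.single_le_sum (f := fun p => indF (p ^ 1) t * Lam R t ^ 2) ?_ hmem
            intro q _
            apply mul_nonneg _ hLam
            unfold indF
            split_ifs <;> norm_num
          linarith
        have := mul_le_mul_of_nonneg_left h6 hB0
        linarith
  have hgs0 : 0 ≤ ∑ t ∈ (Ico s (s + N)).filter (Good7 n), Lam R t ^ 2 :=
    Finset.sum_nonneg (fun t _ => sq_nonneg _)
  rcases lt_or_ge L 80 with hcase | hcase
  · -- no small primes
    obtain ⟨hB0, hBu, hlow, herr, hℓ, hR5⟩ := sel_lower (c := 0.1937) hL hN hF hR hη hB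
      (by rw [hlogR]; norm_num; linarith)
    have hemp : Pw = ∅ := by
      rw [Finset.eq_empty_iff_forall_notMem]
      intro p hp
      rw [hPw, Finset.mem_filter] at hp
      have h5 := five_le_lg (mem_Pr.mp hp.1).2.1
      unfold lg at h5
      have := Real.log_five_gt_d9
      have h6 := hp.2
      rw [hw] at h6
      linarith
    have h1 := hupper B hB hB0
    rw [hemp, Finset.sum_empty, mul_zero, add_zero] at h1
    have hM2 := M_nonneg R 2
    have hN0 : (0 : ℝ) ≤ N := Nat.cast_nonneg N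
    have h2 : B * ∑ t ∈ (Ico s (s + N)).filter (Good7 n), Lam R t ^ 2
        ≤ 3.2223 * ∑ t ∈ (Ico s (s + N)).filter (Good7 n), Lam R t ^ 2 :=
      mul_le_mul_of_nonneg_right hBu hgs0
    have h3 : 0 ≤ (N : ℝ) * M R 2 := by positivity
    norm_num at hlow ⊢
    nlinarith
  · obtain ⟨hB0, hBu, hlow, herr, hℓ, hR5⟩ := sel_lower (c := 0.09) hL hN hF hR hη hB
      (by rw [hlogR]; norm_num; linarith)
    have h1 := hupper B hB hB0
    have hM2 := M_nonneg R 2
    have hM0 := M_nonneg R 0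
    have hN0 : (0 : ℝ) ≤ N := Nat.cast_nonneg N
    have hRp : 0 < R := by linarith
    have h2 : B * ∑ t ∈ (Ico s (s + N)).filter (Good7 n), Lam R t ^ 2
        ≤ 3.2223 * ∑ t ∈ (Ico s (s + N)).filter (Good7 n), Lam R t ^ 2 :=
      mul_le_mul_of_nonneg_right hBu hgs0
    -- the small primes
    have h3 : ∑ p ∈ Pw, ∑ t ∈ Ico s (s + N), indF (p ^ 1) t * Lam R t ^ 2
        ≤ ∑ p ∈ Pw, ((2 / ((p : ℝ) - 1)) * (Real.log p) ^ 2 * (N * M R 0) + 2 * Z R ^ 2) := by
      refine Finset.sum_le_sum (fun p hp => ?_)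
      rw [hPw, Finset.mem_filter] at hp
      obtain ⟨hpp, h5, _⟩ := mem_Pr.mp hp.1
      have h4 := sel_H2 hRp hpp h5 (k := 1) le_rfl s N
      have h6 : (5 : ℝ) ≤ p := by exact_mod_cast h5
      have h7 : (2 : ℝ) / (p ^ 1 : ℕ) ≤ 2 / ((p : ℝ) - 1) := by
        push_cast
        rw [pow_one]
        apply div_le_div_of_nonneg_left (by norm_num) (by linarith) (by linarith)
      have h8 := G_le_small (R := R) h5
      have h9 : (2 : ℝ) / (p ^ 1 : ℕ) * N * G R p
          ≤ (2 / ((p : ℝ) - 1)) * N * ((Real.log p) ^ 2 * M R 0) := by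
        apply mul_le_mul _ h8 (G_nonneg R p) (by
          apply mul_nonneg _ hN0
          apply div_nonneg <;> linarith)
        exact mul_le_mul_of_nonneg_right h7 hN0
      refine h4.trans ?_
      linarith
    rw [Finset.sum_add_distrib, ← Finset.sum_mul, Finset.sum_const, nsmul_eq_mul] at h3
    have h4 := small_sum (η := η) hw0
    rw [← hPw] at h4
    have h5 : (Pw.card : ℝ) ≤ Real.exp w := by
      have h6 : Pw ⊆ Finset.Icc 1 ⌊Real.exp w⌋₊ := by
        intro p hp
        rw [hPw, Finset.mem_filter] at hp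
        obtain ⟨hpp, _, _⟩ := mem_Pr.mp hp.1
        rw [Finset.mem_Icc]
        exact ⟨hpp.pos, (log_le_iff hpp.pos _).mp hp.2⟩
      have h7 := Finset.card_le_card h6
      rw [Nat.card_Icc] at h7
      have h8 : (Pw.card : ℝ) ≤ (⌊Real.exp w⌋₊ : ℝ) := by
        have : Pw.card ≤ ⌊Real.exp w⌋₊ := by omega
        exact_mod_cast this
      exact h8.trans (Nat.floor_le (Real.exp_pos _).le)
    have h6 : 2 * w ^ 2 * (N * M R 0) ≤ 0.03467 * (N * M R 2) := by
      have h7 := M0_le_M2 hℓ (by linarith)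
      have h8 : 2 * w ^ 2 * (N * M R 0) ≤ 2 * w ^ 2 * (N * (6 / (Real.log R) ^ 2 * M R 2)) := by
        apply mul_le_mul_of_nonneg_left _ (by positivity)
        exact mul_le_mul_of_nonneg_left h7 hN0
      refine h8.trans ?_
      rw [hlogR, hw]
      have hL0 : 0 < L := by linarith
      have e : 2 * (L / 50) ^ 2 * (N * (6 / (16 * (L / 43)) ^ 2 * M R 2))
          = 12 * (43 / 800) ^ 2 * (N * M R 2) := by
        field_simp
        ring
      rw [e]
      apply mul_le_mul_of_nonneg_right _ (by positivity)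
      norm_num
    have h7 : (Pw.card : ℝ) * (2 * Z R ^ 2) ≤ 0.0005 * (N * M R 2) := by
      have hZ := Z_bound hℓ hR5
      have a1 : (Pw.card : ℝ) * (2 * Z R ^ 2) ≤ Real.exp w * (2 * (1.33 * R ^ 2 * M R 2)) := by
        apply mul_le_mul h5 (by linarith) (by positivity) (Real.exp_pos _).le
      have a2 : 0.63 * Real.exp w ≤ PhiB η := by
        unfold PhiB
        have hC := (Cp_pos (η := η) (by rw [hη]; linarith)).le
        have a3 : Real.exp w ≤ Real.exp (η / 2) := by
          apply Real.exp_le_exp.mpr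
          rw [hw, hη]; linarith
        have a4 : 0 ≤ 2.24 * Cp η / η ^ 3 * Real.exp η := by positivity
        linarith
      have hl : 36 ≤ Real.log (n + 1) := by
        have : L ≤ Real.log (n + 1) := Real.log_le_log hn0 (by linarith)
        linarith
      have a5 : 1.33 * R ^ 2 * (272 * Real.exp w) ≤ 0.0133 * (n : ℝ) ^ 2 := by
        refine le_trans ?_ herr
        apply mul_le_mul_of_nonneg_left _ (by positivity)
        have a6 : 2 * (6 * 36) * (0.63 * Real.exp w)
            ≤ 2 * (6 * Real.log (n + 1)) * PhiB η := by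
          apply mul_le_mul _ a2 (by positivity) (by positivity)
          linarith
        have := Real.exp_pos w
        norm_num at a6 ⊢
        linarith
      have hn2 : (1000 : ℝ) ≤ (n : ℝ) ^ 2 := by
        have h1 : (36 : ℝ) ^ 3 / (Nat.factorial 3 : ℝ) ≤ Real.exp 36 :=
          Real.pow_div_factorial_le_exp 36 (by norm_num) 3
        have h2 : Real.exp 36 ≤ Real.exp L := Real.exp_le_exp.mpr hL
        have h3 : Real.exp L = n := by rw [hLdef, Real.exp_log hn0]
        norm_num [Nat.factorial] at h1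
        nlinarith
      have a7 : 1.33 * R ^ 2 * Real.exp w ≤ 0.00005 * (n : ℝ) ^ 2 := by
        norm_num at a5 ⊢
        linarith
      have a8 : (n : ℝ) ^ 2 ≤ 4.1 * N := by linarith
      have a9 : Real.exp w * (2 * (1.33 * R ^ 2 * M R 2))
          = 2 * (1.33 * R ^ 2 * Real.exp w) * M R 2 := by ring
      rw [a9] at a1
      refine a1.trans ?_
      have a10 : 2 * (1.33 * R ^ 2 * Real.exp w) ≤ 0.0005 * N := by linarith
      have := mul_le_mul_of_nonneg_right a10 hM2
      linarith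
    have h8 : ∑ p ∈ Pw, ∑ t ∈ Ico s (s + N), indF (p ^ 1) t * Lam R t ^ 2
        ≤ 0.0352 * (N * M R 2) := by
      have h9 : (∑ p ∈ Pw, (2 / ((p : ℝ) - 1)) * (Real.log p) ^ 2) * (N * M R 0)
          ≤ 2 * w ^ 2 * (N * M R 0) := mul_le_mul_of_nonneg_right h4 (by positivity)
      have h10 : 0 ≤ N * M R 2 := by positivity
      linarith
    have h9 : B * ∑ p ∈ Pw, ∑ t ∈ Ico s (s + N), indF (p ^ 1) t * Lam R t ^ 2
        ≤ 3.2223 * (0.0352 * (N * M R 2)) := by
      have hpos : 0 ≤ ∑ p ∈ Pw, ∑ t ∈ Ico s (s + N), indF (p ^ 1) t * Lam R t ^ 2 := by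
        apply Finset.sum_nonneg
        intro p _
        apply Finset.sum_nonneg
        intro t _
        apply mul_nonneg _ (sq_nonneg _)
        unfold indF
        split_ifs <;> norm_num
      exact mul_le_mul hBu h8 hpos (by norm_num)
    have h10 : 0 ≤ (N : ℝ) * M R 2 := by positivity
    norm_num at hlow h9 ⊢
    nlinarith

open Classical in
/-- the number of good `t`. -/
theorem sel_card {n s N : ℕ} (hL : 36 ≤ Real.log n) (hN : (n : ℝ) ^ 2 / 4 - 1 ≤ N)
    (hF : ∀ t ∈ Ico s (s + N), F t ≤ (n + 1) ^ 6) :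
    (n : ℝ) ^ 2 / (1000000 * (Real.log n) ^ 2)
      ≤ (((Ico s (s + N)).filter (Good7 n)).card : ℝ) := by
  set L := Real.log n with hLdef
  set R := Real.exp (16 * (L / 43)) with hRd
  have hlogR : Real.log R = 16 * (L / 43) := by rw [hRd, Real.log_exp]
  have hn0 : (0 : ℝ) < n := by
    rcases Nat.eq_zero_or_pos n with h | h
    · rw [hLdef, h] at hL; norm_num at hL
    · exact_mod_cast h
  have hL0 : 0 < L := by linarith
  have h1 := good_sum hL hN hF (R := R) hRd
  have hℓ : 13.3 ≤ Real.log R := by rw [hlogR]; linarith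
  have hR5 : 5 ≤ R := by
    rw [hRd]
    have := Real.add_one_le_exp (16 * (L / 43))
    linarith
  have hRp : 0 < R := by linarith
  set C := (((Ico s (s + N)).filter (Good7 n)).card : ℝ) with hC
  have hC0 : 0 ≤ C := Nat.cast_nonneg _
  have h2 : ∑ t ∈ (Ico s (s + N)).filter (Good7 n), Lam R t ^ 2 ≤ C * (128 * M R 1) ^ 2 := by
    rw [hC, ← nsmul_eq_mul, ← Finset.sum_const]
    refine Finset.sum_le_sum (fun t ht => ?_)
    rw [Finset.mem_filter] at ht
    have h3 := Lam_abs_le hRp t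
    have h4 : ((F t).divisors.card : ℝ) ≤ 128 := by
      have h5 := card_divisors_le (F t) (F_ne_zero t)
      have h6 : (2 : ℕ) ^ Ω (F t) ≤ 2 ^ 7 := Nat.pow_le_pow_right (by norm_num) ht.2.1
      have h7 : (F t).divisors.card ≤ 128 := by
        refine h5.trans (h6.trans ?_)
        norm_num
      exact_mod_cast h7
    have h5 : |Lam R t| ≤ 128 * M R 1 :=
      h3.trans (mul_le_mul_of_nonneg_right h4 (M_nonneg R 1))
    rw [← sq_abs]
    exact pow_le_pow_left₀ (abs_nonneg _) h5 2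
  have hM1 := M_nonneg R 1
  have hM2 := M_nonneg R 2
  have hM0 := M_nonneg R 0
  have h3 := M1_le hℓ (by linarith)
  have h4 := M0_le hR5
  have hM1' : M R 1 ≤ Real.log R * M R 0 := by
    unfold M
    rw [Finset.mul_sum]
    refine Finset.sum_le_sum (fun r hr => ?_)
    have hg := good_of_mem_SR hr
    have h5 := Y_le (R := R) (by linarith) hg.pos
    have h6 := mul_le_mul_of_nonneg_left h5 (hR_pos hg).le
    simp only [pow_one, pow_zero, mul_one]
    linarith
  have h5 : M R 1 ^ 2 ≤ 1.68 * (Real.log R) ^ 2 * M R 2 := by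
    set ℓ := Real.log R with hℓd
    have hℓ0 : 0 < ℓ := by linarith
    have a1 : M R 1 ≤ 0.84 * ℓ ^ 3 := by
      have := mul_le_mul_of_nonneg_left h4 hℓ0.le
      nlinarith
    have a2 : ℓ * M R 1 ≤ 2 * M R 2 := by nlinarith
    have a3 : M R 1 ≤ 2 / ℓ * M R 2 := by
      rw [div_mul_eq_mul_div, le_div_iff₀ hℓ0]; linarith
    calc M R 1 ^ 2 = M R 1 * M R 1 := by ring
      _ ≤ (0.84 * ℓ ^ 3) * (2 / ℓ * M R 2) := mul_le_mul a1 a3 hM1 (by positivity)
      _ = _ := by field_simp; ring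
  have hM2pos : 0 < M R 2 := by
    have h6 : (1 : ℕ) ∈ SR R := (mem_SR hRp.le).mpr ⟨good_one, by push_cast; linarith⟩
    unfold M
    have h7 : hR 1 * Y R 1 ^ 2 ≤ ∑ r ∈ SR R, hR r * Y R r ^ 2 := by
      refine Finset.single_le_sum (f := fun r => hR r * Y R r ^ 2) ?_ h6
      intro r hr
      exact mul_nonneg (hR_pos (good_of_mem_SR hr)).le (sq_nonneg _)
    have h8 : Y R 1 = Real.log R := by
      have := Y_eq (R := R) (r := 1) one_pos (by push_cast; linarith)
      simpa using this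
    rw [h8, hR_one] at h7
    nlinarith
  have h6 : 0.05 * N * M R 2 ≤ 3.2223 * (C * (16384 * (1.68 * (Real.log R) ^ 2 * M R 2))) := by
    have a1 : C * (128 * M R 1) ^ 2 ≤ C * (16384 * (1.68 * (Real.log R) ^ 2 * M R 2)) := by
      apply mul_le_mul_of_nonneg_left _ hC0
      have : (128 * M R 1) ^ 2 = 16384 * M R 1 ^ 2 := by ring
      rw [this]
      linarith
    linarith
  have h7 : 0.05 * N ≤ 3.2223 * 16384 * 1.68 * (Real.log R) ^ 2 * C := by
    have e : 3.2223 * (C * (16384 * (1.68 * (Real.log R) ^ 2 * M R 2)))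
        = 3.2223 * 16384 * 1.68 * (Real.log R) ^ 2 * C * M R 2 := by ring
    rw [e] at h6
    exact le_of_mul_le_mul_right h6 hM2pos
  rw [hlogR] at h7
  have e2 : 3.2223 * 16384 * 1.68 * (16 * (L / 43)) ^ 2 * C
      = (3.2223 * 16384 * 1.68 * (16 / 43) ^ 2) * (L ^ 2 * C) := by ring
  rw [e2] at h7
  have hn2 : (10000 : ℝ) ≤ (n : ℝ) ^ 2 := by
    have h1 : (36 : ℝ) ^ 3 / (Nat.factorial 3 : ℝ) ≤ Real.exp 36 :=
      Real.pow_div_factorial_le_exp 36 (by norm_num) 3
    have h2 : Real.exp 36 ≤ Real.exp L := Real.exp_le_exp.mpr hL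
    have h3 : Real.exp L = n := by rw [hLdef, Real.exp_log hn0]
    norm_num [Nat.factorial] at h1
    nlinarith
  rw [div_le_iff₀ (by positivity)]
  have h8 : 0 ≤ L ^ 2 * C := by positivity
  have h9 : (3.2223 * 16384 * 1.68 * (16 / 43) ^ 2) * (L ^ 2 * C) ≤ 12281 * (L ^ 2 * C) := by
    apply mul_le_mul_of_nonneg_right _ h8
    norm_num
  nlinarith

end Pool.Agent.Lib.MP_d610d0_nt
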