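import Mathlib
import Pool.Agent.Lib.MP_d610d0_nt.SelCount

/-!
The weighted sieve with a short Legendre presieve, for moderate `n`.
-/

set_option autoImplicit false

namespace Pool.Agent.Lib.MP_d610d0_nt

open Finset MeasureTheory
open scoped ArithmeticFunction.Omega

noncomputable def UW (W : Finset ℕ) (t : ℕ) : ℝ := ∏ q ∈ W, (1 - indF q t)

lemma indF_zero_one (q t : ℕ) : indF q t = 0 ∨ indF q t = 1 := by
  unfold indF
  split_ifs
  · right; rfl
  · left; rfl

lemma UW_nonneg (W : Finset ℕ) (t : ℕ) : 0 ≤ UW W t := by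
  unfold UW
  apply Finset.prod_nonneg
  intro q _
  rcases indF_zero_one q t with h | h <;> rw [h] <;> norm_num

lemma UW_le_one (W : Finset ℕ) (t : ℕ) : UW W t ≤ 1 := by
  unfold UW
  apply Finset.prod_le_one
  · intro q _
    rcases indF_zero_one q t with h | h <;> rw [h] <;> norm_num
  · intro q _
    rcases indF_zero_one q t with h | h <;> rw [h] <;> norm_num

lemma UW_zero {W : Finset ℕ} {q t : ℕ} (hq : q ∈ W) (hd : q ∣ F t) : UW W t = 0 := by
  unfold UW
  apply Finset.prod_eq_zero hq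
  unfold indF
  rw [if_pos hd]
  ring

lemma UW_APW {W : Finset ℕ} (hW : ∀ q ∈ W, q.Prime ∧ 5 ≤ q) : APW (UW W) (3 ^ W.card) := by
  have h1 : ∀ q ∈ W, APW (fun t => 1 - indF q t) 3 := by
    intro q hq
    obtain ⟨h1, h2⟩ := hW q hq
    have h3 := indF_APW (k := 1) h1 h2 le_rfl
    rw [pow_one] at h3
    have h4 := (APW.const 1).add (h3.smul (-1))
    norm_num at h4
    refine h4.congr (fun t => ?_)
    ring
  have h2 := APW.prod W (fun q t => 1 - indF q t) (fun _ => 3) h1
  rw [Finset.prod_const] at h2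
  exact h2

lemma UW_insert {W : Finset ℕ} {q : ℕ} (hq : q ∉ W) (t : ℕ) :
    UW (insert q W) t = (1 - indF q t) * UW W t := by
  unfold UW
  rw [Finset.prod_insert hq]

lemma UW_per_avg {W : Finset ℕ} (hW : ∀ q ∈ W, q.Prime ∧ 5 ≤ q) :
    Per (∏ q ∈ W, q) (UW W) ∧ avg (∏ q ∈ W, q) (UW W) = ∏ q ∈ W, (1 - 2 / (q : ℝ)) := by
  classical
  induction W using Finset.induction_on with
  | empty =>
    constructor
    · intro t
      simp [UW]
    · simp only [Finset.prod_empty]
      have : (UW ∅) = fun _ => (1 : ℝ) := by funext t; simp [UW]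
      rw [this]
      exact avg_const one_pos 1
  | insert q W hq ih =>
    obtain ⟨ih1, ih2⟩ := ih (fun x hx => hW x (Finset.mem_insert_of_mem hx))
    obtain ⟨hqp, hq5⟩ := hW q (Finset.mem_insert_self _ _)
    have hper : Per q (fun t => 1 - indF q t) := by
      intro t
      simp only
      rw [indF_per q t]
    have hpos : 0 < ∏ x ∈ W, x := Finset.prod_pos (fun x hx =>
      (hW x (Finset.mem_insert_of_mem hx)).1.pos)
    have hcop : Nat.Coprime q (∏ x ∈ W, x) := by
      rw [Nat.coprime_prod_right_iff]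
      intro x hx
      rw [Nat.coprime_primes hqp (hW x (Finset.mem_insert_of_mem hx)).1]
      intro h
      rw [h] at hq
      exact hq hx
    have e : UW (insert q W) = fun t => (fun t => 1 - indF q t) t * UW W t := by
      funext t
      rw [UW_insert hq]
    rw [Finset.prod_insert hq, Finset.prod_insert hq, e]
    constructor
    · apply Per.mul
      · exact hper.of_dvd (Dvd.intro _ rfl)
      · exact ih1.of_dvd (Dvd.intro_left _ rfl)
    · rw [avg_mul_coprime hqp.pos hpos hcop hper ih1, ih2]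
      congr 1
      have h1 : avg q (fun t => 1 - indF q t) = avg q (fun _ => 1) - avg q (indF q) := by
        unfold avg
        rw [Finset.sum_sub_distrib, sub_div]
      have h2 := avg_indF (k := 1) hqp hq5 le_rfl
      rw [pow_one] at h2
      rw [h1, avg_const hqp.pos, h2]

lemma leg_H1 {W : Finset ℕ} (hW : ∀ q ∈ W, q.Prime ∧ 5 ≤ q) (s N : ℕ) :
    (N : ℝ) * (∏ q ∈ W, (1 - 2 / (q : ℝ))) - 3 ^ W.card ≤ ∑ t ∈ Ico s (s + N), UW W t := by
  obtain ⟨h1, h2⟩ := UW_per_avg hW
  have hpos : 0 < ∏ x ∈ W, x := Finset.prod_pos (fun x hx => (hW x hx).1.pos)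
  have h3 := (UW_APW hW).disc_avg hpos h1 s N
  rw [h2] at h3
  have := (abs_le.mp h3).1
  linarith

lemma leg_H2 {W : Finset ℕ} (hW : ∀ q ∈ W, q.Prime ∧ 5 ≤ q) {p k : ℕ} (hpp : p.Prime)
    (h5 : 5 ≤ p) (hk : 1 ≤ k) (s N : ℕ) :
    ∑ t ∈ Ico s (s + N), indF (p ^ k) t * UW W t
      ≤ (2 / (p ^ k : ℕ)) * N * (if p ∈ W then 0 else ∏ q ∈ W, (1 - 2 / (q : ℝ)))
        + 2 * 3 ^ W.card := by
  obtain ⟨h1, h2⟩ := UW_per_avg hW
  have hpos : 0 < ∏ x ∈ W, x := Finset.prod_pos (fun x hx => (hW x hx).1.pos)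
  split_ifs with hm
  · rw [mul_zero, zero_add]
    have : ∑ t ∈ Ico s (s + N), indF (p ^ k) t * UW W t = 0 := by
      apply Finset.sum_eq_zero
      intro t _
      by_cases hd : p ^ k ∣ F t
      · rw [UW_zero hm ((dvd_pow_self p (by omega)).trans hd), mul_zero]
      · unfold indF
        rw [if_neg hd, zero_mul]
    rw [this]
    positivity
  · have hcop : Nat.Coprime (p ^ k) (∏ x ∈ W, x) := by
      rw [Nat.coprime_prod_right_iff]
      intro x hx
      apply Nat.Coprime.pow_left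
      rw [Nat.coprime_primes hpp (hW x hx).1]
      intro h
      rw [h] at hm
      exact hm hx
    have h3 := (indF_APW hpp h5 hk).mul (UW_APW hW)
    have hpk : 0 < p ^ k := pow_pos hpp.pos k
    have hper : Per (p ^ k * ∏ x ∈ W, x) (fun t => indF (p ^ k) t * UW W t) := by
      apply Per.mul
      · exact (indF_per _).of_dvd (Dvd.intro _ rfl)
      · exact h1.of_dvd (Dvd.intro_left _ rfl)
    have h4 := h3.disc_avg (Nat.mul_pos hpk hpos) hper s N
    rw [avg_mul_coprime hpk hpos hcop (indF_per _) h1, avg_indF hpp h5 hk, h2] at h4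
    have := (abs_le.mp h4).2
    linarith

/-- the sum over the primes outside `W`. -/
lemma leg_S {W : Finset ℕ} {u η : ℝ} (hW : ∀ q ∈ W, q.Prime ∧ 5 ≤ q)
    (hinit : ∀ q ∈ W, ∀ p : ℕ, p.Prime → 5 ≤ p → p ∉ W → q < p)
    (hu0 : 1.01 ≤ u) (hu : 2 * u ≤ 2.02 + ∑ q ∈ W, ca q)
    (hu2 : ∀ p : ℕ, p.Prime → 5 ≤ p → p ∉ W → u ≤ Real.log p) (huη : u ≤ η)
    (hWη : W ⊆ Pr η) :
    ∑ p ∈ Pr η, wt η p * (2 / ((p : ℝ) - 1)) * (if p ∈ W then (0 : ℝ) else 1)
      ≤ 2 * Real.log (η / u) - 2 + 2 * u / η := by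
  classical
  have hη : 0 < η := by linarith
  have hup : 0 < u := by linarith
  set Q := Pr η \ W with hQ
  have h1 : ∑ p ∈ Pr η, wt η p * (2 / ((p : ℝ) - 1)) * (if p ∈ W then (0 : ℝ) else 1)
      = ∑ p ∈ Q, ca p * (1 / lg p - 1 / η) := by
    rw [hQ, Finset.sdiff_eq_filter, Finset.sum_filter]
    refine Finset.sum_congr rfl (fun p hp => ?_)
    by_cases hm : p ∈ W
    · rw [if_pos hm, if_neg (by simpa using hm), mul_zero]
    · rw [if_neg hm, if_pos hm, mul_one, wt_mul_eq hη (mem_Pr.mp hp).2.1]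
      rfl
  rw [h1]
  have hcont : ContinuousOn (fun v : ℝ => 1 / v ^ 2) (Set.Icc u η) := by
    apply ContinuousOn.div continuousOn_const (by fun_prop)
    intro x hx
    have : 0 < x := by linarith [hx.1]
    positivity
  have h2 := layer Q ca lg huη (fun v => 1 / v ^ 2) hcont
  have h3 : ∑ p ∈ Q, ca p * (1 / lg p - 1 / η) = ∫ v in u..η, 1 / v ^ 2 * aF Q ca lg v := by
    rw [h2.2]
    refine Finset.sum_congr rfl (fun p hp => ?_)
    rw [hQ, Finset.mem_sdiff] at hp
    obtain ⟨hpp, h5, hlt⟩ := mem_Pr.mp hp.1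
    have h4 : u ≤ lg p := hu2 p hpp h5 hp.2
    have h6 : lg p ≤ η := hlt.le
    rw [if_pos h6, max_eq_left h4, int_inv_sq (by linarith) h6]
    ring
  rw [h3]
  have h4 : ∫ v in u..η, 1 / v ^ 2 * aF Q ca lg v ≤ ∫ v in u..η, (2 / v - 2 * u / v ^ 2) := by
    apply intervalIntegral.integral_mono_on huη h2.1
    · apply ContinuousOn.intervalIntegrable
      rw [Set.uIcc_of_le huη]
      apply ContinuousOn.sub
      · apply ContinuousOn.div continuousOn_const (by fun_prop)
        intro x hx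
        linarith [hx.1]
      · apply ContinuousOn.div continuousOn_const (by fun_prop)
        intro x hx
        have : 0 < x := by linarith [hx.1]
        positivity
    · intro v hv
      have hv0 : 0 < v := by linarith [hv.1]
      have key : aF Q ca lg v ≤ 2 * v - 2 * u := by
        by_cases hex : ∃ p ∈ Q, lg p ≤ v
        · obtain ⟨p, hp, hpv⟩ := hex
          rw [hQ, Finset.mem_sdiff] at hp
          obtain ⟨hpp, h5, hlt⟩ := mem_Pr.mp hp.1
          have h5 := aFa_le (Pr η) Pr_prop v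
          rw [max_eq_right (by linarith [hv.1])] at h5
          have h6 : aF (Pr η) ca lg v = aF Q ca lg v + ∑ q ∈ W, ca q := by
            unfold aF
            rw [hQ, ← Finset.sum_sdiff hWη]
            congr 1
            refine Finset.sum_congr rfl (fun q hq => ?_)
            have h7 : q < p := hinit q hq p hpp (by assumption) hp.2
            rw [if_pos]
            refine le_trans ?_ hpv
            apply Real.log_le_log
            · exact_mod_cast (hW q hq).1.pos
            · exact_mod_cast h7.le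
          linarith
        · push Not at hex
          have : aF Q ca lg v = 0 := by
            unfold aF
            apply Finset.sum_eq_zero
            intro p hp
            rw [if_neg (not_le.mpr (hex p hp))]
          rw [this]
          linarith [hv.1]
      calc 1 / v ^ 2 * aF Q ca lg v ≤ 1 / v ^ 2 * (2 * v - 2 * u) :=
            mul_le_mul_of_nonneg_left key (by positivity)
        _ = 2 / v - 2 * u / v ^ 2 := by field_simp
  refine h4.trans (le_of_eq ?_)
  rw [intervalIntegral.integral_sub, int_inv hup huη, int_inv_sq hup huη]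
  · field_simp
    ring
  · apply ContinuousOn.intervalIntegrable
    rw [Set.uIcc_of_le huη]
    apply ContinuousOn.div continuousOn_const (by fun_prop)
    intro x hx
    linarith [hx.1]
  · apply ContinuousOn.intervalIntegrable
    rw [Set.uIcc_of_le huη]
    apply ContinuousOn.div continuousOn_const (by fun_prop)
    intro x hx
    have : 0 < x := by linarith [hx.1]
    positivity

open Classical in
/-- general statement for a range of `n`. -/
theorem leg_card {W : Finset ℕ} {V u η L1 L2 : ℝ} (hW : ∀ q ∈ W, q.Prime ∧ 5 ≤ q)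
    (hinit : ∀ q ∈ W, ∀ p : ℕ, p.Prime → 5 ≤ p → p ∉ W → q < p)
    (hV : V = ∏ q ∈ W, (1 - 2 / (q : ℝ))) (hV0 : 0 < V)
    (hu0 : 1.01 ≤ u) (hu : 2 * u ≤ 2.02 + ∑ q ∈ W, ca q)
    (hu2 : ∀ p : ℕ, p.Prime → 5 ≤ p → p ∉ W → u ≤ Real.log p) (huη : u ≤ η)
    (hWη : W ⊆ Pr η) (hη8 : 8 < η)
    {n s N : ℕ} (hL1 : L1 ≤ Real.log n) (hL2 : Real.log n ≤ L2) (hL80 : L2 ≤ 80)
    (hn : 1000 ≤ n)
    (hN : (n : ℝ) ^ 2 / 2 - 2 ≤ N) (hF : ∀ t ∈ Ico s (s + N), F t ≤ (n + 1) ^ 6)
    (hpos : 0 ≤ 8 - 6 * (L2 + 0.001) / η - (2 * Real.log (η / u) - 2 + 2 * u / η) - 0.05)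
    (hnum : 3 ^ W.card * (8 + 12 * (L2 + 0.001) * PhiB η)
      ≤ (Real.exp (2 * L1) / 2 - 2) * V
        * (8 - 6 * (L2 + 0.001) / η - (2 * Real.log (η / u) - 2 + 2 * u / η) - 0.05)) :
    0.05 * N * V ≤ 8 * (((Ico s (s + N)).filter (Good7 n)).card : ℝ) := by
  have hη0 : 0 < η := by linarith
  set L := Real.log n with hL
  have hn1000 : (1000 : ℝ) ≤ n := by exact_mod_cast hn
  have hn0 : (0 : ℝ) < n := by linarith
  have hl1 : L ≤ Real.log (n + 1) := Real.log_le_log hn0 (by linarith)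
  have hl2 : Real.log (n + 1) ≤ L + 0.001 := by
    have h1 : Real.log (n + 1) = L + Real.log (1 + 1 / n) := by
      rw [hL, ← Real.log_mul hn0.ne' (by positivity)]
      congr 1
      field_simp
    have h2 : Real.log (1 + 1 / (n : ℝ)) ≤ 1 / n := by
      have := Real.log_le_sub_one_of_pos (x := 1 + 1 / (n : ℝ)) (by positivity)
      linarith
    have h3 : 1 / (n : ℝ) ≤ 0.001 := by
      rw [div_le_iff₀ hn0]
      linarith
    linarith
  have hlog0 : 0 ≤ L := Real.log_natCast_nonneg n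
  set B := 8 - 6 * Real.log (n + 1) / η with hB
  have hBl : 8 - 6 * (L2 + 0.001) / η ≤ B := by
    rw [hB]
    have : 6 * Real.log (n + 1) / η ≤ 6 * (L2 + 0.001) / η := by
      apply div_le_div_of_nonneg_right _ hη0.le
      linarith
    linarith
  have hBu : B ≤ 8 := by
    rw [hB]
    have : 0 ≤ 6 * Real.log (n + 1) / η := by
      apply div_nonneg _ hη0.le
      linarith
    linarith
  set S := 2 * Real.log (η / u) - 2 + 2 * u / η with hS
  have hS0 : 0 ≤ S := by
    have h1 := leg_S hW hinit hu0 hu hu2 huη hWη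
    refine le_trans ?_ h1
    apply Finset.sum_nonneg
    intro p hp
    have h5 : (5 : ℝ) ≤ p := by exact_mod_cast (mem_Pr.mp hp).2.1
    apply mul_nonneg
    · apply mul_nonneg (wt_nonneg hη0 hp)
      apply div_nonneg <;> linarith
    · split_ifs <;> norm_num
  have hB0 : 0 ≤ B := by linarith
  have hN0 : (0 : ℝ) ≤ N := Nat.cast_nonneg N
  have hl0 : 0 ≤ 6 * Real.log (n + 1) := by linarith
  have hFl : ∀ t ∈ Ico s (s + N), Real.log (F t) ≤ 6 * Real.log (n + 1) := by
    intro t ht
    have h1 : ((F t : ℕ) : ℝ) ≤ ((n : ℝ) + 1) ^ 6 := by exact_mod_cast hF t ht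
    have h2 : (0 : ℝ) < F t := by exact_mod_cast F_pos t
    have h3 := Real.log_le_log h2 h1
    rw [Real.log_pow] at h3
    exact_mod_cast h3
  have hw := weighted_sum (η := η) (B := B) (N := N) (G := V) (E1 := 3 ^ W.card)
    (E2 := 2 * 3 ^ W.card) hη0 hB0 (Ico s (s + N)) (UW W) (fun p => if p ∈ W then 0 else V)
    (Kp (6 * Real.log (n + 1))) (Nat.cast_nonneg N)
    (fun p _ => by split_ifs <;> [exact le_rfl; exact hV0.le])
    (fun p hp t ht => Kp_spec (mem_Pr.mp hp).1 (hFl t ht))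
    (by rw [hV]; exact leg_H1 hW s N)
    (fun p hp k hk => by
      have := leg_H2 hW (mem_Pr.mp hp).1 (mem_Pr.mp hp).2.1 hk s N
      rw [← hV] at this
      exact this)
  -- the prime sum
  have e1 : ∑ p ∈ Pr η, wt η p * (2 / ((p : ℝ) - 1)) * (if p ∈ W then 0 else V) ≤ S * V := by
    have h1 := leg_S hW hinit hu0 hu hu2 huη hWη
    have h2 := mul_le_mul_of_nonneg_right h1 hV0.le
    rw [Finset.sum_mul] at h2
    refine le_trans (le_of_eq ?_) h2
    refine Finset.sum_congr rfl (fun p _ => ?_)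
    split_ifs <;> ring
  have hK := sum_wt_Kp (η := η) hη8 hl0 (Pr η) (Finset.Subset.refl _)
  have hPhi0 : 0 ≤ PhiB η := by
    unfold PhiB
    have := (Cp_pos (η := η) hη8).le
    positivity
  have e2 : B * 3 ^ W.card + 2 * 3 ^ W.card
        * ∑ p ∈ Pr η, wt η p * (Kp (6 * Real.log (n + 1)) p : ℝ)
      ≤ 3 ^ W.card * (8 + 12 * (L2 + 0.001) * PhiB η) := by
    have h3 : (0 : ℝ) ≤ 3 ^ W.card := by positivity
    have h4 : ∑ p ∈ Pr η, wt η p * (Kp (6 * Real.log (n + 1)) p : ℝ)
        ≤ 6 * (L2 + 0.001) * PhiB η := by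
      refine hK.trans ?_
      apply mul_le_mul_of_nonneg_right _ hPhi0
      linarith
    have h5 := mul_le_mul_of_nonneg_left h4 h3
    have h6 := mul_le_mul_of_nonneg_right hBu h3
    linarith
  have hn2 : Real.exp (2 * L1) ≤ (n : ℝ) ^ 2 := by
    have h1 : Real.exp (2 * L1) ≤ Real.exp (2 * L) := Real.exp_le_exp.mpr (by linarith)
    have h2 : Real.exp (2 * L) = (n : ℝ) ^ 2 := by
      rw [two_mul, Real.exp_add, hL, Real.exp_log hn0]
      ring
    linarith
  have e3 : (Real.exp (2 * L1) / 2 - 2) * V * (8 - 6 * (L2 + 0.001) / η - S - 0.05)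
      ≤ N * V * (8 - 6 * (L2 + 0.001) / η - S - 0.05) := by
    apply mul_le_mul_of_nonneg_right _ hpos
    apply mul_le_mul_of_nonneg_right _ hV0.le
    linarith
  have e4 : (N : ℝ) * V * (8 - 6 * (L2 + 0.001) / η - S) ≤ N * (B * V - S * V) := by
    have : (N : ℝ) * (B * V - S * V) = N * V * (B - S) := by ring
    rw [this]
    apply mul_le_mul_of_nonneg_left _ (by positivity)
    linarith
  have e5 : 0.05 * N * V ≤ N * (B * V - ∑ p ∈ Pr η, wt η p * (2 / ((p : ℝ) - 1))
        * (if p ∈ W then 0 else V))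
      - (B * 3 ^ W.card + 2 * 3 ^ W.card
        * ∑ p ∈ Pr η, wt η p * (Kp (6 * Real.log (n + 1)) p : ℝ)) := by
    have h1 : (N : ℝ) * (B * V - S * V) ≤ N * (B * V - ∑ p ∈ Pr η, wt η p * (2 / ((p : ℝ) - 1))
        * (if p ∈ W then 0 else V)) := by
      apply mul_le_mul_of_nonneg_left _ hN0
      linarith
    have h2 : N * V * (8 - 6 * (L2 + 0.001) / η - S - 0.05)
        = N * V * (8 - 6 * (L2 + 0.001) / η - S) - 0.05 * N * V := by ring
    linarith
  refine e5.trans (hw.trans ?_)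
  -- upper bound by the good ones
  have e6 : ∑ t ∈ Ico s (s + N), (B - ∑ p ∈ Pr η, wt η p * ((F t).factorization p : ℝ)) * UW W t
      ≤ ∑ t ∈ Ico s (s + N), if Good7 n t then (8 : ℝ) else 0 := by
    refine Finset.sum_le_sum (fun t ht => ?_)
    have hsum0 : 0 ≤ ∑ p ∈ Pr η, wt η p * ((F t).factorization p : ℝ) :=
      Finset.sum_nonneg (fun p hp => mul_nonneg (wt_nonneg hη0 hp) (Nat.cast_nonneg _))
    have hU0 := UW_nonneg W t
    have hU1 := UW_le_one W t
    split_ifs with hg
    · calc (B - ∑ p ∈ Pr η, wt η p * ((F t).factorization p : ℝ)) * UW W t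
          ≤ 8 * UW W t := mul_le_mul_of_nonneg_right (by linarith) hU0
        _ ≤ 8 := by linarith
    · have h8 : 7 < Ω (F t) := by
        by_contra hcon
        push Not at hcon
        apply hg
        refine ⟨hcon, fun p hpp hd => ?_⟩
        have h5 := five_le_of_dvd_F hpp hd
        have h6 : (n : ℝ) < (5 : ℝ) ^ 50 := by
          rw [← Real.log_lt_log_iff hn0 (by norm_num), Real.log_pow]
          have := Real.log_five_gt_d9
          push_cast
          linarith
        have h7 : n < 5 ^ 50 := by exact_mod_cast h6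
        exact h7.trans_le (Nat.pow_le_pow_left h5 50)
      have h1 := weight_lower (k := 7) (B := B) hη0 (hFl t ht)
        (by rw [hB]; norm_num) h8
      exact mul_nonpos_of_nonpos_of_nonneg (by linarith) hU0
  refine e6.trans (le_of_eq ?_)
  rw [← Finset.sum_filter, Finset.sum_const, nsmul_eq_mul]
  ring

end Pool.Agent.Lib.MP_d610d0_nt
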