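import Mathlib
import Pool.Agent.Lib.MP_d610d0_nt.Legendre

/-!
Numerical verification of the ranges for moderate `n`.
-/

set_option autoImplicit false

namespace Pool.Agent.Lib.MP_d610d0_nt

open Finset

lemma exp_nat_upper (k : ℕ) : Real.exp k ≤ 2.71829 ^ k := by
  have h : Real.exp 1 ≤ 2.71829 := by
    have := Real.exp_one_lt_d9
    linarith
  have := Real.exp_pos 1
  calc Real.exp k = Real.exp 1 ^ k := by rw [← Real.exp_nat_mul]; simp
    _ ≤ _ := pow_le_pow_left₀ this.le h k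

lemma exp_nat_lower (k : ℕ) : 2.71828 ^ k ≤ Real.exp k := by
  have h : 2.71828 ≤ Real.exp 1 := by
    have := Real.exp_one_gt_d9
    linarith
  calc (2.71828 : ℝ) ^ k ≤ Real.exp 1 ^ k := pow_le_pow_left₀ (by norm_num) h k
    _ = Real.exp k := by rw [← Real.exp_nat_mul]; simp

lemma PhiB_upper {m : ℕ} {η : ℝ} (hη : η = 2 * m) (h8 : 8 < η) :
    PhiB η ≤ 2.24 * (1 / (2.71828 * (1 / 2 - 4 / η))) / η ^ 3 * 2.71829 ^ (2 * m)
      + 0.63 * 2.71829 ^ m := by
  have h1 : 4 / η < 1 / 2 := by rw [div_lt_iff₀ (by linarith)]; linarith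
  have h2 : 0 < 1 / 2 - 4 / η := by linarith
  have h3 : Cp η ≤ 1 / (2.71828 * (1 / 2 - 4 / η)) := by
    unfold Cp
    apply one_div_le_one_div_of_le (by positivity)
    apply mul_le_mul_of_nonneg_right _ h2.le
    have := Real.exp_one_gt_d9
    linarith
  have h4 := Cp_pos h8
  have h5 : Real.exp η ≤ 2.71829 ^ (2 * m) := by
    have := exp_nat_upper (2 * m)
    rw [hη]
    push_cast at this
    exact this
  have h6 : Real.exp (η / 2) ≤ 2.71829 ^ m := by
    have := exp_nat_upper m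
    rw [hη]
    rw [show 2 * (m : ℝ) / 2 = m by ring]
    exact this
  unfold PhiB
  have hη0 : 0 < η := by linarith
  apply add_le_add
  · apply mul_le_mul _ h5 (Real.exp_pos _).le (by positivity)
    apply div_le_div_of_nonneg_right _ (by positivity)
    linarith
  · linarith

lemma log_upper {x : ℝ} (hx : 0 < x) (m j : ℕ) (hm : 0 < m) (h : x ^ m ≤ 2 ^ j) :
    Real.log x ≤ j / m * 0.6931471808 := by
  have h1 := Real.log_le_log (by positivity) h
  rw [Real.log_pow, Real.log_pow] at h1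
  have hm' : (0 : ℝ) < m := by exact_mod_cast hm
  have h2 := Real.log_two_lt_d9
  rw [div_mul_eq_mul_div, le_div_iff₀ hm']
  have h3 : (j : ℝ) * Real.log 2 ≤ j * 0.6931471808 :=
    mul_le_mul_of_nonneg_left h2.le (Nat.cast_nonneg _)
  linarith

lemma log_lower {x : ℝ} (m j : ℕ) (hm : 0 < m) (h : 2 ^ j ≤ x ^ m) :
    j / m * 0.6931471803 ≤ Real.log x := by
  have h1 := Real.log_le_log (by positivity) h
  rw [Real.log_pow, Real.log_pow] at h1
  have hm' : (0 : ℝ) < m := by exact_mod_cast hm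
  have h2 := Real.log_two_gt_d9
  rw [div_mul_eq_mul_div, div_le_iff₀ hm']
  have h3 : (j : ℝ) * 0.6931471803 ≤ j * Real.log 2 :=
    mul_le_mul_of_nonneg_left h2.le (Nat.cast_nonneg _)
  linarith

lemma piece_aux {k : ℕ} {Φ Φu E El V X Xl c : ℝ} (h1 : Φ ≤ Φu) (h2 : El ≤ E) (h3 : Xl ≤ X)
    (hV : 0 < V) (hEl : 0 ≤ El / 2 - 2) (hXl : 0 ≤ Xl) (hc : 0 ≤ c)
    (h : 3 ^ k * (8 + c * Φu) ≤ (El / 2 - 2) * V * Xl) :
    3 ^ k * (8 + c * Φ) ≤ (E / 2 - 2) * V * X := by
  have a1 : (3 : ℝ) ^ k * (8 + c * Φ) ≤ 3 ^ k * (8 + c * Φu) := by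
    apply mul_le_mul_of_nonneg_left _ (by positivity)
    have := mul_le_mul_of_nonneg_left h1 hc
    linarith
  have a2 : (El / 2 - 2) * V * Xl ≤ (E / 2 - 2) * V * X := by
    apply mul_le_mul _ h3 hXl _
    · apply mul_le_mul_of_nonneg_right _ hV.le
      linarith
    · apply mul_nonneg _ hV.le
      linarith
  exact a1.trans (h.trans a2)

/-- the sieving primes. -/
def W1 : Finset ℕ := {5}
def W8 : Finset ℕ := {5, 7, 11, 13, 17, 19, 23, 29}

lemma W1_prime : ∀ q ∈ W1, q.Prime ∧ 5 ≤ q := by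
  intro q hq
  simp only [W1, Finset.mem_singleton] at hq
  subst hq
  norm_num

lemma W8_prime : ∀ q ∈ W8, q.Prime ∧ 5 ≤ q := by
  intro q hq
  simp only [W8, Finset.mem_insert, Finset.mem_singleton] at hq
  rcases hq with h | h | h | h | h | h | h | h <;> subst h <;> norm_num

lemma W1_out {p : ℕ} (hp : p.Prime) (h5 : 5 ≤ p) (hn : p ∉ W1) : 7 ≤ p := by
  by_contra h
  push Not at h
  have : p < 7 := h
  interval_cases p
  · exact hn (by decide)
  · exact absurd hp (by norm_num)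

lemma W8_out {p : ℕ} (hp : p.Prime) (h5 : 5 ≤ p) (hn : p ∉ W8) : 31 ≤ p := by
  by_contra h
  push Not at h
  have : p < 31 := h
  interval_cases p <;> first | exact hn (by decide) | exact absurd hp (by norm_num)

lemma W1_init : ∀ q ∈ W1, ∀ p : ℕ, p.Prime → 5 ≤ p → p ∉ W1 → q < p := by
  intro q hq p hp h5 hn
  have h1 := W1_out hp h5 hn
  simp only [W1, Finset.mem_singleton] at hq
  omega

lemma W8_init : ∀ q ∈ W8, ∀ p : ℕ, p.Prime → 5 ≤ p → p ∉ W8 → q < p := by
  intro q hq p hp h5 hn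
  have h1 := W8_out hp h5 hn
  simp only [W8, Finset.mem_insert, Finset.mem_singleton] at hq
  omega

lemma W1_u : 2 * (1.412 : ℝ) ≤ 2.02 + ∑ q ∈ W1, ca q := by
  simp only [W1, Finset.sum_singleton, ca]
  have := Real.log_five_gt_d9
  norm_num
  linarith

lemma W8_u : 2 * (2.785 : ℝ) ≤ 2.02 + ∑ q ∈ W8, ca q := by
  have h5 := Real.log_five_gt_d9
  have h7 := log_lower (x := 7) 5 14 (by norm_num) (by norm_num)
  have h11 := log_lower (x := 11) 11 38 (by norm_num) (by norm_num)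
  have h13 := log_lower (x := 13) 10 37 (by norm_num) (by norm_num)
  have h17 := log_lower (x := 17) 12 49 (by norm_num) (by norm_num)
  have h19 := log_lower (x := 19) 9 38 (by norm_num) (by norm_num)
  have h23 := log_lower (x := 23) 2 9 (by norm_num) (by norm_num)
  have h29 := log_lower (x := 29) 7 34 (by norm_num) (by norm_num)
  unfold W8
  rw [Finset.sum_insert (by decide), Finset.sum_insert (by decide), Finset.sum_insert (by decide),
    Finset.sum_insert (by decide), Finset.sum_insert (by decide), Finset.sum_insert (by decide),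
    Finset.sum_insert (by decide), Finset.sum_singleton]
  unfold ca
  norm_num at h7 h11 h13 h17 h19 h23 h29 ⊢
  linarith

lemma W1_u2 : ∀ p : ℕ, p.Prime → 5 ≤ p → p ∉ W1 → (1.412 : ℝ) ≤ Real.log p := by
  intro p hp h5 hn
  have h1 := W1_out hp h5 hn
  have h2 := log_lower (x := 7) 5 14 (by norm_num) (by norm_num)
  have h3 : Real.log 7 ≤ Real.log p := Real.log_le_log (by norm_num) (by exact_mod_cast h1)
  norm_num at h2 ⊢
  linarith

lemma W8_u2 : ∀ p : ℕ, p.Prime → 5 ≤ p → p ∉ W8 → (2.785 : ℝ) ≤ Real.log p := by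
  intro p hp h5 hn
  have h1 := W8_out hp h5 hn
  have h2 := log_lower (x := 29) 7 34 (by norm_num) (by norm_num)
  have h3 : Real.log 29 ≤ Real.log p := by
    apply Real.log_le_log (by norm_num)
    have : (31 : ℝ) ≤ p := by exact_mod_cast h1
    linarith
  norm_num at h2 ⊢
  linarith

lemma W_sub {W : Finset ℕ} {η : ℝ} (hW : ∀ q ∈ W, q.Prime ∧ 5 ≤ q) (h32 : ∀ q ∈ W, q < 32)
    (hη : 4 ≤ η) : W ⊆ Pr η := by
  intro q hq
  obtain ⟨h1, h2⟩ := hW q hq
  refine mem_Pr.mpr ⟨h1, h2, ?_⟩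
  have h3 : (q : ℝ) ≤ 32 := by
    have := h32 q hq
    exact_mod_cast this.le
  have h4 : Real.log q ≤ Real.log 32 := Real.log_le_log (by exact_mod_cast h1.pos) h3
  have h5 := log_upper (x := 32) (by norm_num) 1 5 (by norm_num) (by norm_num)
  norm_num at h5
  linarith

lemma W1_V : (3 / 5 : ℝ) = ∏ q ∈ W1, (1 - 2 / (q : ℝ)) := by
  simp only [W1, Finset.prod_singleton]
  norm_num

lemma W8_V : (229635 / 1153243 : ℝ) = ∏ q ∈ W8, (1 - 2 / (q : ℝ)) := by
  unfold W8
  rw [Finset.prod_insert (by decide), Finset.prod_insert (by decide),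
    Finset.prod_insert (by decide), Finset.prod_insert (by decide),
    Finset.prod_insert (by decide), Finset.prod_insert (by decide),
    Finset.prod_insert (by decide), Finset.prod_singleton]
  norm_num

open Classical in
lemma piece0 {n s N : ℕ} (hL1 : 7 ≤ Real.log n) (hL2 : Real.log n ≤ (19 / 2))
    (hn : 1000 ≤ n) (hN : (n : ℝ) ^ 2 / 2 - 2 ≤ N)
    (hF : ∀ t ∈ Ico s (s + N), F t ≤ (n + 1) ^ 6) :
    0.05 * N * (3 / 5) ≤ 8 * (((Ico s (s + N)).filter (Good7 n)).card : ℝ) := by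
  have hlog : Real.log (12 / 1.412) ≤ 105 / 34 * 0.6931471808 := by
    have := log_upper (x := 12 / 1.412) (by norm_num) 34 105 (by norm_num) (by norm_num)
    exact_mod_cast this
  have hE : (2.71828 : ℝ) ^ 14 ≤ Real.exp (2 * 7) := by
    have := exp_nat_lower 14
    norm_num at this ⊢
    exact this
  have hP := PhiB_upper (m := 6) (η := 12) (by norm_num) (by norm_num)
  have hX : (8 - 6 * ((19 / 2) + 0.001) / 12 - (2 * (105 / 34 * 0.6931471808) - 2
      + 2 * 1.412 / 12) - 0.05 : ℝ)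
      ≤ 8 - 6 * ((19 / 2) + 0.001) / 12 - (2 * Real.log (12 / 1.412) - 2 + 2 * 1.412 / 12)
        - 0.05 := by linarith
  have hX0 : (0 : ℝ) ≤ 8 - 6 * ((19 / 2) + 0.001) / 12 - (2 * (105 / 34 * 0.6931471808) - 2
      + 2 * 1.412 / 12) - 0.05 := by norm_num
  refine leg_card (W := W1) (V := 3 / 5) (u := 1.412) (η := 12) (L1 := 7) (L2 := (19 / 2))
    W1_prime W1_init W1_V (by norm_num) (by norm_num) W1_u W1_u2 (by norm_num)
    (W_sub W1_prime (by decide) (by norm_num)) (by norm_num) hL1 hL2 (by norm_num) hn hN hF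
    (hX0.trans hX) ?_
  have hcard : W1.card = 1 := by decide
  rw [hcard]
  refine piece_aux hP hE hX (by norm_num) (by norm_num) hX0 (by norm_num) ?_
  norm_num

open Classical in
lemma piece1 {n s N : ℕ} (hL1 : (19 / 2) ≤ Real.log n) (hL2 : Real.log n ≤ 13)
    (hn : 1000 ≤ n) (hN : (n : ℝ) ^ 2 / 2 - 2 ≤ N)
    (hF : ∀ t ∈ Ico s (s + N), F t ≤ (n + 1) ^ 6) :
    0.05 * N * (3 / 5) ≤ 8 * (((Ico s (s + N)).filter (Good7 n)).card : ℝ) := by
  have hlog : Real.log (18 / 1.412) ≤ 147 / 40 * 0.6931471808 := by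
    have := log_upper (x := 18 / 1.412) (by norm_num) 40 147 (by norm_num) (by norm_num)
    exact_mod_cast this
  have hE : (2.71828 : ℝ) ^ 19 ≤ Real.exp (2 * (19 / 2)) := by
    have := exp_nat_lower 19
    norm_num at this ⊢
    exact this
  have hP := PhiB_upper (m := 9) (η := 18) (by norm_num) (by norm_num)
  have hX : (8 - 6 * (13 + 0.001) / 18 - (2 * (147 / 40 * 0.6931471808) - 2
      + 2 * 1.412 / 18) - 0.05 : ℝ)
      ≤ 8 - 6 * (13 + 0.001) / 18 - (2 * Real.log (18 / 1.412) - 2 + 2 * 1.412 / 18)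
        - 0.05 := by linarith
  have hX0 : (0 : ℝ) ≤ 8 - 6 * (13 + 0.001) / 18 - (2 * (147 / 40 * 0.6931471808) - 2
      + 2 * 1.412 / 18) - 0.05 := by norm_num
  refine leg_card (W := W1) (V := 3 / 5) (u := 1.412) (η := 18) (L1 := (19 / 2)) (L2 := 13)
    W1_prime W1_init W1_V (by norm_num) (by norm_num) W1_u W1_u2 (by norm_num)
    (W_sub W1_prime (by decide) (by norm_num)) (by norm_num) hL1 hL2 (by norm_num) hn hN hF
    (hX0.trans hX) ?_
  have hcard : W1.card = 1 := by decide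
  rw [hcard]
  refine piece_aux hP hE hX (by norm_num) (by norm_num) hX0 (by norm_num) ?_
  norm_num

open Classical in
lemma piece2 {n s N : ℕ} (hL1 : 13 ≤ Real.log n) (hL2 : Real.log n ≤ 16)
    (hn : 1000 ≤ n) (hN : (n : ℝ) ^ 2 / 2 - 2 ≤ N)
    (hF : ∀ t ∈ Ico s (s + N), F t ≤ (n + 1) ^ 6) :
    0.05 * N * (3 / 5) ≤ 8 * (((Ico s (s + N)).filter (Good7 n)).card : ℝ) := by
  have hlog : Real.log (24 / 1.412) ≤ 139 / 34 * 0.6931471808 := by
    have := log_upper (x := 24 / 1.412) (by norm_num) 34 139 (by norm_num) (by norm_num)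
    exact_mod_cast this
  have hE : (2.71828 : ℝ) ^ 26 ≤ Real.exp (2 * 13) := by
    have := exp_nat_lower 26
    norm_num at this ⊢
    exact this
  have hP := PhiB_upper (m := 12) (η := 24) (by norm_num) (by norm_num)
  have hX : (8 - 6 * (16 + 0.001) / 24 - (2 * (139 / 34 * 0.6931471808) - 2
      + 2 * 1.412 / 24) - 0.05 : ℝ)
      ≤ 8 - 6 * (16 + 0.001) / 24 - (2 * Real.log (24 / 1.412) - 2 + 2 * 1.412 / 24)
        - 0.05 := by linarith
  have hX0 : (0 : ℝ) ≤ 8 - 6 * (16 + 0.001) / 24 - (2 * (139 / 34 * 0.6931471808) - 2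
      + 2 * 1.412 / 24) - 0.05 := by norm_num
  refine leg_card (W := W1) (V := 3 / 5) (u := 1.412) (η := 24) (L1 := 13) (L2 := 16)
    W1_prime W1_init W1_V (by norm_num) (by norm_num) W1_u W1_u2 (by norm_num)
    (W_sub W1_prime (by decide) (by norm_num)) (by norm_num) hL1 hL2 (by norm_num) hn hN hF
    (hX0.trans hX) ?_
  have hcard : W1.card = 1 := by decide
  rw [hcard]
  refine piece_aux hP hE hX (by norm_num) (by norm_num) hX0 (by norm_num) ?_
  norm_num

open Classical in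
lemma piece3 {n s N : ℕ} (hL1 : 16 ≤ Real.log n) (hL2 : Real.log n ≤ (39 / 2))
    (hn : 1000 ≤ n) (hN : (n : ℝ) ^ 2 / 2 - 2 ≤ N)
    (hF : ∀ t ∈ Ico s (s + N), F t ≤ (n + 1) ^ 6) :
    0.05 * N * (229635 / 1153243) ≤ 8 * (((Ico s (s + N)).filter (Good7 n)).card : ℝ) := by
  have hlog : Real.log (22 / 2.785) ≤ 3 / 1 * 0.6931471808 := by
    have := log_upper (x := 22 / 2.785) (by norm_num) 1 3 (by norm_num) (by norm_num)
    exact_mod_cast this
  have hE : (2.71828 : ℝ) ^ 32 ≤ Real.exp (2 * 16) := by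
    have := exp_nat_lower 32
    norm_num at this ⊢
    exact this
  have hP := PhiB_upper (m := 11) (η := 22) (by norm_num) (by norm_num)
  have hX : (8 - 6 * ((39 / 2) + 0.001) / 22 - (2 * (3 / 1 * 0.6931471808) - 2
      + 2 * 2.785 / 22) - 0.05 : ℝ)
      ≤ 8 - 6 * ((39 / 2) + 0.001) / 22 - (2 * Real.log (22 / 2.785) - 2 + 2 * 2.785 / 22)
        - 0.05 := by linarith
  have hX0 : (0 : ℝ) ≤ 8 - 6 * ((39 / 2) + 0.001) / 22 - (2 * (3 / 1 * 0.6931471808) - 2
      + 2 * 2.785 / 22) - 0.05 := by norm_num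
  refine leg_card (W := W8) (V := 229635 / 1153243) (u := 2.785) (η := 22) (L1 := 16) (L2 := (39 / 2))
    W8_prime W8_init W8_V (by norm_num) (by norm_num) W8_u W8_u2 (by norm_num)
    (W_sub W8_prime (by decide) (by norm_num)) (by norm_num) hL1 hL2 (by norm_num) hn hN hF
    (hX0.trans hX) ?_
  have hcard : W8.card = 8 := by decide
  rw [hcard]
  refine piece_aux hP hE hX (by norm_num) (by norm_num) hX0 (by norm_num) ?_
  norm_num

open Classical in
lemma piece4 {n s N : ℕ} (hL1 : (39 / 2) ≤ Real.log n) (hL2 : Real.log n ≤ 24)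
    (hn : 1000 ≤ n) (hN : (n : ℝ) ^ 2 / 2 - 2 ≤ N)
    (hF : ∀ t ∈ Ico s (s + N), F t ≤ (n + 1) ^ 6) :
    0.05 * N * (229635 / 1153243) ≤ 8 * (((Ico s (s + N)).filter (Good7 n)).card : ℝ) := by
  have hlog : Real.log (30 / 2.785) ≤ 127 / 37 * 0.6931471808 := by
    have := log_upper (x := 30 / 2.785) (by norm_num) 37 127 (by norm_num) (by norm_num)
    exact_mod_cast this
  have hE : (2.71828 : ℝ) ^ 39 ≤ Real.exp (2 * (39 / 2)) := by
    have := exp_nat_lower 39
    norm_num at this ⊢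
    exact this
  have hP := PhiB_upper (m := 15) (η := 30) (by norm_num) (by norm_num)
  have hX : (8 - 6 * (24 + 0.001) / 30 - (2 * (127 / 37 * 0.6931471808) - 2
      + 2 * 2.785 / 30) - 0.05 : ℝ)
      ≤ 8 - 6 * (24 + 0.001) / 30 - (2 * Real.log (30 / 2.785) - 2 + 2 * 2.785 / 30)
        - 0.05 := by linarith
  have hX0 : (0 : ℝ) ≤ 8 - 6 * (24 + 0.001) / 30 - (2 * (127 / 37 * 0.6931471808) - 2
      + 2 * 2.785 / 30) - 0.05 := by norm_num
  refine leg_card (W := W8) (V := 229635 / 1153243) (u := 2.785) (η := 30) (L1 := (39 / 2)) (L2 := 24)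
    W8_prime W8_init W8_V (by norm_num) (by norm_num) W8_u W8_u2 (by norm_num)
    (W_sub W8_prime (by decide) (by norm_num)) (by norm_num) hL1 hL2 (by norm_num) hn hN hF
    (hX0.trans hX) ?_
  have hcard : W8.card = 8 := by decide
  rw [hcard]
  refine piece_aux hP hE hX (by norm_num) (by norm_num) hX0 (by norm_num) ?_
  norm_num

open Classical in
lemma piece5 {n s N : ℕ} (hL1 : 24 ≤ Real.log n) (hL2 : Real.log n ≤ (57 / 2))
    (hn : 1000 ≤ n) (hN : (n : ℝ) ^ 2 / 2 - 2 ≤ N)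
    (hF : ∀ t ∈ Ico s (s + N), F t ≤ (n + 1) ^ 6) :
    0.05 * N * (229635 / 1153243) ≤ 8 * (((Ico s (s + N)).filter (Good7 n)).card : ℝ) := by
  have hlog : Real.log (38 / 2.785) ≤ 132 / 35 * 0.6931471808 := by
    have := log_upper (x := 38 / 2.785) (by norm_num) 35 132 (by norm_num) (by norm_num)
    exact_mod_cast this
  have hE : (2.71828 : ℝ) ^ 48 ≤ Real.exp (2 * 24) := by
    have := exp_nat_lower 48
    norm_num at this ⊢
    exact this
  have hP := PhiB_upper (m := 19) (η := 38) (by norm_num) (by norm_num)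
  have hX : (8 - 6 * ((57 / 2) + 0.001) / 38 - (2 * (132 / 35 * 0.6931471808) - 2
      + 2 * 2.785 / 38) - 0.05 : ℝ)
      ≤ 8 - 6 * ((57 / 2) + 0.001) / 38 - (2 * Real.log (38 / 2.785) - 2 + 2 * 2.785 / 38)
        - 0.05 := by linarith
  have hX0 : (0 : ℝ) ≤ 8 - 6 * ((57 / 2) + 0.001) / 38 - (2 * (132 / 35 * 0.6931471808) - 2
      + 2 * 2.785 / 38) - 0.05 := by norm_num
  refine leg_card (W := W8) (V := 229635 / 1153243) (u := 2.785) (η := 38) (L1 := 24) (L2 := (57 / 2))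
    W8_prime W8_init W8_V (by norm_num) (by norm_num) W8_u W8_u2 (by norm_num)
    (W_sub W8_prime (by decide) (by norm_num)) (by norm_num) hL1 hL2 (by norm_num) hn hN hF
    (hX0.trans hX) ?_
  have hcard : W8.card = 8 := by decide
  rw [hcard]
  refine piece_aux hP hE hX (by norm_num) (by norm_num) hX0 (by norm_num) ?_
  norm_num

open Classical in
lemma piece6 {n s N : ℕ} (hL1 : (57 / 2) ≤ Real.log n) (hL2 : Real.log n ≤ (65 / 2))
    (hn : 1000 ≤ n) (hN : (n : ℝ) ^ 2 / 2 - 2 ≤ N)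
    (hF : ∀ t ∈ Ico s (s + N), F t ≤ (n + 1) ^ 6) :
    0.05 * N * (229635 / 1153243) ≤ 8 * (((Ico s (s + N)).filter (Good7 n)).card : ℝ) := by
  have hlog : Real.log (48 / 2.785) ≤ 152 / 37 * 0.6931471808 := by
    have := log_upper (x := 48 / 2.785) (by norm_num) 37 152 (by norm_num) (by norm_num)
    exact_mod_cast this
  have hE : (2.71828 : ℝ) ^ 57 ≤ Real.exp (2 * (57 / 2)) := by
    have := exp_nat_lower 57
    norm_num at this ⊢
    exact this
  have hP := PhiB_upper (m := 24) (η := 48) (by norm_num) (by norm_num)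
  have hX : (8 - 6 * ((65 / 2) + 0.001) / 48 - (2 * (152 / 37 * 0.6931471808) - 2
      + 2 * 2.785 / 48) - 0.05 : ℝ)
      ≤ 8 - 6 * ((65 / 2) + 0.001) / 48 - (2 * Real.log (48 / 2.785) - 2 + 2 * 2.785 / 48)
        - 0.05 := by linarith
  have hX0 : (0 : ℝ) ≤ 8 - 6 * ((65 / 2) + 0.001) / 48 - (2 * (152 / 37 * 0.6931471808) - 2
      + 2 * 2.785 / 48) - 0.05 := by norm_num
  refine leg_card (W := W8) (V := 229635 / 1153243) (u := 2.785) (η := 48) (L1 := (57 / 2)) (L2 := (65 / 2))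
    W8_prime W8_init W8_V (by norm_num) (by norm_num) W8_u W8_u2 (by norm_num)
    (W_sub W8_prime (by decide) (by norm_num)) (by norm_num) hL1 hL2 (by norm_num) hn hN hF
    (hX0.trans hX) ?_
  have hcard : W8.card = 8 := by decide
  rw [hcard]
  refine piece_aux hP hE hX (by norm_num) (by norm_num) hX0 (by norm_num) ?_
  norm_num

open Classical in
lemma piece7 {n s N : ℕ} (hL1 : (65 / 2) ≤ Real.log n) (hL2 : Real.log n ≤ (71 / 2))
    (hn : 1000 ≤ n) (hN : (n : ℝ) ^ 2 / 2 - 2 ≤ N)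
    (hF : ∀ t ∈ Ico s (s + N), F t ≤ (n + 1) ^ 6) :
    0.05 * N * (229635 / 1153243) ≤ 8 * (((Ico s (s + N)).filter (Good7 n)).card : ℝ) := by
  have hlog : Real.log (56 / 2.785) ≤ 13 / 3 * 0.6931471808 := by
    have := log_upper (x := 56 / 2.785) (by norm_num) 3 13 (by norm_num) (by norm_num)
    exact_mod_cast this
  have hE : (2.71828 : ℝ) ^ 65 ≤ Real.exp (2 * (65 / 2)) := by
    have := exp_nat_lower 65
    norm_num at this ⊢
    exact this
  have hP := PhiB_upper (m := 28) (η := 56) (by norm_num) (by norm_num)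
  have hX : (8 - 6 * ((71 / 2) + 0.001) / 56 - (2 * (13 / 3 * 0.6931471808) - 2
      + 2 * 2.785 / 56) - 0.05 : ℝ)
      ≤ 8 - 6 * ((71 / 2) + 0.001) / 56 - (2 * Real.log (56 / 2.785) - 2 + 2 * 2.785 / 56)
        - 0.05 := by linarith
  have hX0 : (0 : ℝ) ≤ 8 - 6 * ((71 / 2) + 0.001) / 56 - (2 * (13 / 3 * 0.6931471808) - 2
      + 2 * 2.785 / 56) - 0.05 := by norm_num
  refine leg_card (W := W8) (V := 229635 / 1153243) (u := 2.785) (η := 56) (L1 := (65 / 2)) (L2 := (71 / 2))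
    W8_prime W8_init W8_V (by norm_num) (by norm_num) W8_u W8_u2 (by norm_num)
    (W_sub W8_prime (by decide) (by norm_num)) (by norm_num) hL1 hL2 (by norm_num) hn hN hF
    (hX0.trans hX) ?_
  have hcard : W8.card = 8 := by decide
  rw [hcard]
  refine piece_aux hP hE hX (by norm_num) (by norm_num) hX0 (by norm_num) ?_
  norm_num

open Classical in
lemma piece8 {n s N : ℕ} (hL1 : (71 / 2) ≤ Real.log n) (hL2 : Real.log n ≤ 36)
    (hn : 1000 ≤ n) (hN : (n : ℝ) ^ 2 / 2 - 2 ≤ N)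
    (hF : ∀ t ∈ Ico s (s + N), F t ≤ (n + 1) ^ 6) :
    0.05 * N * (229635 / 1153243) ≤ 8 * (((Ico s (s + N)).filter (Good7 n)).card : ℝ) := by
  have hlog : Real.log (62 / 2.785) ≤ 103 / 23 * 0.6931471808 := by
    have := log_upper (x := 62 / 2.785) (by norm_num) 23 103 (by norm_num) (by norm_num)
    exact_mod_cast this
  have hE : (2.71828 : ℝ) ^ 71 ≤ Real.exp (2 * (71 / 2)) := by
    have := exp_nat_lower 71
    norm_num at this ⊢
    exact this
  have hP := PhiB_upper (m := 31) (η := 62) (by norm_num) (by norm_num)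
  have hX : (8 - 6 * (36 + 0.001) / 62 - (2 * (103 / 23 * 0.6931471808) - 2
      + 2 * 2.785 / 62) - 0.05 : ℝ)
      ≤ 8 - 6 * (36 + 0.001) / 62 - (2 * Real.log (62 / 2.785) - 2 + 2 * 2.785 / 62)
        - 0.05 := by linarith
  have hX0 : (0 : ℝ) ≤ 8 - 6 * (36 + 0.001) / 62 - (2 * (103 / 23 * 0.6931471808) - 2
      + 2 * 2.785 / 62) - 0.05 := by norm_num
  refine leg_card (W := W8) (V := 229635 / 1153243) (u := 2.785) (η := 62) (L1 := (71 / 2)) (L2 := 36)
    W8_prime W8_init W8_V (by norm_num) (by norm_num) W8_u W8_u2 (by norm_num)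
    (W_sub W8_prime (by decide) (by norm_num)) (by norm_num) hL1 hL2 (by norm_num) hn hN hF
    (hX0.trans hX) ?_
  have hcard : W8.card = 8 := by decide
  rw [hcard]
  refine piece_aux hP hE hX (by norm_num) (by norm_num) hX0 (by norm_num) ?_
  norm_num

end Pool.Agent.Lib.MP_d610d0_nt
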