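import Mathlib
import Pool.Agent.Lib.MP_d610d0_nt.Pieces
import Pool.Agent.Lib.MP_d610d0_nt.Base

/-!
Assembly.
-/

set_option autoImplicit false

namespace Pool.Agent.Lib.MP_d610d0_nt

open Finset
open scoped ArithmeticFunction.Omega

lemma range_t (n : ℕ) (hn : 3 ≤ n) :
    ∃ s N : ℕ, (n : ℝ) ^ 2 / 2 ≤ N ∧
      ∀ t ∈ Ico s (s + N), n ^ 3 < 6 * t + 5 ∧ 6 * t + 7 < (n + 1) ^ 3 := by
  refine ⟨(n ^ 3 + 1) / 6, ((n + 1) ^ 3 - 8) / 6 + 1 - (n ^ 3 + 1) / 6, ?_, ?_⟩
  · have e : (n + 1) ^ 3 = n ^ 3 + 3 * n ^ 2 + 3 * n + 1 := by ring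
    have h1 : n ^ 2 ≤ 2 * (((n + 1) ^ 3 - 8) / 6 + 1 - (n ^ 3 + 1) / 6) := by
      rw [e]
      generalize n ^ 3 = c
      have : 3 * n ≤ n ^ 2 := by nlinarith
      generalize hd : n ^ 2 = d at this ⊢
      omega
    have h2 : ((n ^ 2 : ℕ) : ℝ) ≤ ((2 * (((n + 1) ^ 3 - 8) / 6 + 1 - (n ^ 3 + 1) / 6) : ℕ) : ℝ) := by
      exact_mod_cast h1
    push_cast at h2 ⊢
    linarith
  · intro t ht
    rw [Finset.mem_Ico] at ht
    have h8 : 8 ≤ (n + 1) ^ 3 := by
      calc 8 = 2 ^ 3 := by norm_num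
        _ ≤ (n + 1) ^ 3 := Nat.pow_le_pow_left (by omega) 3
    omega

lemma Pieces_all {n s N : ℕ} (hn : 1097 ≤ n) (hL : Real.log n ≤ 36)
    (hN : (n : ℝ) ^ 2 / 2 - 2 ≤ N) (hF : ∀ t ∈ Ico s (s + N), F t ≤ (n + 1) ^ 6) :
    ∃ S : Finset ℕ, S ⊆ Ico s (s + N) ∧ (∀ t ∈ S, Good7 n t) ∧ 0.0012 * (N : ℝ) ≤ S.card := by
  classical
  have h7 : 7 ≤ Real.log n := by
    have h1 : Real.exp 7 ≤ 1097 := by
      have := exp_nat_upper 7
      norm_num at this
      linarith
    rw [Real.le_log_iff_exp_le (by exact_mod_cast (by omega : 0 < n))]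
    have : (1097 : ℝ) ≤ n := by exact_mod_cast hn
    linarith
  have hN0 : (0 : ℝ) ≤ N := Nat.cast_nonneg N
  refine ⟨(Ico s (s + N)).filter (Good7 n), Finset.filter_subset _ _,
    fun t ht => (Finset.mem_filter.mp ht).2, ?_⟩
  set C := (((Ico s (s + N)).filter (Good7 n)).card : ℝ) with hC
  have key1 : 0.05 * N * (3 / 5) ≤ 8 * C → 0.0012 * (N : ℝ) ≤ C := by
    intro h
    linarith
  have key8 : 0.05 * N * (229635 / 1153243) ≤ 8 * C → 0.0012 * (N : ℝ) ≤ C := by
    intro h
    linarith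
  have hn' : 1000 ≤ n := by omega
  rcases le_or_gt (Real.log n) (19 / 2) with c0 | c0
  · exact key1 (piece0 h7 c0 hn' hN hF)
  rcases le_or_gt (Real.log n) 13 with c1 | c1
  · exact key1 (piece1 c0.le c1 hn' hN hF)
  rcases le_or_gt (Real.log n) 16 with c2 | c2
  · exact key1 (piece2 c1.le c2 hn' hN hF)
  rcases le_or_gt (Real.log n) (39 / 2) with c3 | c3
  · exact key8 (piece3 c2.le c3 hn' hN hF)
  rcases le_or_gt (Real.log n) 24 with c4 | c4
  · exact key8 (piece4 c3.le c4 hn' hN hF)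
  rcases le_or_gt (Real.log n) (57 / 2) with c5 | c5
  · exact key8 (piece5 c4.le c5 hn' hN hF)
  rcases le_or_gt (Real.log n) (65 / 2) with c6 | c6
  · exact key8 (piece6 c5.le c6 hn' hN hF)
  rcases le_or_gt (Real.log n) (71 / 2) with c7 | c7
  · exact key8 (piece7 c6.le c7 hn' hN hF)
  exact key8 (piece8 c7.le hL hn' hN hF)

/-- The main theorem. -/
theorem main_count (n : ℕ) (hn : 1 ≤ n) :
    ∃ S : Finset ℕ, (∀ m ∈ S, n ^ 3 < m ∧ m + 2 < (n + 1) ^ 3 ∧ Ω (m * (m + 2)) ≤ 7 ∧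
        ∀ p : ℕ, p.Prime → p ∣ m * (m + 2) → n < p ^ 50) ∧
      2 ≤ S.card ∧ (n : ℝ) ^ 2 / (1000000 * (Real.log (n + 1)) ^ 2) ≤ S.card := by
  classical
  rcases Nat.lt_or_ge n 1097 with hsmall | hbig
  · obtain ⟨x, y, hxy, hx, hy, hox, hoy⟩ := base_two hn (by omega)
    have hp50 : ∀ p : ℕ, p.Prime → n < p ^ 50 := by
      intro p hp
      calc n < 2 ^ 50 := by omega
        _ ≤ p ^ 50 := Nat.pow_le_pow_left hp.two_le 50
    refine ⟨{x, y}, ?_, ?_, ?_⟩
    · intro m hm
      rw [Finset.mem_insert, Finset.mem_singleton] at hm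
      rcases hm with rfl | rfl
      · exact ⟨hx, by omega, hox, fun p hp _ => hp50 p hp⟩
      · exact ⟨by omega, hy, hoy, fun p hp _ => hp50 p hp⟩
    · rw [Finset.card_pair hxy.ne]
    · rw [Finset.card_pair hxy.ne]
      have hn1 : (1 : ℝ) ≤ n := by exact_mod_cast hn
      have hn2 : (n : ℝ) ≤ 1096 := by exact_mod_cast (by omega : n ≤ 1096)
      rcases Nat.lt_or_ge n 2 with h | h
      · have : n = 1 := by omega
        subst this
        have hl := Real.log_two_gt_d9
        rw [div_le_iff₀ (by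
          have : 0 < Real.log (((1 : ℕ) : ℝ) + 1) := by
            apply Real.log_pos; norm_num
          positivity)]
        have e : (((1 : ℕ) : ℝ) + 1) = 2 := by norm_num
        rw [e]
        norm_num
        nlinarith
      · have hl : 1 ≤ Real.log (n + 1) := by
          rw [Real.le_log_iff_exp_le (by linarith)]
          have := Real.exp_one_lt_d9
          have h2 : (2 : ℝ) ≤ n := by exact_mod_cast h
          linarith
        rw [div_le_iff₀ (by positivity)]
        have : (1 : ℝ) ≤ Real.log (n + 1) ^ 2 := one_le_pow₀ hl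
        push_cast
        nlinarith
  · obtain ⟨s, N, hN, ht⟩ := range_t n (by omega)
    have hn1 : (1097 : ℝ) ≤ n := by exact_mod_cast hbig
    have hn0 : (0 : ℝ) < n := by linarith
    have hF : ∀ t ∈ Ico s (s + N), F t ≤ (n + 1) ^ 6 := by
      intro t h
      have h1 := (ht t h).2
      unfold F
      calc (6 * t + 5) * (6 * t + 7) ≤ (n + 1) ^ 3 * (n + 1) ^ 3 :=
            Nat.mul_le_mul (by omega) (by omega)
        _ = (n + 1) ^ 6 := by ring
    have hlog1 : Real.log n ≤ Real.log (n + 1) := Real.log_le_log hn0 (by linarith)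
    have hlog0 : 1 ≤ Real.log n := by
      rw [Real.le_log_iff_exp_le hn0]
      have := Real.exp_one_lt_d9
      linarith
    obtain ⟨S, hS1, hS2, hS3, hS4⟩ : ∃ S : Finset ℕ, S ⊆ Ico s (s + N) ∧ (∀ t ∈ S, Good7 n t) ∧
        (2 : ℝ) ≤ S.card ∧ (n : ℝ) ^ 2 / (1000000 * (Real.log n) ^ 2) ≤ S.card := by
      rcases le_or_gt (Real.log n) 36 with hc | hc
      · obtain ⟨S, h1, h2, h3⟩ := Pieces_all (s := s) (N := N) hbig hc (by linarith) hF
        refine ⟨S, h1, h2, ?_, ?_⟩
        · nlinarith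
        · rw [div_le_iff₀ (by positivity)]
          have h4 : (1 : ℝ) ≤ Real.log n ^ 2 := one_le_pow₀ hlog0
          have h5 : (n : ℝ) ^ 2 ≤ 1000 * 1 * S.card * 1000 := by nlinarith
          have h6 : (0 : ℝ) ≤ S.card := Nat.cast_nonneg _
          have h7 : (S.card : ℝ) * 1 ≤ S.card * Real.log n ^ 2 := mul_le_mul_of_nonneg_left h4 h6
          nlinarith
      · have h1 := sel_card (n := n) (s := s) (N := N) hc.le (by nlinarith) hF
        refine ⟨(Ico s (s + N)).filter (Good7 n), Finset.filter_subset _ _,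
          fun t ht => (Finset.mem_filter.mp ht).2, ?_, h1⟩
        refine le_trans ?_ h1
        rw [le_div_iff₀ (by positivity)]
        set L := Real.log n with hL
        have h2 : L ^ 5 / (Nat.factorial 5 : ℝ) ≤ Real.exp L :=
          Real.pow_div_factorial_le_exp L (by linarith) 5
        have h3 : Real.exp L = n := by rw [hL, Real.exp_log hn0]
        rw [h3] at h2
        norm_num [Nat.factorial] at h2
        have h4 : (36 : ℝ) ^ 4 ≤ L ^ 4 := pow_le_pow_left₀ (by norm_num) hc.le 4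
        have h5 : 10000 * L ≤ n := by
          refine le_trans ?_ h2
          rw [le_div_iff₀ (by norm_num)]
          have : L ^ 5 = L ^ 4 * L := by ring
          rw [this]
          nlinarith
        nlinarith
    refine ⟨S.image (fun t => 6 * t + 5), ?_, ?_, ?_⟩
    · intro m hm
      rw [Finset.mem_image] at hm
      obtain ⟨t, htS, rfl⟩ := hm
      have h1 := ht t (hS1 htS)
      have h2 := hS2 t htS
      have e : (6 * t + 5) * (6 * t + 5 + 2) = F t := by unfold F; ring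
      rw [e]
      exact ⟨h1.1, by omega, h2.1, h2.2⟩
    · rw [Finset.card_image_of_injective _ (fun a b h => by simpa using h)]
      exact_mod_cast hS3
    · rw [Finset.card_image_of_injective _ (fun a b h => by simpa using h)]
      refine le_trans ?_ hS4
      apply div_le_div_of_nonneg_left (by positivity) (by positivity)
      have h9 : Real.log n ^ 2 ≤ Real.log (n + 1) ^ 2 :=
        pow_le_pow_left₀ (by linarith) hlog1 2
      linarith

end Pool.Agent.Lib.MP_d610d0_nt
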